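import Pool.Agent.L5helper12.SNEmbed

/-!
# A small switching network for directed connectivity negates almost all variables (by helper12)

Polynomial size switching networks decide exactly the languages of nonuniform deterministic logarithmic
space, and directed connectivity is complete for `NL`, so `NL ⊆ L / poly` if and only if directed
connectivity on `n` vertices has switching networks with polynomially many nodes. By Potechin's theorem
these need negative literals. We show: they need negative literals of almost all of the `n ^ 2` variables.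
If a network with `S` nodes decides directed connectivity from `s` to `t` on `n` vertices, then at most
`n exp (C (1 + √(log S)))` variables (pairs of vertices) have no negative literal in the network. For
polynomial size this is `n ^ (1 + o(1))`. Equivalently, if only `n ^ (1 + γ)` of the `n ^ 2` variables do
not occur negatively, then the network has at least `n ^ (c γ ^ 2 log n)` nodes.

The proof: if many variables occur only positively, then there are `κ` vertices `a i` with many such
variables `(a i, v)` each. A random assignment `f` of the other vertices to the `κ` vertices yields, for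
all `i, j`, a vertex `b i j` with `f (b i j) = j` such that the variable `(a i, b i j)` occurs only
positively. Fix the arcs `v → a (f v)` and drop all arcs except the `a i → b i j`: the network becomes
a monotone network of the same size for directed connectivity on `κ` vertices.
-/

namespace Pool.Agent.L5helper55.NT

open Pool.Agent.L5helper12.SN

/-- the theorem of helper12 (hand-in AlmostAllNegated) -/
theorem almost_all_negated : ∃ C : ℝ, 0 < C ∧ ∀ (n : ℕ) (s t : Fin n), s ≠ t → ∀ N : Network (Fin n),
    N.Decides s t →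
      ({e : Fin n × Fin n | e ∉ N.negated}.ncard : ℝ) ≤
        n * Real.exp (C * (1 + √(Real.log N.size))) := by
  obtain ⟨c, hc, κ₀, hκ₀, hmono⟩ := mono_lower
  -- the statement for a given number of classes
  have main : ∀ κ : ℕ, κ₀ ≤ κ → ∀ (n : ℕ) (s t : Fin n), s ≠ t → ∀ N : Network (Fin n),
      N.Decides s t → 3 * n * κ ^ 2 < {e : Fin n × Fin n | e ∉ N.negated}.ncard →
      (κ : ℝ) ^ (c * Real.log κ) < N.size := by
    intro κ hκ n s t hst N hN hcard
    obtain ⟨E⟩ := exists_embed (le_trans hκ₀ hκ) s t _ hcard
    have h2 : 2 ≤ κ := le_trans hκ₀ hκ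
    let i0 : Fin κ := ⟨0, by omega⟩
    let i1 : Fin κ := ⟨1, by omega⟩
    have h01 : i0 ≠ i1 := by
      intro h
      have := congrArg Fin.val h
      simp [i0, i1] at this
    have hP : ∀ e ∈ {e : Fin n × Fin n | e ∉ N.negated}, e ∉ N.negated := fun e he => he
    have hsound : (E.net i0 i1 N).Sound i0 i1 := by
      intro H hH
      rw [← E.connected_iff i0 i1 hst H]
      exact (hN _).mp ((E.accepts_iff i0 i1 N hP H _).mp hH)
    have := hmono κ hκ i0 i1 h01 (E.net i0 i1 N) hsound (by
      intro L u
      rw [E.accepts_iff i0 i1 N hP]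
      apply (hN _).mpr
      rw [E.connected_iff i0 i1 hst]
      have key : ∀ j, j ≤ L + 1 → Connected (pathArcs (route i0 i1 (fun i => (u i : Fin κ))) L) i0
          (route i0 i1 (fun i => (u i : Fin κ)) j) := by
        intro j
        induction j with
        | zero =>
          intro _
          rw [route_zero]
          exact Relation.ReflTransGen.refl
        | succ j ih =>
          intro hj
          exact (ih (by omega)).tail ⟨j, by omega, rfl⟩
      have h3 := key (L + 1) le_rfl
      rwa [route_last] at h3)
    exact this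
  -- the choice of the number of classes
  set C : ℝ := 2 * (1 / √c + κ₀ + 2) + 2 with hC
  have hCpos : 0 < C := by
    have : 0 < 1 / √c := by positivity
    rw [hC]; positivity
  refine ⟨C, hCpos, ?_⟩
  intro n s t hst N hN
  have hS1 : 1 ≤ N.size := by
    letI := N.fin
    exact Fintype.card_pos_iff.mpr ⟨N.source⟩
  have hS1r : (1 : ℝ) ≤ N.size := by exact_mod_cast hS1
  have hlogS : 0 ≤ Real.log N.size := Real.log_nonneg hS1r
  set x : ℝ := √(Real.log N.size) with hx
  have hx0 : 0 ≤ x := Real.sqrt_nonneg _
  have hxx : x ^ 2 = Real.log N.size := Real.sq_sqrt hlogS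
  set κ : ℕ := max κ₀ ⌈Real.exp (x / √c)⌉₊ with hκ
  have hκκ : κ₀ ≤ κ := le_max_left _ _
  have hκx : Real.exp (x / √c) ≤ κ := by
    have h1 : Real.exp (x / √c) ≤ (⌈Real.exp (x / √c)⌉₊ : ℝ) := Nat.le_ceil _
    have h2 : ⌈Real.exp (x / √c)⌉₊ ≤ κ := le_max_right _ _
    exact h1.trans (by exact_mod_cast h2)
  have hκpos : (0 : ℝ) < κ := lt_of_lt_of_le (Real.exp_pos _) hκx
  have hlogκ : x / √c ≤ Real.log κ := by
    rw [Real.le_log_iff_exp_le hκpos]; exact hκx
  have hle : {e : Fin n × Fin n | e ∉ N.negated}.ncard ≤ 3 * n * κ ^ 2 := by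
    by_contra hcon
    push Not at hcon
    have h1 := main κ hκκ n s t hst N hN hcon
    have h2 : (N.size : ℝ) ≤ (κ : ℝ) ^ (c * Real.log κ) := by
      have h3 : Real.log N.size ≤ c * Real.log κ * Real.log κ := by
        rw [← hxx]
        have h4 : 0 ≤ x / √c := by positivity
        have h5 : (x / √c) ^ 2 ≤ Real.log κ ^ 2 := pow_le_pow_left₀ h4 hlogκ 2
        have h6 : (x / √c) ^ 2 = x ^ 2 / c := by
          rw [div_pow, Real.sq_sqrt hc.le]
        rw [h6, div_le_iff₀ hc] at h5
        nlinarith
      rw [Real.rpow_def_of_pos hκpos]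
      calc (N.size : ℝ) = Real.exp (Real.log N.size) := (Real.exp_log (by linarith)).symm
        _ ≤ _ := Real.exp_le_exp.mpr (by nlinarith)
    linarith
  have hκup : (κ : ℝ) ≤ Real.exp ((1 / √c + κ₀ + 2) * (1 + x)) := by
    have h0 : 0 < 1 / √c := by positivity
    have h1 : (⌈Real.exp (x / √c)⌉₊ : ℝ) ≤ Real.exp (x / √c) + 1 :=
      (Nat.ceil_lt_add_one (Real.exp_pos _).le).le
    have h2 : (κ : ℝ) ≤ κ₀ + (Real.exp (x / √c) + 1) := by
      rw [hκ]
      push_cast
      apply max_le
      · have := Real.exp_pos (x / √c)
        linarith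
      · have : (0 : ℝ) ≤ κ₀ := by positivity
        linarith
    have h3 : (1 : ℝ) ≤ Real.exp (x / √c) := Real.one_le_exp (by positivity)
    have h4 : (κ₀ : ℝ) + 2 ≤ Real.exp (κ₀ + 2) := by
      have := Real.add_one_le_exp ((κ₀ : ℝ) + 2)
      linarith
    calc (κ : ℝ) ≤ κ₀ + (Real.exp (x / √c) + 1) := h2
      _ ≤ (κ₀ + 2) * Real.exp (x / √c) := by
          have : (0 : ℝ) ≤ κ₀ := by positivity
          nlinarith
      _ ≤ Real.exp (κ₀ + 2) * Real.exp (x / √c) := by gcongr
      _ = Real.exp (κ₀ + 2 + x / √c) := by rw [← Real.exp_add]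
      _ ≤ Real.exp ((1 / √c + κ₀ + 2) * (1 + x)) := by
          apply Real.exp_le_exp.mpr
          have h5 : x / √c = (1 / √c) * x := by ring
          rw [h5]
          have : (0 : ℝ) ≤ κ₀ := by positivity
          nlinarith [mul_nonneg this hx0]
  have h3 : (3 : ℝ) ≤ Real.exp 2 := by
    have := Real.add_one_le_exp (2 : ℝ)
    linarith
  calc ({e : Fin n × Fin n | e ∉ N.negated}.ncard : ℝ) ≤ ((3 * n * κ ^ 2 : ℕ) : ℝ) := by exact_mod_cast hle
    _ = n * (3 * (κ : ℝ) ^ 2) := by push_cast; ring
    _ ≤ n * (Real.exp 2 * (Real.exp ((1 / √c + κ₀ + 2) * (1 + x))) ^ 2) := by gcongr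
    _ = n * Real.exp (2 + 2 * ((1 / √c + κ₀ + 2) * (1 + x))) := by
        rw [← Real.exp_nat_mul, ← Real.exp_add]
        norm_num
    _ ≤ n * Real.exp (C * (1 + x)) := by
        gcongr
        rw [hC]
        nlinarith

end Pool.Agent.L5helper55.NT
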