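import Pool.Agent.L5helper55.NT.Grow

/-!
# Above the threshold: everything large is connected
-/

namespace Pool.Agent.L5helper55.NT

open Finset

variable {V : Type} [Fintype V] [DecidableEq V]

/-- the numerical estimate -/
theorem num_est {c δ : ℝ} (hδ0 : 0 < δ) (hδ1 : δ ≤ 1 / 2) (hc : 1 + 8 * δ ≤ c) {n : ℕ} {k : ℕ}
    (hn : 0 < n) (hcn : c ≤ n) (hk : (k : ℝ) ≤ δ / 4 * n) :
    ((Real.exp (-δ)) ^ ⌊(1 + δ) * k⌋₊)⁻¹ *
      ((1 - c / n + c / n * Real.exp (-δ)) ^ (n - ⌊(1 + δ) * k⌋₊)) ^ k ≤ Real.exp (-(δ ^ 2 * k)) := by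
  have hn' : (0 : ℝ) < n := by exact_mod_cast hn
  have hk0 : (0 : ℝ) ≤ k := by positivity
  set m := ⌊(1 + δ) * (k : ℝ)⌋₊ with hm
  have hm1 : (m : ℝ) ≤ (1 + δ) * k := Nat.floor_le (by positivity)
  have hmn : (m : ℝ) ≤ δ / 2 * n := by nlinarith
  have hmn' : m ≤ n := by
    have : (m : ℝ) ≤ n := by nlinarith
    exact_mod_cast this
  have hc0 : 0 < c := by linarith
  have he1 : 1 - Real.exp (-δ) ≥ δ - δ ^ 2 / 2 := by
    have h2 : Real.exp (-δ) * Real.exp δ = 1 := by rw [← Real.exp_add]; simp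
    have h3 := Real.quadratic_le_exp_of_nonneg hδ0.le
    -- exp δ ≥ 1 + δ + δ^2/2
    have h4 : Real.exp (-δ) ≤ 1 / (1 + δ + δ ^ 2 / 2) := by
      rw [le_div_iff₀ (by positivity)]
      calc Real.exp (-δ) * (1 + δ + δ ^ 2 / 2) ≤ Real.exp (-δ) * Real.exp δ :=
            mul_le_mul_of_nonneg_left h3 (Real.exp_pos _).le
        _ = 1 := h2
    have h5 : 1 / (1 + δ + δ ^ 2 / 2) ≤ 1 - δ + δ ^ 2 / 2 := by
      rw [div_le_iff₀ (by positivity)]
      nlinarith [sq_nonneg δ, sq_nonneg (δ ^ 2)]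
    linarith
  have hbase : 1 - c / n + c / n * Real.exp (-δ) ≤ Real.exp (-(c / n * (δ - δ ^ 2 / 2))) := by
    have h1 := Real.add_one_le_exp (-(c / n * (δ - δ ^ 2 / 2)))
    have h2 : c / n * (δ - δ ^ 2 / 2) ≤ c / n * (1 - Real.exp (-δ)) :=
      mul_le_mul_of_nonneg_left he1 (by positivity)
    nlinarith
  have hbase0 : 0 ≤ 1 - c / n + c / n * Real.exp (-δ) := by
    have h1 : c / n ≤ 1 := by rw [div_le_one hn']; exact hcn
    have h2 : 0 ≤ c / n * Real.exp (-δ) := by positivity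
    linarith
  have hpow : ((1 - c / n + c / n * Real.exp (-δ)) ^ (n - m)) ^ k ≤
      Real.exp (-(c / n * (δ - δ ^ 2 / 2)) * ((n - m : ℕ) * k)) := by
    rw [← pow_mul]
    calc (1 - c / n + c / n * Real.exp (-δ)) ^ ((n - m) * k) ≤
          (Real.exp (-(c / n * (δ - δ ^ 2 / 2)))) ^ ((n - m) * k) :=
          pow_le_pow_left₀ hbase0 hbase _
      _ = _ := by
          rw [← Real.exp_nat_mul]
          congr 1
          push_cast
          ring
  have hinv : ((Real.exp (-δ)) ^ m)⁻¹ = Real.exp (δ * m) := by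
    rw [← Real.exp_nat_mul, ← Real.exp_neg]
    congr 1
    ring
  rw [hinv]
  calc Real.exp (δ * m) * ((1 - c / n + c / n * Real.exp (-δ)) ^ (n - m)) ^ k ≤
        Real.exp (δ * m) * Real.exp (-(c / n * (δ - δ ^ 2 / 2)) * ((n - m : ℕ) * k)) :=
        mul_le_mul_of_nonneg_left hpow (Real.exp_pos _).le
    _ = Real.exp (δ * m + -(c / n * (δ - δ ^ 2 / 2)) * ((n - m : ℕ) * k)) := by
        rw [Real.exp_add]
    _ ≤ Real.exp (-(δ ^ 2 * k)) := by
        apply Real.exp_le_exp.mpr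
        rw [Nat.cast_sub hmn']
        -- c / n * (n - m) ≥ c * (1 - δ/2)
        have h1 : c * (1 - δ / 2) ≤ c / n * ((n : ℝ) - m) := by
          rw [div_mul_eq_mul_div, le_div_iff₀ hn']
          nlinarith
        have h2 : c * (1 - δ / 2) * (1 - δ / 2) ≥ 1 + 2 * δ := by
          nlinarith [mul_nonneg (by linarith : (0:ℝ) ≤ c - (1 + 8 * δ)) (sq_nonneg (1 - δ / 2)),
            mul_pos hδ0 hδ0, mul_nonneg hδ0.le (sub_nonneg.mpr hδ1),
            mul_nonneg (mul_nonneg hδ0.le hδ0.le) (sub_nonneg.mpr hδ1)]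
        have h3 : (1 + 2 * δ) * (δ * k) ≤ c / n * ((n : ℝ) - m) * (1 - δ / 2) * (δ * k) := by
          apply mul_le_mul_of_nonneg_right _ (by positivity)
          calc (1 + 2 * δ) ≤ c * (1 - δ / 2) * (1 - δ / 2) := h2
            _ ≤ _ := mul_le_mul_of_nonneg_right h1 (by linarith)
        have h4 : -(c / n * (δ - δ ^ 2 / 2)) * (((n : ℝ) - m) * k) =
            -(c / n * ((n : ℝ) - m) * (1 - δ / 2) * (δ * k)) := by ring
        rw [h4]
        have h5 : δ * (m : ℝ) ≤ δ * ((1 + δ) * k) := mul_le_mul_of_nonneg_left hm1 hδ0.le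
        nlinarith

/-- the bad event at step `k` -/
def Slow (σ : V × V ≃ V × V) (G : Set (V × V)) (s : V) (δ : ℝ) (k : ℕ) : Prop :=
  (xpl σ G s k).1.card = k ∧ (xpl σ G s k).2.card ≤ ⌊(1 + δ) * k⌋₊

theorem slow_pr (σ : V × V ≃ V × V) (D : Set (V × V)) (s : V) {c δ : ℝ} (hδ0 : 0 < δ)
    (hδ1 : δ ≤ 1 / 2) (hc : 1 + 8 * δ ≤ c) (hcn : c ≤ Fintype.card V) {k : ℕ}
    (hk : (k : ℝ) ≤ δ / 4 * Fintype.card V) :
    pr (c / Fintype.card V) (fun R : Finset (V × V) => Slow σ (D ∪ ↑R) s δ k) ≤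
      Real.exp (-(δ ^ 2 * k)) := by
  have hn : (0 : ℝ) < Fintype.card V := by linarith
  have h0 : 0 ≤ c / Fintype.card V := by
    apply div_nonneg _ hn.le
    linarith
  have h1 : c / Fintype.card V ≤ 1 := by rw [div_le_one hn]; exact hcn
  refine (grow_pr σ D s h0 h1 (Real.exp_pos (-δ)) ?_ ⌊(1 + δ) * k⌋₊ k).trans ?_
  · rw [Real.exp_le_one_iff]; linarith
  · exact num_est hδ0 hδ1 hc (by exact_mod_cast hn) hcn hk

/-- if no step is slow then the exploration lives long -/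
theorem fast (σ : V × V ≃ V × V) (G : Set (V × V)) (s : V) {δ : ℝ} (hδ0 : 0 < δ) {K k : ℕ}
    (hKk : K ≤ k) (hK : K ≤ (rset σ G s).card) (h : ∀ j ∈ Icc K k, ¬ Slow σ G s δ j) :
    (xpl σ G s k).1.card = k ∧ ⌊δ * k⌋₊ ≤ ((xpl σ G s k).2 \ (xpl σ G s k).1).card := by
  have key : ∀ j, K ≤ j → j ≤ k → (xpl σ G s j).1.card = j ∧
      (1 + δ) * j < (xpl σ G s j).2.card := by
    intro j hj
    induction j, hj using Nat.le_induction with
    | base =>
      intro _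
      have h1 := xpl_alive σ G s K hK
      refine ⟨h1, ?_⟩
      have h2 := h K (mem_Icc.mpr ⟨le_rfl, hKk⟩)
      unfold Slow at h2
      rw [not_and, not_le] at h2
      have h3 := h2 h1
      exact (Nat.floor_lt (by positivity)).mp h3
    | succ j hj ih =>
      intro hjk
      obtain ⟨h1, h2⟩ := ih (by omega)
      have h3 : j < (xpl σ G s j).2.card := by
        have h4 : (j : ℝ) < (xpl σ G s j).2.card := by
          have : (0 : ℝ) ≤ δ * j := by positivity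
          linarith
        exact_mod_cast h4
      have h4 := xpl_alive_succ σ G s j h1 h3
      refine ⟨h4, ?_⟩
      have h5 := h (j + 1) (mem_Icc.mpr ⟨by omega, hjk⟩)
      unfold Slow at h5
      rw [not_and, not_le] at h5
      have h6 := h5 h4
      exact (Nat.floor_lt (by positivity)).mp h6
  obtain ⟨h1, h2⟩ := key k hKk le_rfl
  refine ⟨h1, ?_⟩
  have hsub := (xpl_inv σ G s k).1
  rw [card_sdiff_of_subset hsub, h1]
  apply Nat.floor_le_of_le
  have h3 : k ≤ (xpl σ G s k).2.card := by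
    have := card_le_card hsub
    omega
  rw [Nat.cast_sub h3]
  linarith

theorem geom_tail {x : ℝ} (hx : 0 < x) (K k : ℕ) :
    ∑ j ∈ Icc K k, Real.exp (-(x * j)) ≤ (1 - Real.exp (-x))⁻¹ * Real.exp (-(x * K)) := by
  have hr0 : 0 ≤ Real.exp (-x) := (Real.exp_pos _).le
  have hr1 : Real.exp (-x) < 1 := by rw [Real.exp_lt_one_iff]; linarith
  have h1 : ∀ j : ℕ, Real.exp (-(x * j)) = Real.exp (-x) ^ j := by
    intro j
    rw [← Real.exp_nat_mul]
    congr 1
    ring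
  simp only [h1]
  have h2 : ∑ j ∈ Icc K k, Real.exp (-x) ^ j ≤ ∑' j, Real.exp (-x) ^ (j + K) := by
    have hs : Summable fun j : ℕ => Real.exp (-x) ^ (j + K) := by
      simp only [pow_add]
      exact (summable_geometric_of_lt_one hr0 hr1).mul_right _
    have h3 : ∑ j ∈ Icc K k, Real.exp (-x) ^ j = ∑ j ∈ range (k + 1 - K), Real.exp (-x) ^ (j + K) := by
      rw [← Finset.Ico_succ_right_eq_Icc, Finset.sum_Ico_eq_sum_range]
      apply sum_congr rfl
      intro j _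
      rw [add_comm]
    rw [h3]
    exact hs.sum_le_tsum _ (fun j _ => by positivity)
  refine h2.trans (le_of_eq ?_)
  simp only [pow_add]
  rw [tsum_mul_right, tsum_geometric_of_lt_one hr0 hr1]

/-- Above the threshold, explicit form. If `s` reaches at least `K` vertices and `t` is reached from at
least `K` vertices then `s` reaches `t`, up to a small probability. -/
theorem above_explicit {δ : ℝ} (hδ0 : 0 < δ) (hδ1 : δ ≤ 1 / 2) (hn : 16 / δ ^ 2 ≤ Fintype.card V)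
    {p : ℝ} (hp : 1 + 8 * δ ≤ p * Fintype.card V) (hp1 : p ≤ 1) {K : ℕ}
    (hK : (K : ℝ) ≤ δ / 4 * Fintype.card V) (D : Set (V × V)) (s t : V) :
    pr p (fun R : Finset (V × V) =>
        K ≤ (rset fw (D ∪ ↑R) s).card ∧ K ≤ (rset bw (D ∪ ↑R) t).card ∧
          ¬ Rch fw (D ∪ ↑R) s t) ≤
      2 * ((1 - Real.exp (-δ ^ 2))⁻¹ * Real.exp (-(δ ^ 2 * K))) +
        Real.exp (-(δ ^ 4 / 64 * Fintype.card V)) := by
  have hexp : 0 < 1 - Real.exp (-δ ^ 2) := by
    have : Real.exp (-δ ^ 2) < 1 := by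
      rw [Real.exp_lt_one_iff]
      have : 0 < δ ^ 2 := by positivity
      linarith
    linarith
  have hpos : 0 < 16 / δ ^ 2 := by positivity
  have hnpos' : (0 : ℝ) < Fintype.card V := by linarith
  obtain ⟨c, hc⟩ : ∃ c, c = p * Fintype.card V := ⟨_, rfl⟩
  have hpc : p = c / Fintype.card V := by
    rw [hc]
    field_simp
  have hδc : 1 + 8 * δ ≤ c := by rw [hc]; exact hp
  have hcn : c ≤ Fintype.card V := by
    rw [hc]
    nlinarith
  rw [hpc]
  set n := Fintype.card V with hndef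
  have hnpos : (0 : ℝ) < n := hnpos'
  have hp0 : 0 ≤ c / n := by
    apply div_nonneg _ hnpos.le
    linarith
  have hp1 : c / n ≤ 1 := by rw [div_le_one hnpos]; exact hcn
  set k := ⌊δ / 4 * n⌋₊ with hk
  have hKk : K ≤ k := Nat.le_floor hK
  have hk1 : (k : ℝ) ≤ δ / 4 * n := Nat.floor_le (by positivity)
  set a := ⌊δ * (k : ℝ)⌋₊ with ha
  -- the union bound
  have h1 : pr (c / n) (fun R : Finset (V × V) =>
        K ≤ (rset fw (D ∪ ↑R) s).card ∧ K ≤ (rset bw (D ∪ ↑R) t).card ∧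
          ¬ Rch fw (D ∪ ↑R) s t) ≤
      pr (c / n) (fun R : Finset (V × V) => (∃ j ∈ Icc K k, Slow fw (D ∪ ↑R) s δ j) ∨
        ((∃ j ∈ Icc K k, Slow bw (D ∪ ↑R) t δ j) ∨
        (a ≤ ((xpl fw (D ∪ ↑R) s k).2 \ (xpl fw (D ∪ ↑R) s k).1).card ∧
        a ≤ ((xpl bw (D ∪ ↑R) t k).2 \ (xpl bw (D ∪ ↑R) t k).1).card ∧
        ¬ Rch fw (D ∪ ↑R) s t))) := by
    apply pr_mono hp0 hp1
    rintro R ⟨hs, ht, hst⟩
    by_cases h2 : ∃ j ∈ Icc K k, Slow fw (D ∪ ↑R) s δ j
    · exact Or.inl h2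
    by_cases h3 : ∃ j ∈ Icc K k, Slow bw (D ∪ ↑R) t δ j
    · exact Or.inr (Or.inl h3)
    push Not at h2 h3
    exact Or.inr (Or.inr ⟨(fast fw _ s hδ0 hKk hs h2).2, (fast bw _ t hδ0 hKk ht h3).2, hst⟩)
  refine h1.trans ?_
  refine (pr_or hp0 hp1 _ _).trans ?_
  have hslow : ∀ (σ : V × V ≃ V × V) (u : V),
      pr (c / n) (fun R : Finset (V × V) => ∃ j ∈ Icc K k, Slow σ (D ∪ ↑R) u δ j) ≤
      (1 - Real.exp (-δ ^ 2))⁻¹ * Real.exp (-(δ ^ 2 * K)) := by
    intro σ u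
    refine (pr_exists hp0 hp1 (Icc K k)
      (fun j (R : Finset (V × V)) => Slow σ (D ∪ ↑R) u δ j)).trans ?_
    refine le_trans ?_ (geom_tail (x := δ ^ 2) (by positivity) K k)
    apply sum_le_sum
    intro j hj
    have hj' : (j : ℝ) ≤ δ / 4 * n := by
      have : (j : ℝ) ≤ k := by exact_mod_cast (mem_Icc.mp hj).2
      linarith
    exact slow_pr σ D u hδ0 hδ1 hδc hcn hj'
  have hor2 := pr_or hp0 hp1 (fun R : Finset (V × V) => ∃ j ∈ Icc K k, Slow bw (D ∪ ↑R) t δ j)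
    (fun R : Finset (V × V) => a ≤ ((xpl fw (D ∪ ↑R) s k).2 \ (xpl fw (D ∪ ↑R) s k).1).card ∧
        a ≤ ((xpl bw (D ∪ ↑R) t k).2 \ (xpl bw (D ∪ ↑R) t k).1).card ∧
        ¬ Rch fw (D ∪ ↑R) s t)
  have hlink := link D s t hp0 hp1 k a
  have hnum : (1 - c / n) ^ (a * a) ≤ Real.exp (-(δ ^ 4 / 64 * n)) := by
    have ha1 : δ ^ 2 / 8 * n ≤ a := by
      have h2 : δ * (k : ℝ) < a + 1 := Nat.lt_floor_add_one _
      have h3 : δ / 4 * n < k + 1 := Nat.lt_floor_add_one _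
      have h4 : 16 ≤ δ ^ 2 * n := by
        rw [div_le_iff₀ (by positivity)] at hn
        linarith
      nlinarith
    have ha2 : δ ^ 4 / 64 * n ≤ c / n * (a * a) := by
      rw [div_mul_eq_mul_div c, le_div_iff₀ hnpos]
      have h5 : δ ^ 2 / 8 * n * (δ ^ 2 / 8 * n) ≤ (a : ℝ) * a :=
        mul_self_le_mul_self (by positivity) ha1
      have h6 : (0 : ℝ) ≤ (a : ℝ) * a := by positivity
      nlinarith
    calc (1 - c / n) ^ (a * a) ≤ (Real.exp (-(c / n))) ^ (a * a) :=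
          pow_le_pow_left₀ (by linarith) (by linarith [Real.add_one_le_exp (-(c / n))]) _
      _ = Real.exp (-(c / n * (a * a))) := by
          rw [← Real.exp_nat_mul]
          congr 1
          push_cast
          ring
      _ ≤ _ := by
          apply Real.exp_le_exp.mpr
          linarith
  have hs := hslow fw s
  have ht := hslow bw t
  calc _ ≤ (1 - Real.exp (-δ ^ 2))⁻¹ * Real.exp (-(δ ^ 2 * K)) +
        ((1 - Real.exp (-δ ^ 2))⁻¹ * Real.exp (-(δ ^ 2 * K)) + Real.exp (-(δ ^ 4 / 64 * n))) := by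
          apply add_le_add hs
          exact hor2.trans (add_le_add ht (hlink.trans hnum))
    _ = _ := by ring

/-- Above the threshold: with probability `1 - A exp (- κ K)` the following holds for `s`, `t`: if `s`
reaches at least `K` vertices and `t` is reached from at least `K` vertices, then `s` reaches `t`. -/
theorem above {c : ℝ} (hc : 1 < c) : ∃ κ > 0, ∃ A > 0, ∃ γ > 0, ∃ n₀ : ℕ, ∀ (V : Type) [Fintype V]
    [DecidableEq V], n₀ ≤ Fintype.card V → ∀ K : ℕ, (K : ℝ) ≤ γ * Fintype.card V →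
      ∀ p : ℝ, c / Fintype.card V ≤ p → p ≤ 1 →
      ∀ (D : Set (V × V)) (s t : V), pr p (fun R : Finset (V × V) =>
        K ≤ (rset fw (D ∪ ↑R) s).card ∧ K ≤ (rset bw (D ∪ ↑R) t).card ∧
          ¬ Rch fw (D ∪ ↑R) s t) ≤ A * Real.exp (-(κ * K)) := by
  set δ := min (1 / 2) ((c - 1) / 8) with hδ
  have hδ0 : 0 < δ := by
    apply lt_min (by norm_num)
    linarith
  have hδ1 : δ ≤ 1 / 2 := min_le_left _ _
  have hδc : 1 + 8 * δ ≤ c := by
    have := min_le_right (1 / 2) ((c - 1) / 8)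
    linarith
  have hexp : 0 < 1 - Real.exp (-δ ^ 2) := by
    have : Real.exp (-δ ^ 2) < 1 := by
      rw [Real.exp_lt_one_iff]
      have : 0 < δ ^ 2 := by positivity
      linarith
    linarith
  refine ⟨δ ^ 4 / 64, by positivity, 2 * (1 - Real.exp (-δ ^ 2))⁻¹ + 1, by positivity, δ / 4,
    by positivity, ⌈16 / δ ^ 2⌉₊, ?_⟩
  intro V _ _ hn K hK p hp hp1 D s t
  have hn1 : 16 / δ ^ 2 ≤ Fintype.card V := Nat.ceil_le.mp hn
  have hpos : 0 < 16 / δ ^ 2 := by positivity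
  have hnpos : (0 : ℝ) < Fintype.card V := by linarith
  have hpn : 1 + 8 * δ ≤ p * Fintype.card V := by
    rw [div_le_iff₀ hnpos] at hp
    linarith
  refine (above_explicit hδ0 hδ1 hn1 hpn hp1 hK D s t).trans ?_
  have hKn : (K : ℝ) ≤ Fintype.card V := by nlinarith
  have h1 : Real.exp (-(δ ^ 2 * K)) ≤ Real.exp (-(δ ^ 4 / 64 * K)) := by
    apply Real.exp_le_exp.mpr
    have : δ ^ 4 / 64 * (K : ℝ) ≤ δ ^ 2 * K := by
      apply mul_le_mul_of_nonneg_right _ (by positivity)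
      have : δ ^ 4 = δ ^ 2 * δ ^ 2 := by ring
      have h2 : 0 ≤ δ ^ 2 := by positivity
      have h3 : δ ^ 2 ≤ 1 := by nlinarith
      nlinarith
    linarith
  have h2 : Real.exp (-(δ ^ 4 / 64 * Fintype.card V)) ≤ Real.exp (-(δ ^ 4 / 64 * K)) := by
    apply Real.exp_le_exp.mpr
    have : δ ^ 4 / 64 * (K : ℝ) ≤ δ ^ 4 / 64 * Fintype.card V :=
      mul_le_mul_of_nonneg_left hKn (by positivity)
    linarith
  have hmul := mul_le_mul_of_nonneg_left h1 (le_of_lt (inv_pos.mpr hexp))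
  linarith

end Pool.Agent.L5helper55.NT
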