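import Pool.Agent.L5helper55.NT.Net

/-!
# Amplification by majorities of three
-/

namespace Pool.Agent.L5helper55.NT

open Pool.Agent.L5helper12.SN Finset

variable {V : Type}

open Classical in
/-- a random predicate `F` of complexity `S` which differs from `T` with probability at most `ε` on every
input -/
def Amp (X : Set (V × V)) (T : Set (V × V) → Prop) (S : ℕ) (ε : ℝ) : Prop :=
  ∃ (Ω : Type) (_ : Fintype Ω) (w : Ω → ℝ) (F : Ω → Set (V × V) → Prop),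
    (∀ ω, 0 ≤ w ω) ∧ ∑ ω, w ω = 1 ∧ (∀ ω, Comp X S (F ω)) ∧
    ∀ H, ∑ ω, w ω * (if (F ω H ↔ T H) then 0 else 1) ≤ ε

theorem Amp.weaken {X : Set (V × V)} {T : Set (V × V) → Prop} {S S' : ℕ} {ε ε' : ℝ}
    (h : Amp X T S ε) (hS : S ≤ S') (hε : ε ≤ ε') : Amp X T S' ε' := by
  obtain ⟨Ω, i, w, F, h1, h2, h3, h4⟩ := h
  exact ⟨Ω, i, w, F, h1, h2, fun ω => (h3 ω).mono hS, fun H => (h4 H).trans hε⟩

theorem maj_num {q ε : ℝ} (hq0 : 0 ≤ q) (hqε : q ≤ ε) (hε : ε ≤ 1) :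
    3 * q ^ 2 - 2 * q ^ 3 ≤ 3 * ε ^ 2 - 2 * ε ^ 3 := by
  have h1 : 0 ≤ (ε - q) * (3 * (ε + q) - 2 * (ε ^ 2 + ε * q + q ^ 2)) := by
    apply mul_nonneg (by linarith)
    nlinarith [mul_nonneg hq0 (sub_nonneg.mpr hε), mul_nonneg (hq0.trans hqε) (sub_nonneg.mpr hε),
      mul_nonneg hq0 (sub_nonneg.mpr (hqε.trans hε)),
      mul_nonneg (hq0.trans hqε) (sub_nonneg.mpr (hqε.trans hε))]
  nlinarith

theorem Amp.step {X : Set (V × V)} {T : Set (V × V) → Prop} {S : ℕ} {ε : ℝ}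
    (h : Amp X T S ε) (hε : ε ≤ 1) : Amp X T (5 * S + 4) (3 * ε ^ 2 - 2 * ε ^ 3) := by
  classical
  obtain ⟨Ω, i, w, F, h1, h2, h3, h4⟩ := h
  refine ⟨Ω × Ω × Ω, inferInstance, fun x => w x.1 * (w x.2.1 * w x.2.2),
    fun x H => Maj (F x.1 H) (F x.2.1 H) (F x.2.2 H), ?_, ?_, ?_, ?_⟩
  · intro x
    exact mul_nonneg (h1 _) (mul_nonneg (h1 _) (h1 _))
  · rw [← univ_product_univ, sum_product]
    simp only [← mul_sum]
    have h5 : ∑ y : Ω × Ω, w y.1 * w y.2 = 1 := by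
      rw [← univ_product_univ, sum_product]
      simp only [← mul_sum, h2, mul_one]
    simp only [h5, mul_one, h2]
  · intro x
    exact (h3 _).maj (h3 _) (h3 _)
  · intro H
    set b : Ω → ℝ := fun ω => if (F ω H ↔ T H) then 0 else 1 with hb
    set q := ∑ ω, w ω * b ω with hq
    have hq0 : 0 ≤ q := by
      apply sum_nonneg
      intro ω _
      apply mul_nonneg (h1 ω)
      simp only [hb]
      split_ifs <;> norm_num
    have hle : ∀ x : Ω × Ω × Ω, w x.1 * (w x.2.1 * w x.2.2) *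
        (if (Maj (F x.1 H) (F x.2.1 H) (F x.2.2 H) ↔ T H) then (0 : ℝ) else 1) =
        (w x.1 * b x.1) * ((w x.2.1 * b x.2.1) * w x.2.2) +
        (w x.1 * b x.1) * (w x.2.1 * (w x.2.2 * b x.2.2)) +
        w x.1 * ((w x.2.1 * b x.2.1) * (w x.2.2 * b x.2.2)) -
        2 * ((w x.1 * b x.1) * ((w x.2.1 * b x.2.1) * (w x.2.2 * b x.2.2))) := by
      intro x
      simp only [hb, Maj]
      by_cases hT : T H <;> by_cases ha : F x.1 H <;> by_cases hb' : F x.2.1 H <;>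
        by_cases hc : F x.2.2 H <;> simp [hT, ha, hb', hc] <;> ring
    rw [sum_congr rfl (fun x _ => hle x)]
    rw [sum_sub_distrib, sum_add_distrib, sum_add_distrib, ← mul_sum]
    have hprod : ∀ f g k : Ω → ℝ, ∑ x : Ω × Ω × Ω, f x.1 * (g x.2.1 * k x.2.2) =
        (∑ ω, f ω) * ((∑ ω, g ω) * ∑ ω, k ω) := by
      intro f g k
      rw [← univ_product_univ, sum_product]
      simp only [← mul_sum]
      have h5 : ∑ y : Ω × Ω, g y.1 * k y.2 = (∑ ω, g ω) * ∑ ω, k ω := by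
        rw [← univ_product_univ, sum_product]
        simp only [← mul_sum]
        rw [← sum_mul]
      rw [h5, ← sum_mul]
    have e1 := hprod (fun ω => w ω * b ω) (fun ω => w ω * b ω) w
    have e2 := hprod (fun ω => w ω * b ω) w (fun ω => w ω * b ω)
    have e3 := hprod w (fun ω => w ω * b ω) (fun ω => w ω * b ω)
    have e4 := hprod (fun ω => w ω * b ω) (fun ω => w ω * b ω) (fun ω => w ω * b ω)
    rw [e1, e2, e3, e4, h2, ← hq]
    have h6 := maj_num hq0 (h4 H) hε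
    linarith

/-- five steps lead from `5 / 12` to `1 / 12` -/
theorem Amp.five {X : Set (V × V)} {T : Set (V × V) → Prop} {S : ℕ} (hS : 1 ≤ S)
    (h : Amp X T S (5 / 12)) : Amp X T (9 ^ 5 * S) (1 / 12) := by
  have h1 := (h.step (by norm_num)).weaken (S' := 9 * S) (ε' := 377 / 1000) (by omega) (by norm_num)
  have h2 := (h1.step (by norm_num)).weaken (S' := 9 ^ 2 * S) (ε' := 320 / 1000) (by omega)
    (by norm_num)
  have h3 := (h2.step (by norm_num)).weaken (S' := 9 ^ 3 * S) (ε' := 242 / 1000) (by omega)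
    (by norm_num)
  have h4 := (h3.step (by norm_num)).weaken (S' := 9 ^ 4 * S) (ε' := 148 / 1000) (by omega)
    (by norm_num)
  exact (h4.step (by norm_num)).weaken (S' := 9 ^ 5 * S) (ε' := 1 / 12) (by omega)
    (by norm_num)

theorem Amp.iterate {X : Set (V × V)} {T : Set (V × V) → Prop} {S : ℕ} (hS : 1 ≤ S)
    (h : Amp X T S (1 / 12)) (d : ℕ) : Amp X T (9 ^ d * S) (1 / 3 * (1 / 4) ^ 2 ^ d) := by
  induction d with
  | zero => exact h.weaken (by simp) (by norm_num)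
  | succ d ih =>
    have h1 : (1 / 3 * (1 / 4 : ℝ) ^ 2 ^ d) ≤ 1 := by
      have : (1 / 4 : ℝ) ^ 2 ^ d ≤ 1 := pow_le_one₀ (by norm_num) (by norm_num)
      linarith
    refine (ih.step h1).weaken ?_ ?_
    · have : 1 ≤ 9 ^ d * S := Nat.one_le_iff_ne_zero.mpr (by positivity)
      rw [pow_succ]
      nlinarith
    · have h2 : (1 / 4 : ℝ) ^ 2 ^ (d + 1) = ((1 / 4 : ℝ) ^ 2 ^ d) ^ 2 := by
        rw [← pow_mul, pow_succ]
      rw [h2]
      have h3 : 0 ≤ (1 / 4 : ℝ) ^ 2 ^ d := by positivity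
      nlinarith [pow_nonneg h3 3]

open Classical in
theorem Amp.final {X : Set (V × V)} [Fintype V] {T : Set (V × V) → Prop} {S : ℕ} {ε : ℝ}
    (h : Amp X T S ε) (hε : (2 : ℝ) ^ (Fintype.card V ^ 2) * ε < 1) : Comp X S T := by
  obtain ⟨Ω, i, w, F, h1, h2, h3, h4⟩ := h
  by_contra hcon
  have h5 : ∀ ω, ∃ H, ¬ (F ω H ↔ T H) := by
    intro ω
    by_contra hc
    push Not at hc
    exact hcon ((h3 ω).congr hc)
  have h6 : (1 : ℝ) ≤ ∑ H : Set (V × V), ∑ ω, w ω * (if (F ω H ↔ T H) then 0 else 1) := by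
    rw [sum_comm]
    refine le_trans (le_of_eq h2.symm) ?_
    apply sum_le_sum
    intro ω _
    obtain ⟨H, hH⟩ := h5 ω
    rw [← mul_sum]
    have h7 : (1 : ℝ) ≤ ∑ H : Set (V × V), (if (F ω H ↔ T H) then 0 else 1) := by
      have := single_le_sum (f := fun H : Set (V × V) => (if (F ω H ↔ T H) then (0 : ℝ) else 1))
        (s := univ) (fun i _ => by split_ifs <;> norm_num) (mem_univ H)
      simpa [hH] using this
    calc w ω = w ω * 1 := (mul_one _).symm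
      _ ≤ _ := mul_le_mul_of_nonneg_left h7 (h1 ω)
  have h8 : ∑ H : Set (V × V), ∑ ω, w ω * (if (F ω H ↔ T H) then (0 : ℝ) else 1) ≤
      ∑ _H : Set (V × V), ε := sum_le_sum fun H _ => h4 H
  rw [sum_const, card_univ, Fintype.card_set, Fintype.card_prod, nsmul_eq_mul] at h8
  push_cast at h8
  rw [← sq] at h8
  linarith

/-- the derandomisation -/
theorem Amp.derandomize {X : Set (V × V)} [Fintype V] {T : Set (V × V) → Prop} {S : ℕ}
    (hS : 1 ≤ S) (h : Amp X T S (5 / 12)) {m : ℕ} (hm : Fintype.card V = m) (hm1 : 1 ≤ m) :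
    Comp X (9 ^ 5 * 16 * m ^ 8 * S) T := by
  obtain ⟨d, hd1, hd2⟩ : ∃ d : ℕ, m ^ 2 ≤ 2 ^ d ∧ 2 ^ d ≤ 2 * m ^ 2 := by
    refine ⟨Nat.clog 2 (m ^ 2), Nat.le_pow_clog (by norm_num) _, ?_⟩
    rcases Nat.lt_or_ge 1 (m ^ 2) with h1 | h1
    · have := Nat.pow_pred_clog_lt_self (b := 2) (by norm_num) h1
      have h2 : 0 < Nat.clog 2 (m ^ 2) := Nat.clog_pos (by norm_num) h1
      obtain ⟨k, hk⟩ : ∃ k, Nat.clog 2 (m ^ 2) = k + 1 := ⟨Nat.clog 2 (m ^ 2) - 1, by omega⟩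
      rw [hk] at this ⊢
      simp only [Nat.pred_succ] at this
      rw [pow_succ]
      omega
    · have h2 : m ^ 2 = 1 := by
        have : 1 ≤ m ^ 2 := Nat.one_le_pow _ _ hm1
        omega
      rw [h2]
      simp
  have h1 := (h.five hS).iterate (d := d) (by
    have : 1 ≤ 9 ^ 5 * S := by omega
    exact this)
  have h2 := h1.final (by
    rw [hm]
    have h3 : (1 / 4 : ℝ) ^ 2 ^ d ≤ (1 / 2 : ℝ) ^ (m ^ 2) := by
      calc (1 / 4 : ℝ) ^ 2 ^ d ≤ (1 / 2 : ℝ) ^ 2 ^ d := pow_le_pow_left₀ (by norm_num) (by norm_num) _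
        _ ≤ _ := pow_le_pow_of_le_one (by norm_num) (by norm_num) hd1
    have h4 : (2 : ℝ) ^ (m ^ 2) * (1 / 2 : ℝ) ^ (m ^ 2) = 1 := by
      rw [← mul_pow]; norm_num
    have h5 : (0 : ℝ) < 2 ^ (m ^ 2) := by positivity
    calc (2 : ℝ) ^ (m ^ 2) * (1 / 3 * (1 / 4) ^ 2 ^ d) =
          1 / 3 * ((2 : ℝ) ^ (m ^ 2) * (1 / 4) ^ 2 ^ d) := by ring
      _ ≤ 1 / 3 * ((2 : ℝ) ^ (m ^ 2) * (1 / 2 : ℝ) ^ (m ^ 2)) := by
          apply mul_le_mul_of_nonneg_left _ (by norm_num)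
          exact mul_le_mul_of_nonneg_left h3 h5.le
      _ = 1 / 3 := by rw [h4]; ring
      _ < 1 := by norm_num)
  refine h2.mono ?_
  have h3 : 9 ^ d ≤ 16 * m ^ 8 := by
    calc 9 ^ d ≤ 16 ^ d := Nat.pow_le_pow_left (by norm_num) _
      _ = (2 ^ d) ^ 4 := by rw [← pow_mul, mul_comm, pow_mul]; norm_num
      _ ≤ (2 * m ^ 2) ^ 4 := Nat.pow_le_pow_left hd2 4
      _ = 16 * m ^ 8 := by ring
  calc 9 ^ d * (9 ^ 5 * S) ≤ (16 * m ^ 8) * (9 ^ 5 * S) := Nat.mul_le_mul_right _ h3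
    _ = _ := by ring

end Pool.Agent.L5helper55.NT
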