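import Pool.Agent.L5helper55.NT.Grow

/-!
# Below the threshold: the noise does not connect a small set of vertices
-/

namespace Pool.Agent.L5helper55.NT

open Finset

set_option linter.unusedSectionVars false

variable {V : Type} [Fintype V] [DecidableEq V]

/-- walks with at most `k` arcs of `R` to `w` which avoid the rows of the vertices in `S` and of the
vertices visited before -/
def Rk (R : Finset (V × V)) (w : V) : ℕ → Finset V → V → Prop
  | 0, _, x => x = w
  | k + 1, S, x => x = w ∨ ∃ y, (x, y) ∈ R ∧ x ∉ S ∧ Rk R w k (insert x S) y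

/-- there is a walk from `x` to `w` in `R` avoiding the rows in `S` -/
def Av (R : Finset (V × V)) (w : V) (S : Finset V) (x : V) : Prop :=
  Relation.ReflTransGen (fun a b => (a, b) ∈ R ∧ a ∉ S) x w

theorem Av.last {R : Finset (V × V)} {w : V} {S : Finset V} {a : V} (h : Av R w S a) (x : V) :
    Av R w (insert x S) a ∨ ∃ y, (x, y) ∈ R ∧ x ∉ S ∧ Av R w (insert x S) y := by
  unfold Av at h
  induction h using Relation.ReflTransGen.head_induction_on with
  | refl => exact Or.inl Relation.ReflTransGen.refl
  | head h1 h2 ih =>
    rename_i a b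
    rcases ih with ih | ih
    · by_cases hax : a = x
      · subst hax
        exact Or.inr ⟨b, h1.1, h1.2, ih⟩
      · left
        refine Relation.ReflTransGen.head ⟨h1.1, ?_⟩ ih
        simp only [mem_insert, not_or]
        exact ⟨hax, h1.2⟩
    · exact Or.inr ih

theorem Av.rk {R : Finset (V × V)} {w : V} (k : ℕ) : ∀ (S : Finset V) (x : V),
    Fintype.card V ≤ S.card + k → Av R w S x → Rk R w k S x := by
  induction k with
  | zero =>
    intro S x hS h
    have hS' : S = univ := by
      apply eq_univ_of_card
      have := card_le_univ S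
      omega
    rcases Relation.ReflTransGen.cases_head h with h1 | ⟨y, h1, _⟩
    · exact h1
    · exact absurd (hS' ▸ mem_univ x) h1.2
  | succ k ih =>
    intro S x hS h
    by_cases hxw : x = w
    · exact Or.inl hxw
    right
    rcases h.last x with h1 | ⟨y, h1, h2, h3⟩
    · exfalso
      rcases Relation.ReflTransGen.cases_head h1 with h2 | ⟨y, h2, _⟩
      · exact hxw h2
      · exact h2.2 (mem_insert_self _ _)
    · refine ⟨y, h1, h2, ih _ _ ?_ h3⟩
      rw [card_insert_of_notMem h2]
      omega

theorem Rk_congr {R R' : Finset (V × V)} {w : V} (k : ℕ) : ∀ (S : Finset V) (x : V),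
    (∀ u, u ∉ S → ∀ v, (u, v) ∈ R ↔ (u, v) ∈ R') → (Rk R w k S x → Rk R' w k S x) := by
  induction k with
  | zero => intro S x _ h; exact h
  | succ k ih =>
    intro S x hS h
    rcases h with h | ⟨y, h1, h2, h3⟩
    · exact Or.inl h
    · refine Or.inr ⟨y, (hS x h2 y).mp h1, h2, ih _ _ ?_ h3⟩
      intro u hu v
      exact hS u (fun h => hu (mem_insert_of_mem h)) v

theorem Rk_pr {p : ℝ} (hp0 : 0 ≤ p) (hp1 : p ≤ 1) {q : ℝ} (hq0 : 0 ≤ q)
    (hq : p + Fintype.card V * (p * q) ≤ q) (w : V) (k : ℕ) : ∀ (S : Finset V) (x : V), x ≠ w →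
    pr p (fun R => Rk R w k S x) ≤ q := by
  classical
  induction k with
  | zero =>
    intro S x hx
    rw [pr_def]
    refine le_trans (le_of_eq ?_) hq0
    unfold ex
    apply sum_eq_zero
    intro R _
    simp [Rk, hx]
  | succ k ih =>
    intro S x hx
    have h1 : pr p (fun R => Rk R w (k + 1) S x) ≤
        pr p (fun R => ∃ y ∈ (univ : Finset V), (x, y) ∈ R ∧ Rk R w k (insert x S) y) := by
      apply pr_mono hp0 hp1
      rintro R (h | ⟨y, h1, h2, h3⟩)
      · exact absurd h hx
      · exact ⟨y, mem_univ _, h1, h3⟩
    refine h1.trans ?_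
    refine (pr_exists hp0 hp1 univ (fun y R => (x, y) ∈ R ∧ Rk R w k (insert x S) y)).trans ?_
    -- each summand
    have h2 : ∀ y : V, pr p (fun R => (x, y) ∈ R ∧ Rk R w k (insert x S) y) ≤
        p * (if y = w then 1 else 0) + p * q := by
      intro y
      have h3 : pr p (fun R => (x, y) ∈ R ∧ Rk R w k (insert x S) y) =
          pr p (fun R => Rk R w k (insert x S) y) * p := by
        rw [pr_def, pr_def]
        have h4 : (fun R : Finset (V × V) => if (x, y) ∈ R ∧ Rk R w k (insert x S) y then
            (1 : ℝ) else 0) = fun R => (if Rk R w k (insert x S) y then (1 : ℝ) else 0) *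
            (if (x, y) ∈ R then 1 else 0) := by
          funext R
          by_cases hA : (x, y) ∈ R <;> by_cases hB : Rk R w k (insert x S) y <;> simp [hA, hB]
        rw [h4, ex_mul p {(x, y)}]
        · congr 1
          have h5 := ex_prod (ι := V × V) p (fun e => 1) (fun e => if e = (x, y) then 0 else 1)
          have h6 : (fun R : Finset (V × V) => if (x, y) ∈ R then (1 : ℝ) else 0) =
              fun R => ∏ e : V × V, if e ∈ R then (1 : ℝ) else if e = (x, y) then 0 else 1 := by
            funext R
            by_cases hA : (x, y) ∈ R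
            · rw [if_pos hA]
              symm
              apply prod_eq_one
              intro e _
              by_cases he : e ∈ R
              · simp [he]
              · have : e ≠ (x, y) := fun h => he (h ▸ hA)
                simp [he, this]
            · rw [if_neg hA]
              symm
              apply prod_eq_zero (mem_univ (x, y))
              simp [hA]
          rw [h6, h5]
          rw [prod_eq_single (x, y)]
          · simp
          · intro b _ hb
            simp [hb]
          · intro h; exact absurd (mem_univ _) h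
        · intro R R' hRR
          have hiff : Rk R w k (insert x S) y ↔ Rk R' w k (insert x S) y := by
            have hT : ∀ u, u ∉ insert x S → ∀ v, (u, v) ∈ R ↔ (u, v) ∈ R' := by
              intro u hu v
              have hne : ((u, v) : V × V) ≠ (x, y) := by
                intro h
                rw [Prod.mk.injEq] at h
                exact hu (h.1 ▸ mem_insert_self _ _)
              have := congrArg (fun A => (u, v) ∈ A) hRR
              simpa [hne] using this
            exact ⟨Rk_congr k _ _ hT, Rk_congr k _ _ (fun u hu v => (hT u hu v).symm)⟩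
          simp only [hiff]
        · intro R R' hRR
          have : (x, y) ∈ R ↔ (x, y) ∈ R' := by
            have := congrArg (fun A => (x, y) ∈ A) hRR
            simpa using this
          simp only [this]
      rw [h3]
      by_cases hy : y = w
      · rw [if_pos hy]
        have := pr_le_one hp0 hp1 (fun R => Rk R w k (insert x S) y)
        nlinarith [mul_nonneg hp0 hq0]
      · rw [if_neg hy]
        have := ih (insert x S) y hy
        nlinarith
    refine (sum_le_sum fun y _ => h2 y).trans ?_
    rw [sum_add_distrib, ← mul_sum, sum_ite_eq' univ w, if_pos (mem_univ _), sum_const, card_univ,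
      nsmul_eq_mul]
    linarith

/-- for noise of density `c / n`, `c < 1`, the probability that `x` reaches `w` is `O(1 / n)` -/
theorem below_pair {c : ℝ} (hc0 : 0 ≤ c) (hc1 : c < 1) (x w : V) (hxw : x ≠ w) :
    pr (c / Fintype.card V) (fun R : Finset (V × V) =>
      Relation.ReflTransGen (fun a b => (a, b) ∈ R) x w) ≤ c / ((1 - c) * Fintype.card V) := by
  have hne : Nonempty V := ⟨x⟩
  have hn : (1 : ℝ) ≤ Fintype.card V := by exact_mod_cast Fintype.card_pos
  have hn0 : (0 : ℝ) < Fintype.card V := by linarith
  have hp0 : 0 ≤ c / Fintype.card V := by positivity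
  have hp1 : c / Fintype.card V ≤ 1 := by rw [div_le_one hn0]; linarith
  have h1c : 0 < 1 - c := by linarith
  refine le_trans (pr_mono hp0 hp1 ?_) (Rk_pr hp0 hp1 (q := c / ((1 - c) * Fintype.card V))
    (by positivity) ?_ w (Fintype.card V) ∅ x hxw)
  · intro R h
    apply Av.rk _ _ _ (by simp)
    unfold Av
    simpa using h
  · apply le_of_eq
    field_simp
    ring

/-- a walk of `H ∪ R` between vertices of `U`, where `H` has only arcs inside `U`, is a walk of `H` unless
`R` connects two vertices of `U` -/
theorem no_shortcut (U : Set V) (H : Set (V × V)) (R : Finset (V × V))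
    (hH : ∀ e ∈ H, e.1 ∈ U ∧ e.2 ∈ U)
    (hR : ∀ u ∈ U, ∀ w ∈ U, u ≠ w → ¬ Relation.ReflTransGen (fun a b => (a, b) ∈ R) u w)
    {s t : V} (hs : s ∈ U) (ht : t ∈ U)
    (h : Relation.ReflTransGen (fun a b => (a, b) ∈ H ∪ (↑R : Set (V × V))) s t) :
    Relation.ReflTransGen (fun a b => (a, b) ∈ H) s t := by
  -- every vertex reached from `s` is reached by an `H`-walk to a vertex of `U` and an `R`-walk
  have key : ∀ x, Relation.ReflTransGen (fun a b => (a, b) ∈ H ∪ (↑R : Set (V × V))) s x →
      ∃ u ∈ U, Relation.ReflTransGen (fun a b => (a, b) ∈ H) s u ∧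
        Relation.ReflTransGen (fun a b => (a, b) ∈ R) u x := by
    intro x hx
    induction hx with
    | refl => exact ⟨s, hs, Relation.ReflTransGen.refl, Relation.ReflTransGen.refl⟩
    | tail h1 h2 ih =>
      rename_i b c
      obtain ⟨u, hu, h3, h4⟩ := ih
      rcases h2 with h2 | h2
      · have hb := (hH _ h2)
        have hub : u = b := by
          by_contra hne
          exact hR u hu b hb.1 hne h4
        subst hub
        exact ⟨c, hb.2, h3.tail h2, Relation.ReflTransGen.refl⟩
      · exact ⟨u, hu, h3, h4.tail (by exact_mod_cast h2)⟩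
  obtain ⟨u, hu, h3, h4⟩ := key t h
  have hut : u = t := by
    by_contra hne
    exact hR u hu t ht hne h4
  rw [← hut]
  exact h3

/-- below the threshold the noise changes the connectivity inside a set of `m` vertices with
probability at most `m ^ 2 c / ((1 - c) n)` -/
theorem below {c : ℝ} (hc0 : 0 ≤ c) (hc1 : c < 1) (hV : Nonempty V) (U : Finset V) :
    pr (c / Fintype.card V) (fun R : Finset (V × V) => ∃ u ∈ U, ∃ w ∈ U, u ≠ w ∧
      Relation.ReflTransGen (fun a b => (a, b) ∈ R) u w) ≤
      (U.card : ℝ) ^ 2 * (c / ((1 - c) * Fintype.card V)) := by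
  have hn : (1 : ℝ) ≤ Fintype.card V := by exact_mod_cast Fintype.card_pos
  have hn0 : (0 : ℝ) < Fintype.card V := by linarith
  have hp0 : 0 ≤ c / Fintype.card V := by positivity
  have hp1 : c / Fintype.card V ≤ 1 := by rw [div_le_one hn0]; linarith
  have h1c : 0 < 1 - c := by linarith
  refine (pr_exists hp0 hp1 U (fun u R => ∃ w ∈ U, u ≠ w ∧
      Relation.ReflTransGen (fun a b => (a, b) ∈ R) u w)).trans ?_
  have h1 : ∀ u ∈ U, pr (c / Fintype.card V) (fun R : Finset (V × V) => ∃ w ∈ U, u ≠ w ∧
      Relation.ReflTransGen (fun a b => (a, b) ∈ R) u w) ≤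
      U.card * (c / ((1 - c) * Fintype.card V)) := by
    intro u _
    refine (pr_exists hp0 hp1 U (fun w R => u ≠ w ∧
      Relation.ReflTransGen (fun a b => (a, b) ∈ R) u w)).trans ?_
    rw [← nsmul_eq_mul, ← sum_const]
    apply sum_le_sum
    intro w _
    by_cases huw : u = w
    · have : pr (c / Fintype.card V) (fun R : Finset (V × V) => u ≠ w ∧
          Relation.ReflTransGen (fun a b => (a, b) ∈ R) u w) ≤ 0 := by
        classical
        rw [pr_def]
        apply le_of_eq
        unfold ex
        apply sum_eq_zero
        intro R _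
        simp [huw]
      exact this.trans (by positivity)
    · refine le_trans (pr_mono hp0 hp1 ?_) (below_pair hc0 hc1 u w huw)
      intro R h
      exact h.2
  refine (sum_le_sum h1).trans (le_of_eq ?_)
  rw [sum_const, nsmul_eq_mul]
  ring

end Pool.Agent.L5helper55.NT
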