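import Pool.Agent.L5helper55.NT.Below

/-!
# At the threshold: critical noise does not connect a small set of vertices
-/

namespace Pool.Agent.L5helper55.NT

open Finset

set_option linter.unusedSectionVars false

variable {V : Type} [Fintype V] [DecidableEq V]

/-- there is a path with `k` arcs of `R` which starts in `x` and avoids the rows in `S` -/
def Ln (R : Finset (V × V)) : ℕ → Finset V → V → Prop
  | 0, _, _ => True
  | k + 1, S, x => x ∉ S ∧ ∃ y, (x, y) ∈ R ∧ Ln R k (insert x S) y

theorem Rk_or_Ln {R : Finset (V × V)} {w : V} (j : ℕ) : ∀ (K : ℕ) (S : Finset V) (x : V),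
    Rk R w K S x → Rk R w j S x ∨ Ln R j S x := by
  induction j with
  | zero => intro K S x _; exact Or.inr trivial
  | succ j ih =>
    intro K S x h
    cases K with
    | zero => exact Or.inl (Or.inl h)
    | succ K =>
      rcases h with h | ⟨y, h1, h2, h3⟩
      · exact Or.inl (Or.inl h)
      · rcases ih K _ _ h3 with h4 | h4
        · exact Or.inl (Or.inr ⟨y, h1, h2, h4⟩)
        · exact Or.inr ⟨h2, y, h1, h4⟩

theorem Ln_congr {R R' : Finset (V × V)} (k : ℕ) : ∀ (S : Finset V) (x : V),
    (∀ u, u ∉ S → ∀ v, (u, v) ∈ R ↔ (u, v) ∈ R') → (Ln R k S x → Ln R' k S x) := by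
  induction k with
  | zero => intro S x _ h; exact h
  | succ k ih =>
    intro S x hS h
    obtain ⟨h2, y, h1, h3⟩ := h
    refine ⟨h2, y, (hS x h2 y).mp h1, ih _ _ ?_ h3⟩
    intro u hu v
    exact hS u (fun h => hu (mem_insert_of_mem h)) v

/-- probability of a fixed arc and an event not depending on its row -/
theorem pr_arc {p : ℝ} (x y : V) (A : Finset (V × V) → Prop)
    (hA : ∀ R R' : Finset (V × V), (∀ u, u ≠ x → ∀ v, (u, v) ∈ R ↔ (u, v) ∈ R') → (A R → A R')) :
    pr p (fun R => (x, y) ∈ R ∧ A R) = pr p A * p := by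
  classical
  rw [pr_def, pr_def]
  have h4 : (fun R : Finset (V × V) => if (x, y) ∈ R ∧ A R then (1 : ℝ) else 0) =
      fun R => (if A R then (1 : ℝ) else 0) * (if (x, y) ∈ R then 1 else 0) := by
    funext R
    by_cases hA : (x, y) ∈ R <;> by_cases hB : A R <;> simp [hA, hB]
  rw [h4, ex_mul p {(x, y)}]
  · congr 1
    have h5 := ex_prod (ι := V × V) p (fun e => 1) (fun e => if e = (x, y) then 0 else 1)
    have h6 : (fun R : Finset (V × V) => if (x, y) ∈ R then (1 : ℝ) else 0) =
        fun R => ∏ e : V × V, if e ∈ R then (1 : ℝ) else if e = (x, y) then 0 else 1 := by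
      funext R
      by_cases hA : (x, y) ∈ R
      · rw [if_pos hA]
        symm
        apply prod_eq_one
        intro e _
        by_cases he : e ∈ R
        · simp [he]
        · have : e ≠ (x, y) := fun h => he (h ▸ hA)
          simp [he, this]
      · rw [if_neg hA]
        symm
        apply prod_eq_zero (mem_univ (x, y))
        simp [hA]
    rw [h6, h5]
    rw [prod_eq_single (x, y)]
    · simp
    · intro b _ hb
      simp [hb]
    · intro h; exact absurd (mem_univ _) h
  · intro R R' hRR
    have hT : ∀ u, u ≠ x → ∀ v, (u, v) ∈ R ↔ (u, v) ∈ R' := by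
      intro u hu v
      have hne : ((u, v) : V × V) ≠ (x, y) := by
        intro h
        rw [Prod.mk.injEq] at h
        exact hu h.1
      have := congrArg (fun A => (u, v) ∈ A) hRR
      simpa [hne] using this
    have hiff : A R ↔ A R' := ⟨hA R R' hT, hA R' R (fun u hu v => (hT u hu v).symm)⟩
    simp only [hiff]
  · intro R R' hRR
    have : (x, y) ∈ R ↔ (x, y) ∈ R' := by
      have := congrArg (fun A => (x, y) ∈ A) hRR
      simpa using this
    simp only [this]

/-- bounded length -/
theorem Rk_pr_short {p : ℝ} (hp0 : 0 ≤ p) (hp1 : p ≤ 1) {Λ : ℝ} (hΛ1 : 1 ≤ Λ)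
    (hΛ : Fintype.card V * p ≤ Λ) (w : V) (k : ℕ) : ∀ (S : Finset V) (x : V), x ≠ w →
    pr p (fun R => Rk R w k S x) ≤ k * Λ ^ k * p := by
  classical
  induction k with
  | zero =>
    intro S x hx
    have h0 : ((0 : ℕ) : ℝ) * Λ ^ 0 * p = 0 := by simp
    rw [pr_def, h0]
    apply le_of_eq
    unfold ex
    apply sum_eq_zero
    intro R _
    simp [Rk, hx]
  | succ k ih =>
    intro S x hx
    have h1 : pr p (fun R => Rk R w (k + 1) S x) ≤
        pr p (fun R => ∃ y ∈ (univ : Finset V), (x, y) ∈ R ∧ Rk R w k (insert x S) y) := by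
      apply pr_mono hp0 hp1
      rintro R (h | ⟨y, h1, h2, h3⟩)
      · exact absurd h hx
      · exact ⟨y, mem_univ _, h1, h3⟩
    refine h1.trans ?_
    refine (pr_exists hp0 hp1 univ (fun y R => (x, y) ∈ R ∧ Rk R w k (insert x S) y)).trans ?_
    have h2 : ∀ y : V, pr p (fun R => (x, y) ∈ R ∧ Rk R w k (insert x S) y) ≤
        p * (if y = w then 1 else 0) + p * (k * Λ ^ k * p) := by
      intro y
      rw [pr_arc x y (fun R => Rk R w k (insert x S) y)]
      · have hq : 0 ≤ p * (k * Λ ^ k * p) := by positivity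
        by_cases hy : y = w
        · rw [if_pos hy]
          have := pr_le_one hp0 hp1 (fun R => Rk R w k (insert x S) y)
          nlinarith
        · rw [if_neg hy]
          have := ih (insert x S) y hy
          nlinarith
      · intro R R' hRR
        apply Rk_congr
        intro u hu v
        apply hRR
        intro h
        exact hu (h ▸ mem_insert_self _ _)
    refine (sum_le_sum fun y _ => h2 y).trans ?_
    rw [sum_add_distrib, ← mul_sum, sum_ite_eq' univ w, if_pos (mem_univ _), sum_const, card_univ,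
      nsmul_eq_mul]
    have h3 : (Fintype.card V : ℝ) * (p * (k * Λ ^ k * p)) ≤ Λ * (k * Λ ^ k * p) := by
      have : 0 ≤ k * Λ ^ k * p := by positivity
      calc (Fintype.card V : ℝ) * (p * (k * Λ ^ k * p)) = (Fintype.card V * p) * (k * Λ ^ k * p) := by
            ring
        _ ≤ _ := mul_le_mul_of_nonneg_right hΛ this
    have h4 : (1 : ℝ) ≤ Λ ^ (k + 1) := one_le_pow₀ hΛ1
    have h5 : p ≤ Λ ^ (k + 1) * p := by nlinarith
    calc p * 1 + (Fintype.card V : ℝ) * (p * (k * Λ ^ k * p)) ≤
          Λ ^ (k + 1) * p + Λ * (k * Λ ^ k * p) := by linarith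
      _ = _ := by
          push_cast
          ring

theorem one_sub_exp_le {x : ℝ} (hx : 0 ≤ x) : 1 - Real.exp (-x) ≤ 2 * x / (2 + x) := by
  -- exp (-x) ≥ (2 - x) / (2 + x)
  have h1 : (2 - x) / (2 + x) ≤ Real.exp (-x) := by
    by_cases h2 : 2 ≤ x
    · have : (2 - x) / (2 + x) ≤ 0 := div_nonpos_of_nonpos_of_nonneg (by linarith) (by linarith)
      exact this.trans (Real.exp_pos _).le
    · push Not at h2
      -- exp x ≤ (2 + x) / (2 - x)
      have h3 : Real.exp (x / 2) ≤ 1 / (1 - x / 2) := by
        have h4 := Real.add_one_le_exp (-(x / 2))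
        rw [Real.exp_neg] at h4
        rw [le_div_iff₀ (by linarith)]
        have h5 := Real.exp_pos (x / 2)
        have h6 : (Real.exp (x / 2))⁻¹ * Real.exp (x / 2) = 1 := inv_mul_cancel₀ h5.ne'
        nlinarith
      -- a sharper inequality through the derivative
      have key : ∀ y : ℝ, 0 ≤ y → y < 2 → (2 - y) * Real.exp y ≤ 2 + y := by
        intro y hy0 hy2
        have hmono : AntitoneOn (fun z : ℝ => (2 - z) * Real.exp z - (2 + z)) (Set.Ici 0) := by
          apply antitoneOn_of_deriv_nonpos (convex_Ici 0)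
          · fun_prop
          · fun_prop
          · intro z hz
            rw [interior_Ici] at hz
            have hd : HasDerivAt (fun z : ℝ => (2 - z) * Real.exp z - (2 + z))
                ((-1) * Real.exp z + (2 - z) * Real.exp z - 1) z := by
              have h1 : HasDerivAt (fun z : ℝ => 2 - z) (-1) z := by
                simpa using (hasDerivAt_id z).const_sub 2
              have h2 : HasDerivAt (fun z : ℝ => 2 + z) 1 z := by
                simpa using (hasDerivAt_id z).const_add 2
              exact (h1.mul (Real.hasDerivAt_exp z)).sub h2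
            rw [hd.deriv]
            -- (1 - z) exp z ≤ 1
            have h4 := Real.add_one_le_exp (-z)
            rw [Real.exp_neg] at h4
            have h5 := Real.exp_pos z
            have h6 : (Real.exp z)⁻¹ * Real.exp z = 1 := inv_mul_cancel₀ h5.ne'
            nlinarith
        have := hmono (Set.mem_Ici.mpr le_rfl) (Set.mem_Ici.mpr hy0) hy0
        simp only [sub_zero, Real.exp_zero, mul_one, add_zero, sub_self] at this
        linarith
      have h7 := key x hx h2
      have h8 := Real.exp_pos x
      rw [div_le_iff₀ (by linarith), Real.exp_neg]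
      have h6 : (Real.exp x)⁻¹ * Real.exp x = 1 := inv_mul_cancel₀ h8.ne'
      have h9 : 0 < (Real.exp x)⁻¹ := inv_pos.mpr h8
      calc 2 - x = (Real.exp x)⁻¹ * ((2 - x) * Real.exp x) := by
            rw [mul_comm (2 - x), ← mul_assoc, h6, one_mul]
        _ ≤ (Real.exp x)⁻¹ * (2 + x) := mul_le_mul_of_nonneg_left h7 h9.le
  have h3 : 2 * x / (2 + x) = 1 - (2 - x) / (2 + x) := by
    field_simp
    ring
  rw [h3]
  linarith

/-- the recursion for the survival probability -/
theorem surv_rec {η a : ℝ} (hη : 0 ≤ η) (ha : 0 ≤ a) :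
    2 * ((1 + η) * (2 * η + a)) / (2 + (1 + η) * (2 * η + a)) ≤ 2 * η + a / (1 + a / 2) := by
  have h1 : 0 < 2 + (1 + η) * (2 * η + a) := by positivity
  have h2 : 0 < 1 + a / 2 := by positivity
  have h3 : 2 * η + a / (1 + a / 2) = (2 * η * (1 + a / 2) + a) / (1 + a / 2) := by
    field_simp
  rw [h3, div_le_div_iff₀ h1 h2]
  nlinarith [mul_nonneg hη ha, mul_nonneg hη hη, mul_nonneg (mul_nonneg hη hη) hη,
    mul_nonneg (mul_nonneg hη hη) ha, mul_nonneg (mul_nonneg (mul_nonneg hη hη) hη) ha,
    mul_nonneg (mul_nonneg hη ha) ha, mul_nonneg (mul_nonneg (mul_nonneg hη hη) ha) ha]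

/-- the probability that a path of length `k` starts in `x` -/
theorem Ln_pr {p : ℝ} (hp0 : 0 ≤ p) (hp1 : p ≤ 1 / 2) {η : ℝ} (hη : 0 ≤ η)
    (hμ : (p + p ^ 2) * Fintype.card V ≤ 1 + η) (k : ℕ) : ∀ (S : Finset V) (x : V),
    pr p (fun R => Ln R k S x) ≤ 2 * η + 2 / (k + 2) := by
  classical
  have hp1' : p ≤ 1 := by linarith
  induction k with
  | zero =>
    intro S x
    have := pr_le_one hp0 hp1' (fun R => Ln R 0 S x)
    simp only [CharP.cast_eq_zero, zero_add]
    linarith
  | succ k ih =>
    intro S x
    set q : ℝ := 2 * η + 2 / (k + 2) with hq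
    have hq0 : 0 ≤ q := by positivity
    set n : ℝ := (Fintype.card V : ℝ) with hn
    have hn0 : 0 ≤ n := by positivity
    -- condition on the other rows
    have h1 : pr p (fun R => Ln R (k + 1) S x) ≤
        pr p (fun R => ∃ y, (x, y) ∈ R ∧ Ln R k (insert x S) y) := by
      apply pr_mono hp0 hp1'
      rintro R ⟨h2, y, h1, h3⟩
      exact ⟨y, h1, h3⟩
    refine h1.trans ?_
    -- E (1 - (1 - p) ^ Z)
    let Y : Finset (V × V) → Finset V := fun R => univ.filter (fun y => Ln R k (insert x S) y)
    have hYrow : ∀ R R' : Finset (V × V), (∀ u, u ≠ x → ∀ v, (u, v) ∈ R ↔ (u, v) ∈ R') →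
        Y R = Y R' := by
      intro R R' hRR
      ext y
      simp only [Y, mem_filter, mem_univ, true_and]
      have hc : ∀ R R' : Finset (V × V), (∀ u, u ≠ x → ∀ v, (u, v) ∈ R ↔ (u, v) ∈ R') →
          Ln R k (insert x S) y → Ln R' k (insert x S) y := by
        intro R R' hRR
        apply Ln_congr
        intro u hu v
        apply hRR
        intro h
        exact hu (h ▸ mem_insert_self _ _)
      exact ⟨hc R R' hRR, hc R' R (fun u hu v => (hRR u hu v).symm)⟩
    have h2 : pr p (fun R => ∃ y, (x, y) ∈ R ∧ Ln R k (insert x S) y) =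
        ex p (fun R => 1 - (1 - p) ^ (Y R).card) := by
      rw [pr_def, ex_split p Y, ex_split p Y (fun R => 1 - (1 - p) ^ (Y R).card)]
      apply sum_congr rfl
      intro A _
      -- the row of `x` restricted to `A`
      let T : Finset (V × V) := A.image (fun y => (x, y))
      have hT : T.card = A.card := card_image_of_injective _ (fun a b h => (Prod.mk.inj h).2)
      have h3 : (fun R : Finset (V × V) => (if Y R = A then (1 : ℝ) else 0) *
          (if ∃ y, (x, y) ∈ R ∧ Ln R k (insert x S) y then 1 else 0)) =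
          fun R => (if Y R = A then (1 : ℝ) else 0) * (1 - 0 ^ (R ∩ T).card) := by
        funext R
        by_cases hY : Y R = A
        · simp only [hY, if_true, one_mul]
          by_cases hex : ∃ y, (x, y) ∈ R ∧ Ln R k (insert x S) y
          · rw [if_pos hex]
            obtain ⟨y, hy1, hy2⟩ := hex
            have hyA : y ∈ A := by
              rw [← hY]
              simp only [Y, mem_filter, mem_univ, true_and]
              exact hy2
            have hne : (R ∩ T).card ≠ 0 := by
              rw [card_ne_zero]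
              exact ⟨(x, y), mem_inter.mpr ⟨hy1, mem_image_of_mem _ hyA⟩⟩
            rw [zero_pow hne]
            ring
          · rw [if_neg hex]
            have he : R ∩ T = ∅ := by
              rw [eq_empty_iff_forall_notMem]
              intro e he
              rw [mem_inter, mem_image] at he
              obtain ⟨he1, y, hy, rfl⟩ := he
              apply hex
              refine ⟨y, he1, ?_⟩
              rw [← hY] at hy
              simpa only [Y, mem_filter, mem_univ, true_and] using hy
            rw [he]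
            simp
        · simp [hY]
      have h4 : (fun R : Finset (V × V) => (if Y R = A then (1 : ℝ) else 0) *
          (1 - (1 - p) ^ (Y R).card)) =
          fun R => (1 - (1 - p) ^ A.card) * (if Y R = A then (1 : ℝ) else 0) := by
        funext R
        by_cases hY : Y R = A
        · simp only [hY, if_true, one_mul, mul_one]
        · simp [hY]
      rw [h3, h4, ex_const_mul]
      rw [ex_mul p T]
      · have h5 : ex p (fun R : Finset (V × V) => 1 - (0 : ℝ) ^ (R ∩ T).card) =
            1 - (1 - p) ^ A.card := by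
          have h6 := moment p 0 T
          rw [mul_zero, add_zero, hT] at h6
          have h7 := ex_one (ι := V × V) p
          unfold ex at *
          rw [← h6]
          nth_rewrite 2 [← h7]
          rw [← sum_sub_distrib]
          apply sum_congr rfl
          intro R _
          ring
        rw [h5]
        ring
      · intro R R' hRR
        have : Y R = Y R' := by
          apply hYrow
          intro u hu v
          have hne : ((u, v) : V × V) ∉ T := by
            intro h
            rw [mem_image] at h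
            obtain ⟨y, _, hy⟩ := h
            rw [Prod.mk.injEq] at hy
            exact hu hy.1.symm
          have := congrArg (fun A => (u, v) ∈ A) hRR
          simpa [hne] using this
        rw [this]
      · intro R R' hRR
        rw [hRR]
    rw [h2]
    -- E |Y| ≤ n q
    have hEY : ex p (fun R => ((Y R).card : ℝ)) ≤ n * q := by
      have h3 : (fun R : Finset (V × V) => ((Y R).card : ℝ)) =
          fun R => ∑ y ∈ (univ : Finset V), if Ln R k (insert x S) y then (1 : ℝ) else 0 := by
        funext R
        simp only [Y]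
        rw [card_filter]
        push_cast
        rfl
      rw [h3, ex_sum]
      have h4 : ∀ y ∈ (univ : Finset V),
          ex p (fun R => if Ln R k (insert x S) y then (1 : ℝ) else 0) ≤ q := by
        intro y _
        rw [← pr_def]
        exact ih (insert x S) y
      refine (sum_le_sum h4).trans (le_of_eq ?_)
      rw [sum_const, card_univ, nsmul_eq_mul]
    -- the tangent
    set θ := p + p ^ 2 with hθ
    have hθ0 : 0 ≤ θ := by positivity
    have hexp : Real.exp (-θ) ≤ 1 - p := by
      -- exp (-(p + p^2)) ≤ 1 - p for p ≤ 1/2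
      have h3 := Real.quadratic_le_exp_of_nonneg hθ0
      have h4 : Real.exp (-θ) * Real.exp θ = 1 := by rw [← Real.exp_add]; simp
      have h5 : 0 < Real.exp (-θ) := Real.exp_pos _
      have h6 : 1 ≤ (1 - p) * (1 + θ + θ ^ 2 / 2) := by
        rw [hθ]
        nlinarith [mul_nonneg hp0 hp0, mul_nonneg (mul_nonneg hp0 hp0) hp0,
          mul_nonneg (mul_nonneg (mul_nonneg hp0 hp0) hp0) hp0,
          mul_nonneg (mul_nonneg hp0 hp0) (sub_nonneg.mpr hp1),
          mul_nonneg (mul_nonneg (mul_nonneg hp0 hp0) hp0) (sub_nonneg.mpr hp1)]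
      have h7 : 1 ≤ (1 - p) * Real.exp θ :=
        h6.trans (mul_le_mul_of_nonneg_left h3 (by linarith))
      nlinarith
    have htan : ∀ R : Finset (V × V), 1 - (1 - p) ^ (Y R).card ≤
        1 - Real.exp (-(θ * (n * q))) * (1 - θ * ((Y R).card - n * q)) := by
      intro R
      have h3 : Real.exp (-(θ * (Y R).card)) ≤ (1 - p) ^ (Y R).card := by
        calc Real.exp (-(θ * (Y R).card)) = Real.exp (-θ) ^ (Y R).card := by
              rw [← Real.exp_nat_mul]
              congr 1
              ring
          _ ≤ _ := pow_le_pow_left₀ (Real.exp_pos _).le hexp _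
      have h4 : Real.exp (-(θ * (Y R).card)) =
          Real.exp (-(θ * (n * q))) * Real.exp (-(θ * ((Y R).card - n * q))) := by
        rw [← Real.exp_add]
        congr 1
        ring
      have h5 := Real.add_one_le_exp (-(θ * ((Y R).card - n * q)))
      have h6 := Real.exp_pos (-(θ * (n * q)))
      have h7 : Real.exp (-(θ * (n * q))) * (1 - θ * ((Y R).card - n * q)) ≤
          Real.exp (-(θ * (n * q))) * Real.exp (-(θ * ((Y R).card - n * q))) :=
        mul_le_mul_of_nonneg_left (by linarith) h6.le
      rw [← h4] at h7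
      linarith
    have h3 : ex p (fun R => 1 - (1 - p) ^ (Y R).card) ≤ 1 - Real.exp (-(θ * (n * q))) := by
      refine (ex_mono hp0 hp1' htan).trans ?_
      have h4 : ex p (fun R : Finset (V × V) =>
          1 - Real.exp (-(θ * (n * q))) * (1 - θ * ((Y R).card - n * q))) =
          1 - Real.exp (-(θ * (n * q))) * (1 + θ * (n * q)) +
            Real.exp (-(θ * (n * q))) * θ * ex p (fun R => ((Y R).card : ℝ)) := by
        have h5 : (fun R : Finset (V × V) =>
            1 - Real.exp (-(θ * (n * q))) * (1 - θ * ((Y R).card - n * q))) =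
            fun R => (1 - Real.exp (-(θ * (n * q))) * (1 + θ * (n * q))) * 1 +
              Real.exp (-(θ * (n * q))) * θ * ((Y R).card : ℝ) := by
          funext R
          ring
        rw [h5]
        have h6 := ex_one (ι := V × V) p
        have h7 : ∀ (α β : ℝ) (F : Finset (V × V) → ℝ),
            ex p (fun R => α * 1 + β * F R) = α * ex p (fun _ : Finset (V × V) => (1 : ℝ)) +
              β * ex p F := by
          intro α β F
          unfold ex
          rw [mul_sum, mul_sum, ← sum_add_distrib]
          apply sum_congr rfl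
          intro R _
          ring
        rw [h7, h6]
        ring
      rw [h4]
      have h5 : Real.exp (-(θ * (n * q))) * θ * ex p (fun R => ((Y R).card : ℝ)) ≤
          Real.exp (-(θ * (n * q))) * θ * (n * q) :=
        mul_le_mul_of_nonneg_left hEY (by positivity)
      linarith
    refine h3.trans ?_
    -- θ n q ≤ (1 + η) q
    have h4 : θ * (n * q) ≤ (1 + η) * q := by
      calc θ * (n * q) = θ * n * q := by ring
        _ ≤ _ := mul_le_mul_of_nonneg_right hμ hq0
    have h5 : 1 - Real.exp (-(θ * (n * q))) ≤ 1 - Real.exp (-((1 + η) * q)) := by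
      have := Real.exp_le_exp.mpr (neg_le_neg h4)
      linarith
    refine h5.trans ((one_sub_exp_le (by positivity)).trans ?_)
    have h6 := surv_rec hη (a := 2 / ((k : ℝ) + 2)) (by positivity)
    rw [← hq] at h6
    refine h6.trans (le_of_eq ?_)
    push_cast
    field_simp
    ring

/-- noise of density at most `(1 + ε) / n` -/
theorem crit_pair {p ε : ℝ} (hp0 : 0 ≤ p) (hε0 : 0 ≤ ε) (hε1 : ε ≤ 1) (hn : 4 ≤ Fintype.card V)
    (hp : p * Fintype.card V ≤ 1 + ε) (x w : V) (hxw : x ≠ w) :
    pr p (fun R : Finset (V × V) => Relation.ReflTransGen (fun a b => (a, b) ∈ R) x w) ≤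
      4 * ε + 12 / √(Fintype.card V) := by
  set n : ℝ := (Fintype.card V : ℝ) with hndef
  have hn4 : (4 : ℝ) ≤ n := by
    rw [hndef]
    exact_mod_cast hn
  have hn0 : 0 < n := by linarith
  have hp2 : p ≤ 2 / n := by
    rw [le_div_iff₀ hn0]
    linarith
  have hp12 : p ≤ 1 / 2 := by
    refine hp2.trans ?_
    rw [div_le_div_iff₀ hn0 (by norm_num)]
    linarith
  have hp1 : p ≤ 1 := by linarith
  have hsq : √n * √n = n := Real.mul_self_sqrt hn0.le
  have hs2 : 2 ≤ √n := by
    apply Real.le_sqrt_of_sq_le
    linarith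
  have hs0 : 0 < √n := by linarith
  -- the length
  set ζ := max ε (1 / √n) with hζ
  have hζ0 : 0 < ζ := lt_of_lt_of_le (by positivity) (le_max_right _ _)
  have hζ1 : ζ ≤ ε + 1 / √n := max_le (by linarith [show 0 < 1 / √n by positivity]) (by linarith)
  have hεζ : ε ≤ ζ := le_max_left _ _
  have hsζ : 1 / √n ≤ ζ := le_max_right _ _
  set j := ⌊1 / ζ⌋₊ with hj
  have hj1 : (j : ℝ) ≤ 1 / ζ := Nat.floor_le (by positivity)
  have hj2 : 1 / ζ < j + 1 := Nat.lt_floor_add_one _
  have hjs : (j : ℝ) ≤ √n := by
    refine hj1.trans ?_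
    rw [div_le_iff₀ hζ0]
    rw [div_le_iff₀ hs0] at hsζ
    linarith
  set η := ε + 4 / n with hη
  have hη0 : 0 ≤ η := by positivity
  have hμ : (p + p ^ 2) * n ≤ 1 + η := by
    have h1 : p ^ 2 * n ≤ 4 / n := by
      have h2 : p * n ≤ 2 := by linarith
      calc p ^ 2 * n = p * (p * n) := by ring
        _ ≤ (2 / n) * 2 := mul_le_mul hp2 h2 (by positivity) (by positivity)
        _ = 4 / n := by ring
    calc (p + p ^ 2) * n = p * n + p ^ 2 * n := by ring
      _ ≤ _ := by linarith
  have h1 : pr p (fun R : Finset (V × V) => Relation.ReflTransGen (fun a b => (a, b) ∈ R) x w) ≤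
      pr p (fun R => Rk R w j ∅ x ∨ Ln R j ∅ x) := by
    apply pr_mono hp0 hp1
    intro R h
    apply Rk_or_Ln j (Fintype.card V)
    apply Av.rk _ _ _ (by simp)
    unfold Av
    simpa using h
  refine h1.trans ((pr_or hp0 hp1 _ _).trans ?_)
  have h2 := Rk_pr_short hp0 hp1 (Λ := 1 + ε) (by linarith) (by rw [mul_comm]; exact hp) w j ∅ x hxw
  have h3 := Ln_pr hp0 hp12 hη0 hμ j ∅ x
  have h4 : (j : ℝ) * (1 + ε) ^ j * p ≤ 6 / √n := by
    have h5 : (1 + ε) ^ j ≤ 3 := by
      calc (1 + ε) ^ j ≤ (Real.exp ε) ^ j :=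
            pow_le_pow_left₀ (by positivity) (by linarith [Real.add_one_le_exp ε]) _
        _ = Real.exp (j * ε) := by rw [← Real.exp_nat_mul]
        _ ≤ Real.exp 1 := by
            apply Real.exp_le_exp.mpr
            calc (j : ℝ) * ε ≤ 1 / ζ * ζ := mul_le_mul hj1 hεζ hε0 (by positivity)
              _ = 1 := by field_simp
        _ ≤ 3 := by linarith [Real.exp_one_lt_d9]
    calc (j : ℝ) * (1 + ε) ^ j * p ≤ √n * 3 * (2 / n) := by
          apply mul_le_mul _ hp2 hp0 (by positivity)
          exact mul_le_mul hjs h5 (by positivity) hs0.le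
      _ = 6 / √n := by
          rw [eq_div_iff hs0.ne']
          have h9 : √n * 3 * (2 / n) * √n = 6 * (√n * √n) / n := by ring
          rw [h9, hsq]
          field_simp
  have h5 : 2 / ((j : ℝ) + 2) ≤ 2 * ε + 2 / √n := by
    have h6 : 2 / ((j : ℝ) + 2) ≤ 2 * ζ := by
      rw [div_le_iff₀ (by positivity)]
      have h7 : 1 ≤ ζ * (j + 1) := by
        rw [div_lt_iff₀ hζ0] at hj2
        linarith
      nlinarith
    have h8 : 2 * (1 / √n) = 2 / √n := by ring
    linarith
  have h6 : 2 * η ≤ 2 * ε + 4 / √n := by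
    have h7 : 8 / n ≤ 4 / √n := by
      rw [div_le_div_iff₀ hn0 hs0]
      nlinarith
    rw [hη]
    have : 2 * (ε + 4 / n) = 2 * ε + 8 / n := by ring
    linarith
  have h7 : 6 / √n + (2 / √n + 4 / √n) = 12 / √n := by ring
  linarith

theorem crit {p ε : ℝ} (hp0 : 0 ≤ p) (hε0 : 0 ≤ ε) (hε1 : ε ≤ 1) (hn : 4 ≤ Fintype.card V)
    (hp : p * Fintype.card V ≤ 1 + ε) (U : Finset V) :
    pr p (fun R : Finset (V × V) => ∃ u ∈ U, ∃ w ∈ U, u ≠ w ∧
      Relation.ReflTransGen (fun a b => (a, b) ∈ R) u w) ≤
      (U.card : ℝ) ^ 2 * (4 * ε + 12 / √(Fintype.card V)) := by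
  have hn4 : (4 : ℝ) ≤ Fintype.card V := by exact_mod_cast hn
  have hn0 : (0 : ℝ) < Fintype.card V := by linarith
  have hp1 : p ≤ 1 := by
    have : p * 4 ≤ p * Fintype.card V := mul_le_mul_of_nonneg_left hn4 hp0
    linarith
  refine (pr_exists hp0 hp1 U (fun u R => ∃ w ∈ U, u ≠ w ∧
      Relation.ReflTransGen (fun a b => (a, b) ∈ R) u w)).trans ?_
  have h1 : ∀ u ∈ U, pr p (fun R : Finset (V × V) => ∃ w ∈ U, u ≠ w ∧
      Relation.ReflTransGen (fun a b => (a, b) ∈ R) u w) ≤
      U.card * (4 * ε + 12 / √(Fintype.card V)) := by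
    intro u _
    refine (pr_exists hp0 hp1 U (fun w R => u ≠ w ∧
      Relation.ReflTransGen (fun a b => (a, b) ∈ R) u w)).trans ?_
    rw [← nsmul_eq_mul, ← sum_const]
    apply sum_le_sum
    intro w _
    by_cases huw : u = w
    · have : pr p (fun R : Finset (V × V) => u ≠ w ∧
          Relation.ReflTransGen (fun a b => (a, b) ∈ R) u w) ≤ 0 := by
        classical
        rw [pr_def]
        apply le_of_eq
        unfold ex
        apply sum_eq_zero
        intro R _
        simp [huw]
      exact this.trans (by positivity)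
    · refine le_trans (pr_mono hp0 hp1 ?_) (crit_pair hp0 hε0 hε1 hn hp u w huw)
      intro R h
      exact h.2
  refine (sum_le_sum h1).trans (le_of_eq ?_)
  rw [sum_const, nsmul_eq_mul]
  ring

end Pool.Agent.L5helper55.NT
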