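import Pool.Agent.L5helper12.SNMono

/-!
# Random noise on the arcs of a digraph
-/

namespace Pool.Agent.L5helper55.NT

open Pool.Agent.L5helper12.SN

open Classical in
/-- The probability that the random digraph `R` on the vertices `0, …, n - 1` which contains each of the
`n ^ 2` ordered pairs of vertices independently with probability `p` has the property `A`. -/
noncomputable def prob (n : ℕ) (p : ℝ) (A : Set (Fin n × Fin n) → Prop) : ℝ :=
  ∑ R : Finset (Fin n × Fin n), if A ↑R then p ^ R.card * (1 - p) ^ (n ^ 2 - R.card) else 0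

/-- For the digraph `D` and noise `p` the network `N` decides with error probability at most `ε` whether
`t` can be reached from `s` in the noisy digraph `D ∪ R`. -/
def RightOn {n : ℕ} (N : Network (Fin n)) (s t : Fin n) (p : ℝ) (D : Set (Fin n × Fin n))
    (ε : ℝ) : Prop :=
  prob n p (fun R => ¬ (N.Accepts (D ∪ R) ↔ Connected (D ∪ R) s t)) ≤ ε

/-- the image of a digraph -/
def image {m n : ℕ} (f : Fin m → Fin n) (H : Set (Fin m × Fin m)) : Set (Fin n × Fin n) :=
  {e | ∃ x ∈ H, e = (f x.1, f x.2)}

/-- every vertex has at most two out-neighbours and at most two in-neighbours -/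
def DegreeTwo {n : ℕ} (D : Set (Fin n × Fin n)) : Prop :=
  ∀ v, {w | (v, w) ∈ D}.ncard ≤ 2 ∧ {w | (w, v) ∈ D}.ncard ≤ 2

end Pool.Agent.L5helper55.NT
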