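import Pool.Agent.L5helper55.NT.Net

/-!
# Deterministic branching programs
-/

namespace Pool.Agent.L5helper55.NT

open Pool.Agent.L5helper12.SN Finset

variable {V : Type}

/-- a deterministic branching program with values in `α` -/
structure DP (V α : Type) where
  /-- the nodes -/
  Node : Type
  /-- finitely many nodes -/
  fin : Fintype Node
  /-- where to start -/
  start : Node ⊕ α
  /-- the variable which is queried -/
  var : Node → V × V
  /-- the successors -/
  next : Node → Bool → Node ⊕ α

/-- the computation on input `G` reaches the value `a` -/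
inductive DP.Run {α : Type} (P : DP V α) (G : Set (V × V)) : P.Node ⊕ α → α → Prop
  | done (a : α) : DP.Run P G (.inr a) a
  | tt (x : P.Node) (a : α) (h : P.var x ∈ G) (h' : DP.Run P G (P.next x true) a) :
      DP.Run P G (.inl x) a
  | ff (x : P.Node) (a : α) (h : P.var x ∉ G) (h' : DP.Run P G (P.next x false) a) :
      DP.Run P G (.inl x) a

/-- `F` is computed by a branching program with at most `S` nodes -/
def Det {α : Type} (S : ℕ) (F : Set (V × V) → α) : Prop :=
  ∃ P : DP V α, @Fintype.card P.Node P.fin ≤ S ∧ ∀ G, P.Run G P.start (F G)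

theorem Det.mono {α : Type} {S S' : ℕ} {F : Set (V × V) → α} (h : Det S F) (hS : S ≤ S') :
    Det S' F := by
  obtain ⟨P, h1, h2⟩ := h
  exact ⟨P, h1.trans hS, h2⟩

theorem Det.congr {α : Type} {S : ℕ} {F F' : Set (V × V) → α} (h : Det S F)
    (hF : ∀ G, F G = F' G) : Det S F' := by
  have : F = F' := funext hF
  rw [← this]
  exact h

theorem det_pure {α : Type} (a : α) : Det (V := V) 0 (fun _ => a) :=
  ⟨⟨Empty, inferInstance, .inr a, fun x => x.elim, fun x => x.elim⟩, by simp, fun _ => .done a⟩

open Classical in
theorem det_query (e : V × V) : Det 1 (fun G : Set (V × V) => decide (e ∈ G)) := by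
  refine ⟨⟨Unit, inferInstance, .inl (), fun _ => e, fun _ b => .inr b⟩, by simp, ?_⟩
  intro G
  by_cases h : e ∈ G
  · simp only [h, decide_true]
    exact .tt _ _ h (.done _)
  · simp only [h, decide_false]
    exact .ff _ _ h (.done _)

section bind

variable {α β : Type} [Fintype α] (P : DP V α) (Q : α → DP V β)

/-- embedding of the second programs -/
def lq (a : α) : (Q a).Node ⊕ β → (P.Node ⊕ Σ a, (Q a).Node) ⊕ β :=
  Sum.map (fun y => .inr ⟨a, y⟩) id

/-- embedding of the first program -/
def lp : P.Node ⊕ α → (P.Node ⊕ Σ a, (Q a).Node) ⊕ β :=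
  Sum.elim (fun x => .inl (.inl x)) (fun a => lq P Q a (Q a).start)

/-- composition -/
def bindP : DP V β where
  Node := P.Node ⊕ Σ a, (Q a).Node
  fin := by
    letI := P.fin
    letI : ∀ a, Fintype (Q a).Node := fun a => (Q a).fin
    exact inferInstance
  start := lp P Q P.start
  var := Sum.elim P.var (fun y => (Q y.1).var y.2)
  next := fun x b => match x with
    | .inl x => lp P Q (P.next x b)
    | .inr y => lq P Q y.1 ((Q y.1).next y.2 b)

theorem run_q (G : Set (V × V)) (a : α) (u : (Q a).Node ⊕ β) (b : β) (h : (Q a).Run G u b) :
    (bindP P Q).Run G (lq P Q a u) b := by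
  induction h with
  | done b => exact .done b
  | tt x b h h' ih => exact DP.Run.tt (P := bindP P Q) (.inr ⟨a, x⟩) b h ih
  | ff x b h h' ih => exact DP.Run.ff (P := bindP P Q) (.inr ⟨a, x⟩) b h ih

theorem run_p (G : Set (V × V)) (u : P.Node ⊕ α) (a : α) (h : P.Run G u a) (b : β)
    (hb : (Q a).Run G (Q a).start b) : (bindP P Q).Run G (lp P Q u) b := by
  induction h with
  | done a => exact run_q P Q G a _ _ hb
  | tt x a h h' ih => exact DP.Run.tt (P := bindP P Q) (.inl x) b h (ih hb)
  | ff x a h h' ih => exact DP.Run.ff (P := bindP P Q) (.inl x) b h (ih hb)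

end bind

theorem Det.bind {α β : Type} [Fintype α] {S : ℕ} {F : Set (V × V) → α} (h : Det S F)
    {T : α → ℕ} {Q : α → Set (V × V) → β} (hQ : ∀ a, Det (T a) (Q a)) :
    Det (S + ∑ a, T a) (fun G => Q (F G) G) := by
  obtain ⟨P, h1, h2⟩ := h
  choose R h3 h4 using hQ
  refine ⟨bindP P R, ?_, ?_⟩
  · let _ := P.fin
    let _ : ∀ a, Fintype (R a).Node := fun a => (R a).fin
    have : @Fintype.card (bindP P R).Node (bindP P R).fin =
        Fintype.card (P.Node ⊕ Σ a, (R a).Node) := rfl
    rw [this, Fintype.card_sum, Fintype.card_sigma]
    exact Nat.add_le_add h1 (sum_le_sum fun a _ => h3 a)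
  · intro G
    exact run_p P R G _ _ (h2 G) _ (h4 _ G)

theorem Det.map {α β : Type} [Fintype α] {S : ℕ} {F : Set (V × V) → α} (h : Det S F)
    (g : α → β) : Det S (fun G => g (F G)) := by
  have := h.bind (T := fun _ => 0) (Q := fun a _ => g a) (fun a => det_pure (g a))
  simpa using this

theorem det_foldr {ι Q : Type} [Fintype Q] (l : List ι) (step : ι → Q → Set (V × V) → Q) (T : ℕ)
    (h : ∀ i q, Det T (step i q)) (q0 : Q) :
    Det (l.length * (Fintype.card Q * T)) (fun G => l.foldr (fun i q => step i q G) q0) := by
  induction l with
  | nil =>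
    simp only [List.length_nil, zero_mul, List.foldr_nil]
    exact det_pure q0
  | cons i l ih =>
    have := ih.bind (T := fun _ => T) (Q := fun q => step i q) (fun q => h i q)
    simp only [sum_const, card_univ, smul_eq_mul] at this
    refine (this.mono (le_of_eq ?_)).congr ?_
    · rw [List.length_cons]
      ring
    · intro G
      rfl

theorem det_iterate {Q : Type} [Fintype Q] (step : Q → Set (V × V) → Q) (T : ℕ)
    (h : ∀ q, Det T (step q)) (q0 : Q) (k : ℕ) :
    Det (k * (Fintype.card Q * T)) (fun G => (fun q => step q G)^[k] q0) := by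
  induction k with
  | zero =>
    simp only [zero_mul, Function.iterate_zero, id_eq]
    exact det_pure q0
  | succ k ih =>
    have := ih.bind (T := fun _ => T) (Q := fun q => step q) h
    simp only [sum_const, card_univ, smul_eq_mul] at this
    refine (this.mono (le_of_eq (by ring))).congr ?_
    intro G
    rw [Function.iterate_succ_apply']

open Classical in
/-- a predicate decided by a branching program -/
def DetP (S : ℕ) (A : Set (V × V) → Prop) : Prop := Det S (fun G => decide (A G))

theorem DetP.mono {S S' : ℕ} {A : Set (V × V) → Prop} (h : DetP S A) (hS : S ≤ S') : DetP S' A :=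
  Det.mono h hS

theorem DetP.congr {S : ℕ} {A A' : Set (V × V) → Prop} (h : DetP S A) (hA : ∀ G, A G ↔ A' G) :
    DetP S A' := by
  have : A = A' := funext fun G => propext (hA G)
  rw [← this]
  exact h

theorem DetP.or {S S' : ℕ} {A A' : Set (V × V) → Prop} (h : DetP S A) (h' : DetP S' A') :
    DetP (S + S') (fun G => A G ∨ A' G) := by
  classical
  unfold DetP at *
  have := h.bind (T := fun b => bif b then 0 else S')
    (Q := fun b G => bif b then true else decide (A' G)) (by
      rintro (_ | _)
      · exact h'
      · exact det_pure true)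
  refine (this.mono (by simp)).congr ?_
  intro G
  by_cases h1 : A G <;> simp [h1]

theorem DetP.and {S S' : ℕ} {A A' : Set (V × V) → Prop} (h : DetP S A) (h' : DetP S' A') :
    DetP (S + S') (fun G => A G ∧ A' G) := by
  classical
  unfold DetP at *
  have := h.bind (T := fun b => bif b then S' else 0)
    (Q := fun b G => bif b then decide (A' G) else false) (by
      rintro (_ | _)
      · exact det_pure false
      · exact h')
  refine (this.mono (by simp)).congr ?_
  intro G
  by_cases h1 : A G <;> simp [h1]

theorem DetP.exists {ι : Type} [Fintype ι] {S : ℕ} {A : ι → Set (V × V) → Prop}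
    (h : ∀ i, DetP S (A i)) : DetP (Fintype.card ι * (2 * S)) (fun G => ∃ i, A i G) := by
  classical
  unfold DetP at *
  have := det_foldr (V := V) (univ : Finset ι).toList
    (fun i (q : Bool) G => bif q then true else decide (A i G)) S (by
      rintro i (_ | _)
      · exact h i
      · exact (det_pure true).mono (Nat.zero_le _)) false
  refine (this.mono (by simp)).congr ?_
  intro G
  have key : ∀ l : List ι, l.foldr (fun i (q : Bool) => bif q then true else decide (A i G)) false =
      decide (∃ i ∈ l, A i G) := by
    intro l
    induction l with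
    | nil => simp
    | cons i l ih =>
      rw [List.foldr_cons, ih]
      by_cases h1 : ∃ i ∈ l, A i G
      · have h2 : ∃ j ∈ i :: l, A j G := by
          obtain ⟨j, hj, hA⟩ := h1
          exact ⟨j, List.mem_cons_of_mem _ hj, hA⟩
        simp only [h1, h2, decide_true, cond_true]
      · simp only [h1, decide_false, cond_false]
        congr 1
        apply propext
        constructor
        · intro hA
          exact ⟨i, List.mem_cons_self, hA⟩
        · rintro ⟨j, hj, hA⟩
          rcases List.mem_cons.mp hj with rfl | hj
          · exact hA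
          · exact absurd ⟨j, hj, hA⟩ h1
  rw [key]
  simp

/-- counting up to `K` -/
theorem DetP.count {ι : Type} [Fintype ι] {S : ℕ} {A : ι → Set (V × V) → Prop}
    (h : ∀ i, DetP S (A i)) (K : ℕ) :
    DetP (Fintype.card ι * ((K + 1) * S)) (fun G => K ≤ {i | A i G}.ncard) := by
  classical
  unfold DetP at *
  have := det_foldr (V := V) (univ : Finset ι).toList
    (fun i (q : Fin (K + 1)) G => if A i G then (⟨min (q + 1) K, by omega⟩ : Fin (K + 1)) else q) S
    (by
      intro i q
      refine ((h i).map (fun b : Bool => bif b then (⟨min (q + 1) K, by omega⟩ : Fin (K + 1))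
        else q)).congr ?_
      intro G
      by_cases h1 : A i G <;> simp [h1]) ⟨0, by omega⟩
  rw [Fintype.card_fin, length_toList, card_univ] at this
  refine (this.map (fun q : Fin (K + 1) => decide (q.1 = K))).congr ?_
  intro G
  have key : ∀ l : List ι, l.Nodup → (l.foldr (fun i (q : Fin (K + 1)) =>
      if A i G then (⟨min (q + 1) K, by omega⟩ : Fin (K + 1)) else q) ⟨0, by omega⟩).1 =
      min (l.toFinset.filter (fun i => A i G)).card K := by
    intro l
    induction l with
    | nil => simp
    | cons i l ih =>
      intro hl
      rw [List.nodup_cons] at hl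
      have h2 := ih hl.2
      rw [List.foldr_cons, List.toFinset_cons, filter_insert]
      split_ifs with h1
      · simp only
        rw [h2, card_insert_of_notMem]
        · omega
        · simp [hl.1]
      · exact h2
  have h3 := key (univ : Finset ι).toList (nodup_toList _)
  rw [toList_toFinset] at h3
  rw [h3]
  have h4 : {i | A i G}.ncard = ((univ : Finset ι).filter (fun i => A i G)).card := by
    rw [Set.ncard_eq_toFinset_card' {i | A i G}]
    congr 1
    ext i
    simp
  beta_reduce
  rw [h4]
  congr 1
  apply propext
  omega

/-- a branching program is a switching network -/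
theorem DetP.comp {S : ℕ} {A : Set (V × V) → Prop} (h : DetP S A) :
    Comp Set.univ (S + 2) A := by
  classical
  obtain ⟨P, h1, h2⟩ := h
  let _ := P.fin
  refine ⟨⟨P.Node ⊕ Bool, inferInstance, P.start, .inr true, fun x y l => ∃ z, x = .inl z ∧
    ((l = .pos (P.var z) ∧ y = P.next z true) ∨ (l = .neg (P.var z) ∧ y = P.next z false))⟩,
    ?_, ?_, ?_⟩
  · have : Fintype.card (P.Node ⊕ Bool) ≤ S + 2 := by
      rw [Fintype.card_sum, Fintype.card_bool]
      omega
    exact this
  · intro x y e _
    exact Set.mem_univ _
  · intro G
    have hrun := h2 G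
    have hdet : ∀ (u : P.Node ⊕ Bool) (b b' : Bool), P.Run G u b → P.Run G u b' → b = b' := by
      intro u b b' h3
      induction h3 with
      | done b => intro h4; cases h4; rfl
      | tt x b h h' ih =>
        intro h4
        cases h4 with
        | tt _ _ h5 h6 => exact ih h6
        | ff _ _ h5 h6 => exact absurd h h5
      | ff x b h h' ih =>
        intro h4
        cases h4 with
        | tt _ _ h5 h6 => exact absurd h5 h
        | ff _ _ h5 h6 => exact ih h6
    constructor
    · intro hacc
      have := eqv_inv (r := Network.Joined _ G Set.univ)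
        (fun x : P.Node ⊕ Bool => P.Run G x true) (by
          intro x y hxy
          rw [joined_iff] at hxy
          obtain ⟨l, ⟨z, rfl, ⟨rfl, rfl⟩ | ⟨rfl, rfl⟩⟩, hc⟩ := hxy
          · constructor
            · intro h3
              cases h3 with
              | tt _ _ h5 h6 => exact h6
              | ff _ _ h5 h6 => exact absurd hc h5
            · intro h3
              exact .tt _ _ hc h3
          · constructor
            · intro h3
              cases h3 with
              | tt _ _ h5 h6 => exact absurd h5 hc
              | ff _ _ h5 h6 => exact h6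
            · intro h3
              exact .ff _ _ hc h3) hacc
      have h3 := this.mpr (.done true)
      have h4 := hdet _ _ _ hrun h3
      simpa using h4
    · intro hA
      have h3 : P.Run G P.start true := by
        have := hrun
        simp only [hA, decide_true] at this
        exact this
      have key : ∀ (u : P.Node ⊕ Bool) (b : Bool), P.Run G u b → b = true →
          Relation.EqvGen (Network.Joined (⟨P.Node ⊕ Bool, inferInstance, P.start, .inr true,
            fun x y l => ∃ z, x = .inl z ∧ ((l = .pos (P.var z) ∧ y = P.next z true) ∨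
            (l = .neg (P.var z) ∧ y = P.next z false))⟩ : Network V) G Set.univ) u (.inr true) := by
        intro u b h4
        induction h4 with
        | done b => rintro rfl; exact Relation.EqvGen.refl _
        | tt x b h h' ih =>
          intro hb
          refine Relation.EqvGen.trans _ _ _ (Relation.EqvGen.rel _ _ ?_) (ih hb)
          rw [joined_iff]
          exact ⟨.pos (P.var x), ⟨x, rfl, Or.inl ⟨rfl, rfl⟩⟩, h⟩
        | ff x b h h' ih =>
          intro hb
          refine Relation.EqvGen.trans _ _ _ (Relation.EqvGen.rel _ _ ?_) (ih hb)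
          rw [joined_iff]
          exact ⟨.neg (P.var x), ⟨x, rfl, Or.inr ⟨rfl, rfl⟩⟩, h⟩
      exact key _ _ h3 rfl

end Pool.Agent.L5helper55.NT
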