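import Pool.Agent.L5helper12.SNModel

/-!
# Switching networks: composition and restriction
-/

namespace Pool.Agent.L5helper55.NT

open Pool.Agent.L5helper12.SN Finset

variable {V : Type}

/-- `F` is decided by a switching network with at most `S` nodes whose negative literals are on variables
in `X` -/
def Comp (X : Set (V × V)) (S : ℕ) (F : Set (V × V) → Prop) : Prop :=
  ∃ N : Network V, N.size ≤ S ∧ (∀ x y e, N.contact x y (.neg e) → e ∈ X) ∧
    ∀ G, N.Accepts G ↔ F G

theorem joined_iff (N : Network V) (G : Set (V × V)) (x y : N.Node) :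
    N.Joined G Set.univ x y ↔ ∃ l : Label V, N.contact x y l ∧ l.Closed G := by
  unfold Network.Joined
  simp

theorem eqv_inv {α : Type} {r : α → α → Prop} (X : α → Prop) (h : ∀ x y, r x y → (X x ↔ X y))
    {a b : α} (hab : Relation.EqvGen r a b) : X a ↔ X b := by
  induction hab with
  | rel x y h' => exact h x y h'
  | refl x => exact Iff.rfl
  | symm x y _ ih => exact ih.symm
  | trans x y z _ _ ih1 ih2 => exact ih1.trans ih2

theorem eqv_map {α β : Type} {r : α → α → Prop} {q : β → β → Prop} (f : α → β)
    (h : ∀ x y, r x y → q (f x) (f y)) {a b : α} (hab : Relation.EqvGen r a b) :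
    Relation.EqvGen q (f a) (f b) := by
  induction hab with
  | rel x y h' => exact Relation.EqvGen.rel _ _ (h x y h')
  | refl x => exact Relation.EqvGen.refl _
  | symm x y _ ih => exact ih.symm
  | trans x y z _ _ ih1 ih2 => exact ih1.trans _ _ _ ih2

theorem Comp.mono {X : Set (V × V)} {S S' : ℕ} {F : Set (V × V) → Prop} (h : Comp X S F)
    (hS : S ≤ S') : Comp X S' F := by
  obtain ⟨N, h1, h2, h3⟩ := h
  exact ⟨N, h1.trans hS, h2, h3⟩

theorem Comp.congr {X : Set (V × V)} {S : ℕ} {F F' : Set (V × V) → Prop} (h : Comp X S F)
    (hF : ∀ G, F G ↔ F' G) : Comp X S F' := by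
  obtain ⟨N, h1, h2, h3⟩ := h
  exact ⟨N, h1, h2, fun G => (h3 G).trans (hF G)⟩

/-- the network with one contact -/
def litNet (l : Label V) : Network V where
  Node := Bool
  fin := inferInstance
  source := false
  target := true
  contact := fun x y l' => x = false ∧ y = true ∧ l' = l

theorem comp_pos (X : Set (V × V)) (e : V × V) : Comp X 2 (fun G => e ∈ G) := by
  refine ⟨litNet (.pos e), ?_, ?_, ?_⟩
  · have : (litNet (.pos e)).size = Fintype.card Bool := rfl
    rw [this, Fintype.card_bool]
  · rintro x y e' ⟨_, _, h⟩
    cases h
  · intro G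
    constructor
    · intro h
      by_contra hG
      have := eqv_inv (r := (litNet (.pos e)).Joined G Set.univ) (fun b : Bool => b = false) (by
        intro x y hxy
        rw [joined_iff] at hxy
        obtain ⟨l, ⟨_, _, hl⟩, hc⟩ := hxy
        subst hl
        exact absurd hc hG) h
      simp [litNet] at this
    · intro h
      refine Relation.EqvGen.rel _ _ ?_
      rw [joined_iff]
      exact ⟨.pos e, ⟨rfl, rfl, rfl⟩, h⟩

theorem comp_true (X : Set (V × V)) : Comp X 1 (fun _ => True) := by
  refine ⟨⟨Unit, inferInstance, (), (), fun _ _ _ => False⟩, ?_, ?_, ?_⟩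
  · simp [Network.size]
  · intro x y e h
    exact h.elim
  · intro G
    simp only [iff_true]
    exact Relation.EqvGen.refl _

/-- the contacts of the disjunction -/
inductive OrC {ι : Type} (N : ι → Network V) :
    ((Σ i, (N i).Node) ⊕ Bool) → ((Σ i, (N i).Node) ⊕ Bool) → Label V → Prop
  | inner (i : ι) (x y : (N i).Node) (l : Label V) (h : (N i).contact x y l) :
      OrC N (.inl ⟨i, x⟩) (.inl ⟨i, y⟩) l
  | src (i : ι) : OrC N (.inr false) (.inl ⟨i, (N i).source⟩) .free
  | tgt (i : ι) : OrC N (.inl ⟨i, (N i).target⟩) (.inr true) .free

theorem comp_iOr {X : Set (V × V)} {ι : Type} [Fintype ι] {S : ι → ℕ}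
    {F : ι → Set (V × V) → Prop} (h : ∀ i, Comp X (S i) (F i)) :
    Comp X (∑ i, S i + 2) (fun G => ∃ i, F i G) := by
  choose N h1 h2 h3 using h
  let : ∀ i, Fintype (N i).Node := fun i => (N i).fin
  refine ⟨⟨(Σ i, (N i).Node) ⊕ Bool, inferInstance, .inr false, .inr true, OrC N⟩, ?_, ?_, ?_⟩
  · have : Fintype.card ((Σ i, (N i).Node) ⊕ Bool) ≤ ∑ i, S i + 2 := by
      rw [Fintype.card_sum, Fintype.card_sigma, Fintype.card_bool]
      have := sum_le_sum (s := (univ : Finset ι)) (fun i _ => h1 i)
      unfold Network.size at this
      simp only [Nat.add_le_add_iff_right]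
      exact this
    exact this
  · intro x y e hc
    cases hc with
    | inner i x y l h => exact h2 i _ _ _ h
  · intro G
    constructor
    · intro hacc
      by_contra hcon
      push Not at hcon
      have := eqv_inv (r := Network.Joined _ G Set.univ)
        (fun x : (Σ i, (N i).Node) ⊕ Bool => match x with
          | .inl y => Relation.EqvGen ((N y.1).Joined G Set.univ) (N y.1).source y.2
          | .inr b => b = false) (by
        intro x y hxy
        rw [joined_iff] at hxy
        obtain ⟨l, hl, hc⟩ := hxy
        cases hl with
        | inner i x y l h =>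
          simp only
          have hj : Relation.EqvGen ((N i).Joined G Set.univ) x y := by
            refine Relation.EqvGen.rel _ _ ?_
            rw [joined_iff]
            exact ⟨l, h, hc⟩
          exact ⟨fun h' => h'.trans _ _ _ hj, fun h' => h'.trans _ _ _ hj.symm⟩
        | src i =>
          simp only [true_iff]
          exact Relation.EqvGen.refl _
        | tgt i =>
          simp only [Bool.true_eq_false, iff_false]
          intro h'
          exact hcon i ((h3 i G).mp h')) hacc
      simp at this
    · rintro ⟨i, hi⟩
      have hacc := (h3 i G).mpr hi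
      have h4 := eqv_map (q := Network.Joined (⟨(Σ i, (N i).Node) ⊕ Bool, inferInstance, .inr false,
        .inr true, OrC N⟩ : Network V) G Set.univ)
        (fun x : (N i).Node => (.inl ⟨i, x⟩ : (Σ i, (N i).Node) ⊕ Bool)) (by
          intro x y hxy
          rw [joined_iff] at hxy ⊢
          obtain ⟨l, hl, hc⟩ := hxy
          exact ⟨l, .inner i x y l hl, hc⟩) hacc
      refine Relation.EqvGen.trans _ _ _ ?_ (Relation.EqvGen.trans _ _ _ h4 ?_)
      · refine Relation.EqvGen.rel _ _ ?_
        rw [joined_iff]
        exact ⟨.free, .src i, trivial⟩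
      · refine Relation.EqvGen.rel _ _ ?_
        rw [joined_iff]
        exact ⟨.free, .tgt i, trivial⟩

theorem Comp.or {X : Set (V × V)} {S S' : ℕ} {F F' : Set (V × V) → Prop} (h : Comp X S F)
    (h' : Comp X S' F') : Comp X (S + S' + 2) (fun G => F G ∨ F' G) := by
  have h1 := comp_iOr (X := X) (ι := Bool) (S := fun b => bif b then S else S')
    (F := fun b => bif b then F else F') (by rintro (_ | _) <;> simpa)
  refine (h1.mono (by simp)).congr ?_
  intro G
  simp [or_comm]

/-- the contacts of the conjunction -/
inductive AndC (N N' : Network V) : (N.Node ⊕ N'.Node) → (N.Node ⊕ N'.Node) → Label V → Prop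
  | left (x y : N.Node) (l : Label V) (h : N.contact x y l) : AndC N N' (.inl x) (.inl y) l
  | right (x y : N'.Node) (l : Label V) (h : N'.contact x y l) : AndC N N' (.inr x) (.inr y) l
  | mid : AndC N N' (.inl N.target) (.inr N'.source) .free

theorem Comp.and {X : Set (V × V)} {S S' : ℕ} {F F' : Set (V × V) → Prop} (h : Comp X S F)
    (h' : Comp X S' F') : Comp X (S + S') (fun G => F G ∧ F' G) := by
  obtain ⟨N, h1, h2, h3⟩ := h
  obtain ⟨N', h1', h2', h3'⟩ := h'
  let := N.fin
  let := N'.fin
  refine ⟨⟨N.Node ⊕ N'.Node, inferInstance, .inl N.source, .inr N'.target, AndC N N'⟩, ?_, ?_, ?_⟩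
  · have : Fintype.card (N.Node ⊕ N'.Node) ≤ S + S' := by
      rw [Fintype.card_sum]
      exact Nat.add_le_add h1 h1'
    exact this
  · intro x y e hc
    cases hc with
    | left x y l h => exact h2 _ _ _ h
    | right x y l h => exact h2' _ _ _ h
  · intro G
    constructor
    · intro hacc
      constructor
      · by_contra hcon
        have := eqv_inv (r := Network.Joined _ G Set.univ)
          (fun x : N.Node ⊕ N'.Node => match x with
            | .inl y => Relation.EqvGen (N.Joined G Set.univ) N.source y
            | .inr _ => False) (by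
          intro x y hxy
          rw [joined_iff] at hxy
          obtain ⟨l, hl, hc⟩ := hxy
          cases hl with
          | left x y l h =>
            simp only
            have hj : Relation.EqvGen (N.Joined G Set.univ) x y := by
              refine Relation.EqvGen.rel _ _ ?_
              rw [joined_iff]
              exact ⟨l, h, hc⟩
            exact ⟨fun h' => h'.trans _ _ _ hj, fun h' => h'.trans _ _ _ hj.symm⟩
          | right x y l h => exact Iff.rfl
          | mid =>
            simp only [iff_false]
            intro h'
            exact hcon ((h3 G).mp h')) hacc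
        simp only [iff_false] at this
        exact this (Relation.EqvGen.refl _)
      · by_contra hcon
        have := eqv_inv (r := Network.Joined _ G Set.univ)
          (fun x : N.Node ⊕ N'.Node => match x with
            | .inl _ => False
            | .inr y => Relation.EqvGen (N'.Joined G Set.univ) y N'.target) (by
          intro x y hxy
          rw [joined_iff] at hxy
          obtain ⟨l, hl, hc⟩ := hxy
          cases hl with
          | left x y l h => exact Iff.rfl
          | right x y l h =>
            simp only
            have hj : Relation.EqvGen (N'.Joined G Set.univ) x y := by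
              refine Relation.EqvGen.rel _ _ ?_
              rw [joined_iff]
              exact ⟨l, h, hc⟩
            exact ⟨fun h' => hj.symm.trans _ _ _ h', fun h' => hj.trans _ _ _ h'⟩
          | mid =>
            simp only [false_iff]
            intro h'
            exact hcon ((h3' G).mp h')) hacc
        simp only [false_iff] at this
        exact this (Relation.EqvGen.refl _)
    · rintro ⟨hi, hi'⟩
      have hacc := (h3 G).mpr hi
      have hacc' := (h3' G).mpr hi'
      have h4 := eqv_map (q := Network.Joined (⟨N.Node ⊕ N'.Node, inferInstance, .inl N.source,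
        .inr N'.target, AndC N N'⟩ : Network V) G Set.univ)
        (fun x : N.Node => (.inl x : N.Node ⊕ N'.Node)) (by
          intro x y hxy
          rw [joined_iff] at hxy ⊢
          obtain ⟨l, hl, hc⟩ := hxy
          exact ⟨l, .left x y l hl, hc⟩) hacc
      have h5 := eqv_map (q := Network.Joined (⟨N.Node ⊕ N'.Node, inferInstance, .inl N.source,
        .inr N'.target, AndC N N'⟩ : Network V) G Set.univ)
        (fun x : N'.Node => (.inr x : N.Node ⊕ N'.Node)) (by
          intro x y hxy
          rw [joined_iff] at hxy ⊢
          obtain ⟨l, hl, hc⟩ := hxy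
          exact ⟨l, .right x y l hl, hc⟩) hacc'
      refine Relation.EqvGen.trans _ _ _ h4 (Relation.EqvGen.trans _ _ _ ?_ h5)
      refine Relation.EqvGen.rel _ _ ?_
      rw [joined_iff]
      exact ⟨.free, .mid, trivial⟩

/-- the majority of three -/
def Maj (a b c : Prop) : Prop := (a ∧ b) ∨ (c ∧ (a ∨ b))

theorem Comp.maj {X : Set (V × V)} {S : ℕ} {F F' F'' : Set (V × V) → Prop} (h : Comp X S F)
    (h' : Comp X S F') (h'' : Comp X S F'') :
    Comp X (5 * S + 4) (fun G => Maj (F G) (F' G) (F'' G)) := by
  have := (h.and h').or (h''.and (h.or h'))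
  exact this.mono (by omega)

/-- the contacts of the restriction -/
inductive ResC {W : Type} (f : V → W) (R : Set (W × W)) (N : Network W) :
    N.Node → N.Node → Label V → Prop
  | free (x y : N.Node) (h : N.contact x y .free) : ResC f R N x y .free
  | one (x y : N.Node) (e : W × W) (h : N.contact x y (.pos e)) (he : e ∈ R) : ResC f R N x y .free
  | zero (x y : N.Node) (e : W × W) (h : N.contact x y (.neg e)) (he : e ∉ R)
      (he' : ∀ u v : V, e ≠ (f u, f v)) : ResC f R N x y .free
  | pos (x y : N.Node) (u v : V) (h : N.contact x y (.pos (f u, f v))) : ResC f R N x y (.pos (u, v))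
  | neg (x y : N.Node) (u v : V) (h : N.contact x y (.neg (f u, f v))) (he : (f u, f v) ∉ R) :
      ResC f R N x y (.neg (u, v))

/-- image of a digraph -/
def img {W : Type} (f : V → W) (H : Set (V × V)) : Set (W × W) := {e | ∃ x ∈ H, e = (f x.1, f x.2)}

theorem comp_restrict {W : Type} {f : V → W} (hf : Function.Injective f) (R : Set (W × W))
    {X : Set (W × W)} {S : ℕ} {F : Set (W × W) → Prop} (h : Comp X S F) :
    Comp {e : V × V | (f e.1, f e.2) ∈ X} S (fun H => F (img f H ∪ R)) := by
  obtain ⟨N, h1, h2, h3⟩ := h
  let := N.fin
  refine ⟨⟨N.Node, N.fin, N.source, N.target, ResC f R N⟩, h1, ?_, ?_⟩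
  · intro x y e hc
    cases hc with
    | neg u v h he => exact h2 _ _ _ h
  · intro H
    show _ ↔ F (img f H ∪ R)
    rw [← h3]
    have key : ∀ x y : N.Node, Network.Joined (⟨N.Node, N.fin, N.source, N.target, ResC f R N⟩ :
        Network V) H Set.univ x y ↔ N.Joined (img f H ∪ R) Set.univ x y := by
      intro x y
      rw [joined_iff, joined_iff]
      constructor
      · rintro ⟨l, hl, hc⟩
        cases hl with
        | free h => exact ⟨.free, h, trivial⟩
        | one e h he => exact ⟨.pos e, h, Or.inr he⟩
        | zero e h he he' =>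
          refine ⟨.neg e, h, ?_⟩
          rintro (⟨z, _, hz⟩ | hr)
          · exact he' _ _ hz
          · exact he hr
        | pos u v h => exact ⟨_, h, Or.inl ⟨(u, v), hc, rfl⟩⟩
        | neg u v h he =>
          refine ⟨_, h, ?_⟩
          rintro (⟨⟨u', v'⟩, hz1, hz⟩ | hr)
          · rw [Prod.mk.injEq] at hz
            have hu := hf hz.1
            have hv := hf hz.2
            simp only at hu hv
            subst hu hv
            exact hc hz1
          · exact he hr
      · rintro ⟨l, hl, hc⟩
        cases l with
        | free => exact ⟨.free, .free x y hl, trivial⟩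
        | pos e =>
          rcases hc with ⟨⟨u, v⟩, hz, he⟩ | hr
          · subst he
            exact ⟨.pos (u, v), .pos x y u v hl, hz⟩
          · exact ⟨.free, .one x y e hl hr, trivial⟩
        | neg e =>
          have hc1 : e ∉ img f H := fun h => hc (Or.inl h)
          have hc2 : e ∉ R := fun h => hc (Or.inr h)
          by_cases he : ∃ u v : V, e = (f u, f v)
          · obtain ⟨u, v, rfl⟩ := he
            refine ⟨.neg (u, v), .neg x y u v hl hc2, ?_⟩
            intro h
            exact hc1 ⟨(u, v), h, rfl⟩
          · push Not at he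
            exact ⟨.free, .zero x y e hl hc2 he, trivial⟩
    constructor
    · intro h
      exact eqv_map id (fun x y hxy => (key x y).mp hxy) h
    · intro h
      exact eqv_map id (fun x y hxy => (key x y).mpr hxy) h

end Pool.Agent.L5helper55.NT
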