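import Pool.Agent.L5helper55.NT.Above
import Pool.Agent.L5helper55.NT.Net

/-!
# Above the threshold: monotone formulas of constant width
-/

namespace Pool.Agent.L5helper55.NT

open Pool.Agent.L5helper12.SN Finset

set_option linter.unusedSectionVars false

variable {V : Type} [Fintype V] [DecidableEq V]

theorem Rch.mono {σ : V × V ≃ V × V} {G G' : Set (V × V)} {s t : V} (h : Rch σ G s t)
    (hG : G ⊆ G') : Rch σ G' s t :=
  Relation.ReflTransGen.mono (fun _ _ hab => hG hab) _ _ h

theorem rset_mono (σ : V × V ≃ V × V) {G G' : Set (V × V)} (hG : G ⊆ G') (s : V) :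
    rset σ G s ⊆ rset σ G' s := by
  intro t ht
  rw [mem_rset] at ht ⊢
  exact ht.mono hG

theorem rch_bw {G : Set (V × V)} {s t : V} : Rch bw G t s ↔ Rch fw G s t := by
  unfold Rch
  constructor
  · intro h
    have := Relation.reflTransGen_swap.mpr h
    exact this
  · intro h
    have := Relation.reflTransGen_swap.mpr h
    exact this

/-- few arcs suffice to reach many vertices, or everything reachable -/
theorem few_arcs (σ : V × V ≃ V × V) (G : Set (V × V)) (s : V) (j : ℕ) :
    (∃ T : Finset (V × V), ↑T ⊆ G ∧ T.card ≤ j ∧ j + 1 ≤ (rset σ ↑T s).card) ∨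
    (∃ T : Finset (V × V), ↑T ⊆ G ∧ T.card ≤ j ∧ rset σ ↑T s = rset σ G s) := by
  induction j with
  | zero =>
    left
    refine ⟨∅, by simp, by simp, ?_⟩
    rw [Nat.zero_add, Nat.one_le_iff_ne_zero, ← Nat.pos_iff_ne_zero, card_pos]
    exact ⟨s, (mem_rset σ _ s s).mpr Relation.ReflTransGen.refl⟩
  | succ j ih =>
    rcases ih with ⟨T, h1, h2, h3⟩ | ⟨T, h1, h2, h3⟩
    swap
    · exact Or.inr ⟨T, h1, by omega, h3⟩
    by_cases hE : rset σ ↑T s = rset σ G s
    · exact Or.inr ⟨T, h1, by omega, hE⟩
    left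
    have hex : ∃ x y, x ∈ rset σ ↑T s ∧ y ∉ rset σ ↑T s ∧ σ (x, y) ∈ G := by
      by_contra hcon
      push Not at hcon
      apply hE
      apply Subset.antisymm (rset_mono σ h1 s)
      intro t ht
      rw [mem_rset] at ht
      apply ht.mem (rset σ ↑T s)
      · exact (mem_rset σ _ s s).mpr Relation.ReflTransGen.refl
      · intro v hv w hw
        by_contra hc
        exact hcon v w hv hc hw
    obtain ⟨x, y, hx, hy, hxy⟩ := hex
    refine ⟨insert (σ (x, y)) T, ?_, ?_, ?_⟩
    · rw [coe_insert]
      exact Set.insert_subset hxy h1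
    · exact (card_insert_le _ _).trans (by omega)
    · have hsub : insert y (rset σ ↑T s) ⊆ rset σ ↑(insert (σ (x, y)) T) s := by
        intro z hz
        rw [mem_insert] at hz
        rcases hz with rfl | hz
        · rw [mem_rset] at hx ⊢
          refine Relation.ReflTransGen.tail (hx.mono ?_) ?_
          · exact_mod_cast subset_insert _ _
          · simp
        · exact rset_mono σ (by exact_mod_cast subset_insert _ _) s hz
      have := card_le_card hsub
      rw [card_insert_of_notMem hy] at this
      omega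

open Classical in
/-- the terms of the formula -/
noncomputable def terms (K : ℕ) (s t : V) : Finset (Finset (V × V)) :=
  univ.filter (fun T => T.card ≤ 2 * K ∧
    (Rch fw (↑T : Set (V × V)) s t ∨
      (K ≤ (rset fw (↑T : Set (V × V)) s).card ∧ K ≤ (rset bw (↑T : Set (V × V)) t).card)))

theorem terms_right {K : ℕ} (hK : 1 ≤ K) (G : Set (V × V)) (s t : V)
    (h : ¬ (K ≤ (rset fw G s).card ∧ K ≤ (rset bw G t).card ∧ ¬ Rch fw G s t)) :
    (∃ T ∈ terms K s t, (↑T : Set (V × V)) ⊆ G) ↔ Rch fw G s t := by
  constructor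
  · rintro ⟨T, hT, hTG⟩
    simp only [terms, mem_filter, mem_univ, true_and] at hT
    rcases hT.2 with h1 | ⟨h1, h2⟩
    · exact h1.mono hTG
    · by_contra hcon
      exact h ⟨h1.trans (card_le_card (rset_mono fw hTG s)),
        h2.trans (card_le_card (rset_mono bw hTG t)), hcon⟩
  · intro hst
    obtain ⟨j, rfl⟩ : ∃ j, K = j + 1 := ⟨K - 1, by omega⟩
    rcases few_arcs fw G s j with ⟨T, h1, h2, h3⟩ | ⟨T, h1, h2, h3⟩
    swap
    · refine ⟨T, ?_, h1⟩
      simp only [terms, mem_filter, mem_univ, true_and]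
      refine ⟨by omega, Or.inl ?_⟩
      rw [← mem_rset, h3, mem_rset]
      exact hst
    rcases few_arcs bw G t j with ⟨T', h1', h2', h3'⟩ | ⟨T', h1', h2', h3'⟩
    swap
    · refine ⟨T', ?_, h1'⟩
      simp only [terms, mem_filter, mem_univ, true_and]
      refine ⟨by omega, Or.inl ?_⟩
      rw [← rch_bw, ← mem_rset, h3', mem_rset, rch_bw]
      exact hst
    refine ⟨T ∪ T', ?_, ?_⟩
    · simp only [terms, mem_filter, mem_univ, true_and]
      refine ⟨(card_union_le _ _).trans (by omega), Or.inr ⟨?_, ?_⟩⟩
      · exact h3.trans (card_le_card (rset_mono fw (by exact_mod_cast subset_union_left) s))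
      · exact h3'.trans (card_le_card (rset_mono bw (by exact_mod_cast subset_union_right) t))
    · rw [coe_union]
      exact Set.union_subset h1 h1'

theorem terms_card (K : ℕ) (s t : V) :
    (terms K s t).card ≤ (2 * K + 1) * (Fintype.card V ^ 2 + 1) ^ (2 * K) := by
  classical
  have h1 : terms K s t ⊆ (range (2 * K + 1)).biUnion
      (fun i => powersetCard i (univ : Finset (V × V))) := by
    intro T hT
    simp only [terms, mem_filter, mem_univ, true_and] at hT
    rw [mem_biUnion]
    refine ⟨T.card, by rw [mem_range]; omega, ?_⟩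
    rw [mem_powersetCard]
    exact ⟨subset_univ _, rfl⟩
  refine (card_le_card h1).trans (card_biUnion_le.trans ?_)
  have h2 : ∀ i ∈ range (2 * K + 1), (powersetCard i (univ : Finset (V × V))).card ≤
      (Fintype.card V ^ 2 + 1) ^ (2 * K) := by
    intro i hi
    rw [card_powersetCard, card_univ, Fintype.card_prod, ← sq]
    rw [mem_range] at hi
    calc (Fintype.card V ^ 2).choose i ≤ (Fintype.card V ^ 2) ^ i := Nat.choose_le_pow _ _
      _ ≤ (Fintype.card V ^ 2 + 1) ^ i := Nat.pow_le_pow_left (by omega) _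
      _ ≤ _ := Nat.pow_le_pow_right (by omega) (by omega)
  refine (sum_le_sum h2).trans (le_of_eq ?_)
  rw [sum_const, card_range, smul_eq_mul]

theorem comp_term (X : Set (V × V)) (T : Finset (V × V)) :
    Comp X (2 * T.card + 1) (fun G => (↑T : Set (V × V)) ⊆ G) := by
  classical
  induction T using Finset.induction_on with
  | empty =>
    refine (comp_true X).congr ?_
    intro G
    simp
  | insert e T he ih =>
    refine (((comp_pos X e).and ih).mono ?_).congr ?_
    · rw [card_insert_of_notMem he]; omega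
    · intro G
      rw [coe_insert, Set.insert_subset_iff]

theorem comp_terms (K : ℕ) (s t : V) :
    Comp (∅ : Set (V × V)) ((2 * K + 1) * (Fintype.card V ^ 2 + 1) ^ (2 * K) * (4 * K + 1) + 2)
      (fun G => ∃ T ∈ terms K s t, (↑T : Set (V × V)) ⊆ G) := by
  classical
  have h1 := comp_iOr (X := (∅ : Set (V × V))) (ι := {T // T ∈ terms K s t})
    (S := fun T => 2 * T.1.card + 1) (F := fun T G => (↑T.1 : Set (V × V)) ⊆ G)
    (fun T => comp_term ∅ T.1)
  refine (h1.mono ?_).congr ?_
  · have h2 : ∑ T : {T // T ∈ terms K s t}, (2 * T.1.card + 1) ≤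
        ∑ _T : {T // T ∈ terms K s t}, (4 * K + 1) := by
      apply sum_le_sum
      intro T _
      have := T.2
      simp only [terms, mem_filter, mem_univ, true_and] at this
      omega
    rw [sum_const, card_univ, Fintype.card_coe, smul_eq_mul] at h2
    have h3 := Nat.mul_le_mul_right (4 * K + 1) (terms_card K s t)
    omega
  · intro G
    constructor
    · rintro ⟨T, hT⟩
      exact ⟨T.1, T.2, hT⟩
    · rintro ⟨T, hT, hTG⟩
      exact ⟨⟨T, hT⟩, hTG⟩

end Pool.Agent.L5helper55.NT
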