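import Pool.Agent.L5helper55.NT.Prob

/-!
# Exploration of the vertices reachable from a vertex
-/

namespace Pool.Agent.L5helper55.NT

open Finset

variable {V : Type} [Fintype V] [DecidableEq V]

/-- The set of vertices reachable from `s`, where there is an arc from `v` to `w` if `σ (v, w)` belongs to
`G` (`σ` is the identity or the exchange of the two coordinates). -/
def Rch (σ : V × V ≃ V × V) (G : Set (V × V)) (s t : V) : Prop :=
  Relation.ReflTransGen (fun v w => σ (v, w) ∈ G) s t

open Classical in
/-- out-neighbours -/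
noncomputable def out (σ : V × V ≃ V × V) (G : Set (V × V)) (v : V) : Finset V :=
  univ.filter (fun w => σ (v, w) ∈ G)

theorem mem_out (σ : V × V ≃ V × V) (G : Set (V × V)) (v w : V) :
    w ∈ out σ G v ↔ σ (v, w) ∈ G := by
  simp [out]

/-- one step of the exploration: process one discovered vertex -/
noncomputable def stp (σ : V × V ≃ V × V) (G : Set (V × V)) (x : Finset V × Finset V) :
    Finset V × Finset V :=
  if h : (x.2 \ x.1).Nonempty then (insert h.choose x.1, x.2 ∪ out σ G h.choose) else x

/-- the exploration: processed vertices and discovered vertices -/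
noncomputable def xpl (σ : V × V ≃ V × V) (G : Set (V × V)) (s : V) : ℕ → Finset V × Finset V
  | 0 => (∅, {s})
  | k + 1 => stp σ G (xpl σ G s k)

theorem stp_pos (σ : V × V ≃ V × V) (G : Set (V × V)) (x : Finset V × Finset V)
    (h : (x.2 \ x.1).Nonempty) :
    stp σ G x = (insert h.choose x.1, x.2 ∪ out σ G h.choose) := by
  unfold stp
  rw [dif_pos h]

theorem stp_neg (σ : V × V ≃ V × V) (G : Set (V × V)) (x : Finset V × Finset V)
    (h : ¬ (x.2 \ x.1).Nonempty) : stp σ G x = x := by
  unfold stp
  rw [dif_neg h]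

theorem xpl_succ (σ : V × V ≃ V × V) (G : Set (V × V)) (s : V) (k : ℕ) :
    xpl σ G s (k + 1) = stp σ G (xpl σ G s k) := rfl

theorem stp_fst_mono (σ : V × V ≃ V × V) (G : Set (V × V)) (x : Finset V × Finset V) :
    x.1 ⊆ (stp σ G x).1 := by
  by_cases h : (x.2 \ x.1).Nonempty
  · rw [stp_pos σ G x h]
    exact subset_insert _ _
  · rw [stp_neg σ G x h]

theorem stp_snd_mono (σ : V × V ≃ V × V) (G : Set (V × V)) (x : Finset V × Finset V) :
    x.2 ⊆ (stp σ G x).2 := by
  by_cases h : (x.2 \ x.1).Nonempty
  · rw [stp_pos σ G x h]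
    exact subset_union_left
  · rw [stp_neg σ G x h]

theorem xpl_fst_mono (σ : V × V ≃ V × V) (G : Set (V × V)) (s : V) {j k : ℕ} (h : j ≤ k) :
    (xpl σ G s j).1 ⊆ (xpl σ G s k).1 := by
  induction k, h using Nat.le_induction with
  | base => exact subset_rfl
  | succ k _ ih => exact ih.trans (stp_fst_mono σ G _)

/-- invariants of the exploration -/
theorem xpl_inv (σ : V × V ≃ V × V) (G : Set (V × V)) (s : V) (k : ℕ) :
    (xpl σ G s k).1 ⊆ (xpl σ G s k).2 ∧ s ∈ (xpl σ G s k).2 ∧
    (∀ x ∈ (xpl σ G s k).2, Rch σ G s x) ∧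
    (∀ v ∈ (xpl σ G s k).1, ∀ w, σ (v, w) ∈ G → w ∈ (xpl σ G s k).2) ∧
    (xpl σ G s k).1.card ≤ k ∧
    ((xpl σ G s k).1.card < k → (xpl σ G s k).2 ⊆ (xpl σ G s k).1) := by
  induction k with
  | zero =>
    refine ⟨by simp [xpl], by simp [xpl], ?_, by simp [xpl], by simp [xpl], by simp [xpl]⟩
    intro x hx
    simp only [xpl, mem_singleton] at hx
    subst hx
    exact Relation.ReflTransGen.refl
  | succ k ih =>
    obtain ⟨h1, h2, h3, h4, h5, h6⟩ := ih
    rw [xpl_succ]
    generalize xpl σ G s k = x at *
    by_cases h : (x.2 \ x.1).Nonempty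
    · rw [stp_pos σ G x h]
      have hv := h.choose_spec
      generalize h.choose = v at *
      rw [mem_sdiff] at hv
      refine ⟨?_, ?_, ?_, ?_, ?_, ?_⟩
      · intro y hy
        simp only [mem_insert] at hy
        simp only [mem_union]
        rcases hy with rfl | hy
        · exact Or.inl hv.1
        · exact Or.inl (h1 hy)
      · exact mem_union_left _ h2
      · intro y hy
        simp only [mem_union, mem_out] at hy
        rcases hy with hy | hy
        · exact h3 y hy
        · exact (h3 v hv.1).tail hy
      · intro y hy w hw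
        simp only [mem_insert] at hy
        simp only [mem_union, mem_out]
        rcases hy with rfl | hy
        · exact Or.inr hw
        · exact Or.inl (h4 y hy w hw)
      · have := card_insert_le v x.1
        simp only
        omega
      · intro hc
        exfalso
        simp only at hc
        rw [card_insert_of_notMem hv.2] at hc
        have := h6 (by omega)
        exact hv.2 (this hv.1)
    · rw [stp_neg σ G x h]
      refine ⟨h1, h2, h3, h4, by omega, ?_⟩
      intro _
      rw [not_nonempty_iff_eq_empty, sdiff_eq_empty_iff_subset] at h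
      exact h

/-- the exploration depends only on the rows of the processed vertices -/
theorem xpl_congr (σ : V × V ≃ V × V) (G G' : Set (V × V)) (s : V) (k : ℕ)
    (h : ∀ v ∈ (xpl σ G s k).1, ∀ w, σ (v, w) ∈ G ↔ σ (v, w) ∈ G') :
    xpl σ G' s k = xpl σ G s k := by
  have key : ∀ j ≤ k, xpl σ G' s j = xpl σ G s j := by
    intro j
    induction j with
    | zero => intro _; rfl
    | succ j ih =>
      intro hj
      have h1 := ih (by omega)
      rw [xpl_succ, xpl_succ, h1]
      by_cases hn : ((xpl σ G s j).2 \ (xpl σ G s j).1).Nonempty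
      · rw [stp_pos σ G _ hn, stp_pos σ G' _ hn]
        have hmem : hn.choose ∈ (xpl σ G s k).1 := by
          apply xpl_fst_mono σ G s hj
          rw [xpl_succ, stp_pos σ G _ hn]
          exact mem_insert_self _ _
        congr 2
        ext w
        rw [mem_out, mem_out]
        exact (h _ hmem w).symm
      · rw [stp_neg σ G _ hn, stp_neg σ G' _ hn]
  exact key k le_rfl

/-- a set which contains `s` and is closed under arcs contains everything reachable -/
theorem Rch.mem {σ : V × V ≃ V × V} {G : Set (V × V)} {s t : V} (h : Rch σ G s t) (X : Finset V)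
    (hs : s ∈ X) (hX : ∀ v ∈ X, ∀ w, σ (v, w) ∈ G → w ∈ X) : t ∈ X := by
  induction h with
  | refl => exact hs
  | tail _ h2 ih => exact hX _ ih _ h2

open Classical in
/-- the set of all reachable vertices -/
noncomputable def rset (σ : V × V ≃ V × V) (G : Set (V × V)) (s : V) : Finset V :=
  univ.filter (fun t => Rch σ G s t)

theorem mem_rset (σ : V × V ≃ V × V) (G : Set (V × V)) (s t : V) :
    t ∈ rset σ G s ↔ Rch σ G s t := by
  simp [rset]

theorem xpl_alive (σ : V × V ≃ V × V) (G : Set (V × V)) (s : V) (k : ℕ)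
    (h : k ≤ (rset σ G s).card) : (xpl σ G s k).1.card = k := by
  obtain ⟨h1, h2, h3, h4, h5, h6⟩ := xpl_inv σ G s k
  by_contra hne
  have hlt : (xpl σ G s k).1.card < k := by omega
  have h7 := h6 hlt
  have h8 : rset σ G s ⊆ (xpl σ G s k).2 := by
    intro t ht
    rw [mem_rset] at ht
    exact ht.mem _ h2 (fun v hv w hw => h4 v (h7 hv) w hw)
  have h9 := card_le_card (h8.trans h7)
  omega

theorem xpl_alive_succ (σ : V × V ≃ V × V) (G : Set (V × V)) (s : V) (k : ℕ)
    (h : (xpl σ G s k).1.card = k) (h' : k < (xpl σ G s k).2.card) :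
    (xpl σ G s (k + 1)).1.card = k + 1 := by
  rw [xpl_succ]
  have hn : ((xpl σ G s k).2 \ (xpl σ G s k).1).Nonempty := by
    rw [nonempty_iff_ne_empty]
    intro he
    rw [sdiff_eq_empty_iff_subset] at he
    have := card_le_card he
    omega
  rw [stp_pos σ G _ hn]
  have hv := hn.choose_spec
  rw [mem_sdiff] at hv
  simp only
  rw [card_insert_of_notMem hv.2, h]

end Pool.Agent.L5helper55.NT
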