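import Pool.Agent.L5helper55.NT.Walk

/-!
# Above the threshold
-/

namespace Pool.Agent.L5helper55.NT

open Pool.Agent.L5helper12.SN Finset

set_option linter.unusedSectionVars false

theorem pr_false {ι : Type} [Fintype ι] [DecidableEq ι] {p : ℝ} {A : Finset ι → Prop}
    (h : ∀ R, ¬ A R) : pr p A = 0 := by
  classical
  rw [pr_def]
  unfold ex
  apply sum_eq_zero
  intro R _
  simp [h R]

/-- the event which has to be excluded never happens if `K` is the number of vertices or more -/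
theorem no_bad {n : ℕ} {K : ℕ} (hK : n ≤ K) (G : Set (Fin n × Fin n)) (s t : Fin n) :
    ¬ (K ≤ (rset fw G s).card ∧ K ≤ (rset bw G t).card ∧ ¬ Rch fw G s t) := by
  rintro ⟨h1, _, h3⟩
  apply h3
  have h4 : (rset fw G s).card ≤ n := by
    have := card_le_univ (rset fw G s)
    rwa [Fintype.card_fin] at this
  have h5 : rset fw G s = univ := by
    apply eq_univ_of_card
    rw [Fintype.card_fin]
    omega
  rw [← mem_rset, h5]
  exact mem_univ t

/-- Part 1: monotone formulas of constant width. -/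
theorem part_one {c ε : ℝ} (hc : 1 < c) (hε : 0 < ε) : ∃ K a : ℕ, ∀ (n : ℕ) (s t : Fin n),
    ∃ 𝒯 : Finset (Finset (Fin n × Fin n)), (∀ T ∈ 𝒯, T.card ≤ K) ∧
      (Comp (∅ : Set (Fin n × Fin n)) (a * n ^ a)
        (fun G => ∃ T ∈ 𝒯, (↑T : Set (Fin n × Fin n)) ⊆ G)) ∧
      ∀ p : ℝ, 0 ≤ p → c / n ≤ p → p ≤ 1 →
      ∀ D : Set (Fin n × Fin n), pr p (fun R : Finset (Fin n × Fin n) =>
        ¬ ((∃ T ∈ 𝒯, (↑T : Set (Fin n × Fin n)) ⊆ D ∪ ↑R) ↔ Connected (D ∪ ↑R) s t)) ≤ ε := by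
  obtain ⟨κ, hκ, A, hA, γ, hγ, n₀, hab⟩ := above hc
  -- a constant K with A exp (- κ K) ≤ ε
  obtain ⟨K, hK⟩ : ∃ K : ℕ, A * Real.exp (-(κ * K)) ≤ ε := by
    obtain ⟨K, hK⟩ := exists_nat_gt ((A / ε) / κ)
    refine ⟨K, ?_⟩
    have h1 : A / ε < κ * K := by
      rw [div_lt_iff₀ hκ] at hK
      linarith
    have h2 : A / ε ≤ Real.exp (κ * K) := by
      have := Real.add_one_le_exp (κ * K)
      linarith
    rw [Real.exp_neg, ← div_eq_mul_inv, div_le_iff₀ (Real.exp_pos _)]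
    rw [div_le_iff₀ hε] at h2
    linarith
  set n₁ := max n₀ (max (K + 1) ⌈K / γ⌉₊) with hn₁
  have hKn : K + 1 ≤ n₁ := le_trans (le_max_left _ _) (le_max_right _ _)
  refine ⟨2 * n₁, (2 * n₁ + 1) * (4 * n₁ + 1) * 2 ^ (2 * n₁) + 2 + 4 * n₁, ?_⟩
  intro n s t
  have hn1 : 1 ≤ n := by
    have := s.2
    omega
  set K' := if n < n₁ then n else K + 0 with hK'
  -- use `max 1 K'`
  set J := max 1 K' with hJ
  have hJ1 : 1 ≤ J := le_max_left _ _
  have hJn : J ≤ n₁ := by
    rw [hJ, hK']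
    split_ifs with h
    · exact max_le (by omega) (by omega)
    · exact max_le (by omega) (by omega)
  refine ⟨terms J s t, ?_, ?_, ?_⟩
  · intro T hT
    simp only [terms, mem_filter, mem_univ, true_and] at hT
    omega
  · refine (comp_terms J s t).mono ?_
    rw [Fintype.card_fin]
    have h1 : (n ^ 2 + 1) ^ (2 * J) ≤ 2 ^ (2 * n₁) * n ^ (4 * n₁) := by
      calc (n ^ 2 + 1) ^ (2 * J) ≤ (n ^ 2 + 1) ^ (2 * n₁) :=
            Nat.pow_le_pow_right (by omega) (by omega)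
        _ ≤ (2 * n ^ 2) ^ (2 * n₁) := by
            apply Nat.pow_le_pow_left
            have : 1 ≤ n ^ 2 := Nat.one_le_pow _ _ hn1
            omega
        _ = 2 ^ (2 * n₁) * n ^ (4 * n₁) := by
            rw [mul_pow, ← pow_mul]
            congr 2
            ring
    have h2 : (2 * J + 1) * (n ^ 2 + 1) ^ (2 * J) * (4 * J + 1) + 2 ≤
        (2 * n₁ + 1) * (2 ^ (2 * n₁) * n ^ (4 * n₁)) * (4 * n₁ + 1) + 2 := by
      gcongr
    refine h2.trans ?_
    have h3 : 1 ≤ n ^ (4 * n₁) := Nat.one_le_pow _ _ hn1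
    calc (2 * n₁ + 1) * (2 ^ (2 * n₁) * n ^ (4 * n₁)) * (4 * n₁ + 1) + 2 ≤
          (2 * n₁ + 1) * (2 ^ (2 * n₁) * n ^ (4 * n₁)) * (4 * n₁ + 1) + 2 * n ^ (4 * n₁) := by omega
      _ = ((2 * n₁ + 1) * (4 * n₁ + 1) * 2 ^ (2 * n₁) + 2) * n ^ (4 * n₁) := by ring
      _ ≤ ((2 * n₁ + 1) * (4 * n₁ + 1) * 2 ^ (2 * n₁) + 2 + 4 * n₁) *
          n ^ ((2 * n₁ + 1) * (4 * n₁ + 1) * 2 ^ (2 * n₁) + 2 + 4 * n₁) := by
          apply Nat.mul_le_mul (by omega)
          exact Nat.pow_le_pow_right hn1 (by omega)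
  · intro p hp0 hpc hp1 D
    have hsub : ∀ R : Finset (Fin n × Fin n),
        ¬ ((∃ T ∈ terms J s t, (↑T : Set (Fin n × Fin n)) ⊆ D ∪ ↑R) ↔ Connected (D ∪ ↑R) s t) →
        (J ≤ (rset fw (D ∪ ↑R) s).card ∧ J ≤ (rset bw (D ∪ ↑R) t).card ∧
          ¬ Rch fw (D ∪ ↑R) s t) := by
      intro R hR
      by_contra hcon
      exact hR (terms_right hJ1 (D ∪ ↑R) s t hcon)
    by_cases hlt : n < n₁
    · have hJ' : n ≤ J := by
        rw [hJ, hK', if_pos hlt]
        exact le_max_right _ _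
      rw [pr_false]
      · exact hε.le
      · intro R hR
        exact no_bad hJ' _ s t (hsub R hR)
    · push Not at hlt
      have hn0 : n₀ ≤ Fintype.card (Fin n) := by
        rw [Fintype.card_fin]
        exact (le_max_left _ _).trans hlt
      have hmain := hab (Fin n) hn0
      rw [Fintype.card_fin] at hmain
      have hKγ : (K : ℝ) ≤ γ * n := by
        have h1 : (K : ℝ) / γ ≤ (⌈K / γ⌉₊ : ℝ) := Nat.le_ceil _
        have h2 : ⌈K / γ⌉₊ ≤ n := (le_trans (le_max_right _ _) (le_max_right _ _)).trans hlt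
        have h3 : (K : ℝ) / γ ≤ n := h1.trans (by exact_mod_cast h2)
        rw [div_le_iff₀ hγ] at h3
        linarith
      refine le_trans ?_ hK
      refine le_trans (pr_mono hp0 hp1 ?_) (hmain K hKγ p hpc hp1 D s t)
      intro R hR
      obtain ⟨h1, h2, h3⟩ := hsub R hR
      have hKJ : K ≤ J := by
        rw [hJ, hK', if_neg (by omega)]
        exact le_max_right _ _
      exact ⟨hKJ.trans h1, hKJ.trans h2, h3⟩

/-- the size of the networks for the decision procedure -/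
theorem dec_comp {n m : ℕ} (hm : 1 ≤ m) (ℋ : Finset (Fin n → Fin m))
    (hℋ : ℋ.card ≤ 3 ^ m * m * n + 1) (s t : Fin n) :
    Comp Set.univ ((3 ^ m * (n + 2)) ^ 20) (Dec ℋ s t) := by
  have hF : ∀ (σ : Fin n × Fin n ≃ Fin n × Fin n) (u v : Fin n),
      DetP ((3 ^ m * (n + 2)) ^ 10) (Fnd σ ℋ u v) := by
    intro σ u v
    refine (det_fnd σ ℋ u v).mono ?_
    rw [Fintype.card_fin]
    set X := 3 ^ m * (n + 2) with hX
    have h3m : m ≤ 3 ^ m := (Nat.lt_pow_self (by norm_num : 1 < 3)).le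
    have h3p : 1 ≤ 3 ^ m := Nat.one_le_pow _ _ (by norm_num)
    have hX1 : 3 ^ m ≤ X := Nat.le_mul_of_pos_right _ (by omega)
    have hX2 : m ≤ X := h3m.trans hX1
    have hX3 : n + 2 ≤ X := Nat.le_mul_of_pos_left _ (by omega)
    have hX4 : 2 ^ m ≤ X := (Nat.pow_le_pow_left (by norm_num) m).trans hX1
    have hX5 : ℋ.card ≤ X ^ 2 := by
      refine hℋ.trans ?_
      have h1 : 3 ^ m * m * n + 1 ≤ 3 ^ m * m * (n + 2) := by
        have : 1 ≤ 3 ^ m * m := Nat.one_le_iff_ne_zero.mpr (by positivity)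
        nlinarith
      refine h1.trans ?_
      calc 3 ^ m * m * (n + 2) = m * (3 ^ m * (n + 2)) := by ring
        _ ≤ X * X := Nat.mul_le_mul hX2 le_rfl
        _ = X ^ 2 := (sq X).symm
    calc ℋ.card * (2 * (2 ^ m * (2 * (m * (n * 2 ^ m * (n * (n + 1))))))) ≤
          X ^ 2 * (X * (X * (X * (X * (X * X * (X * X)))))) := by
          gcongr <;> omega
      _ = X ^ 10 := by ring
  have hB : ∀ (σ : Fin n × Fin n ≃ Fin n × Fin n) (u : Fin n),
      DetP ((3 ^ m * (n + 2)) ^ 16) (Big σ ℋ m u) := by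
    intro σ u
    refine (det_big σ ℋ m u (S := (3 ^ m * (n + 2)) ^ 10) (fun v => hF σ u v)).mono ?_
    rw [Fintype.card_fin]
    set X := 3 ^ m * (n + 2) with hX
    have h3m : m + 1 ≤ 3 ^ m := Nat.lt_pow_self (by norm_num : 1 < 3)
    have hX1 : 3 ^ m ≤ X := Nat.le_mul_of_pos_right _ (by omega)
    have hX2 : m + 1 ≤ X := h3m.trans hX1
    have h3p : 1 ≤ 3 ^ m := Nat.one_le_pow _ _ (by norm_num)
    have hX3 : n + 2 ≤ X := Nat.le_mul_of_pos_left _ (by omega)
    have hX10 : 1 ≤ X ^ 10 := Nat.one_le_pow _ _ (by omega)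
    have h1 : X ^ 10 + 1 ≤ X ^ 11 := by
      calc X ^ 10 + 1 ≤ X ^ 10 * 2 := by omega
        _ ≤ X ^ 10 * X := Nat.mul_le_mul_left _ (by omega)
        _ = X ^ 11 := by ring
    have h2 : X ^ 10 + n * ((m + 1) * (X ^ 10 + 1)) ≤ X ^ 14 := by
      have h3 : n * ((m + 1) * (X ^ 10 + 1)) ≤ X * (X * X ^ 11) := by
        gcongr
        omega
      have h4 : X ^ 10 ≤ X * (X * X ^ 11) := by
        calc X ^ 10 ≤ X ^ 13 := Nat.pow_le_pow_right (by omega) (by norm_num)
          _ = _ := by ring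
      calc X ^ 10 + n * ((m + 1) * (X ^ 10 + 1)) ≤ X * (X * X ^ 11) + X * (X * X ^ 11) := by omega
        _ = X ^ 13 * 2 := by ring
        _ ≤ X ^ 13 * X := Nat.mul_le_mul_left _ (by omega)
        _ = X ^ 14 := by ring
    calc n * (2 * (X ^ 10 + n * ((m + 1) * (X ^ 10 + 1)))) ≤ X * (X * X ^ 14) := by
          gcongr <;> omega
      _ = X ^ 16 := by ring
  have hD : DetP (((3 ^ m * (n + 2)) ^ 10 + (3 ^ m * (n + 2)) ^ 10) +
      ((3 ^ m * (n + 2)) ^ 16 + (3 ^ m * (n + 2)) ^ 16)) (Dec ℋ s t) :=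
    ((hF fw s t).or (hF bw t s)).or ((hB fw s).and (hB bw t))
  refine hD.comp.mono ?_
  set X := 3 ^ m * (n + 2) with hX
  have h3p : 1 ≤ 3 ^ m := Nat.one_le_pow _ _ (by norm_num)
  have hX3 : n + 2 ≤ X := Nat.le_mul_of_pos_left _ (by omega)
  have hX2 : 3 ≤ X := by
    have h3' : 3 ≤ 3 ^ m := by
      calc 3 = 3 ^ 1 := by norm_num
        _ ≤ 3 ^ m := Nat.pow_le_pow_right (by norm_num) hm
    have hX1 : 3 ^ m ≤ X := Nat.le_mul_of_pos_right _ (by omega)
    omega
  have h1 : X ^ 10 ≤ X ^ 16 := Nat.pow_le_pow_right (by omega) (by norm_num)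
  have h2 : 1 ≤ X ^ 16 := Nat.one_le_pow _ _ (by omega)
  calc X ^ 10 + X ^ 10 + (X ^ 16 + X ^ 16) + 2 ≤ X ^ 16 * 9 := by omega
    _ ≤ X ^ 16 * (X * X) := Nat.mul_le_mul_left _ (by nlinarith)
    _ = X ^ 18 := by ring
    _ ≤ X ^ 20 := Nat.pow_le_pow_right (by omega) (by norm_num)

/-- Part 2: all pairs with high probability. -/
theorem part_two {c : ℝ} (hc : 1 < c) (k : ℕ) : ∃ a : ℕ, ∀ n : ℕ, 1 ≤ n →
    ∃ F : Fin n → Fin n → Set (Fin n × Fin n) → Prop,
      (∀ s t, Comp Set.univ (a * n ^ a) (F s t)) ∧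
      ∀ p : ℝ, 0 ≤ p → c / n ≤ p → p ≤ 1 →
      ∀ D : Set (Fin n × Fin n), pr p (fun R : Finset (Fin n × Fin n) =>
        ∃ s t, ¬ (F s t (D ∪ ↑R) ↔ Connected (D ∪ ↑R) s t)) ≤ 1 / (n : ℝ) ^ k := by
  obtain ⟨κ, hκ, A, hA, γ, hγ, n₀, hab⟩ := above hc
  set C : ℝ := (k + 3) / κ with hC
  have hC0 : 0 < C := by positivity
  set q : ℝ := (2 * C + 1) / γ + (2 * C + 1) with hq
  set n₁ : ℕ := max n₀ (max 3 (max ⌈A⌉₊ ⌈q ^ 2⌉₊)) with hn₁
  have hn₁3 : 3 ≤ n₁ := le_trans (le_max_left _ _) (le_max_right _ _)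
  set b : ℕ := ⌈C * Real.log 3⌉₊ with hb
  refine ⟨9 ^ 20 + 20 * (b + 1) + (3 ^ n₁ * (n₁ + 2)) ^ 20, ?_⟩
  intro n hn1
  have hnr : (1 : ℝ) ≤ n := by exact_mod_cast hn1
  set K := if n < n₁ then n else ⌈C * Real.log n⌉₊ with hK
  have hlarge : n₁ ≤ n → (1 ≤ K ∧ K ≤ n ∧ (K : ℝ) ≤ γ * n) := by
    intro h
    have hn3 : 3 ≤ n := hn₁3.trans h
    have hn3r : (3 : ℝ) ≤ n := by exact_mod_cast hn3
    have hKe : K = ⌈C * Real.log n⌉₊ := by rw [hK, if_neg (by omega)]
    have hlog : 0 < Real.log n := Real.log_pos (by linarith)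
    have h1 : 1 ≤ K := by
      rw [hKe, Nat.one_le_iff_ne_zero, ← Nat.pos_iff_ne_zero, Nat.ceil_pos]
      positivity
    have h2 : q ^ 2 ≤ n := by
      have h3 : ⌈q ^ 2⌉₊ ≤ n :=
        (le_trans (le_max_right _ _) (le_trans (le_max_right _ _) (le_max_right _ _))).trans h
      exact (Nat.le_ceil _).trans (by exact_mod_cast h3)
    have hq0 : 0 < q := by positivity
    have h3 : q ≤ √n := Real.le_sqrt_of_sq_le h2
    have h4 : √(n : ℝ) * √n = n := Real.mul_self_sqrt (by positivity)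
    have h5 : 0 < √(n : ℝ) := Real.sqrt_pos.mpr (by linarith)
    have h6 : Real.log n ≤ 2 * √n := by
      have h7 := Real.log_le_sub_one_of_pos h5
      have h8 : Real.log (n : ℝ) = 2 * Real.log √n := by
        rw [Real.log_sqrt (by positivity)]
        ring
      linarith
    have h7 : (K : ℝ) ≤ C * Real.log n + 1 := by
      rw [hKe]
      exact (Nat.ceil_lt_add_one (by positivity)).le
    have h8 : 1 ≤ √(n : ℝ) := by
      rw [Real.one_le_sqrt]
      linarith
    have h9 : (K : ℝ) ≤ (2 * C + 1) * √n := by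
      have : C * Real.log n ≤ C * (2 * √n) := mul_le_mul_of_nonneg_left h6 hC0.le
      linarith
    have h10 : (2 * C + 1) / γ ≤ √n := by
      have : 0 < 2 * C + 1 := by positivity
      linarith
    have h11 : 2 * C + 1 ≤ √n := by
      have : 0 < (2 * C + 1) / γ := by positivity
      linarith
    have h12 : 2 * C + 1 ≤ γ * √n := by
      rw [div_le_iff₀ hγ] at h10
      linarith
    refine ⟨h1, ?_, ?_⟩
    · have : (K : ℝ) ≤ n := by
        calc (K : ℝ) ≤ (2 * C + 1) * √n := h9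
          _ ≤ √n * √n := mul_le_mul_of_nonneg_right h11 h5.le
          _ = n := h4
      exact_mod_cast this
    · calc (K : ℝ) ≤ (2 * C + 1) * √n := h9
        _ ≤ γ * √n * √n := mul_le_mul_of_nonneg_right h12 h5.le
        _ = γ * n := by rw [mul_assoc, h4]
  have hK1 : 1 ≤ K ∧ K ≤ n := by
    by_cases h : n < n₁
    · rw [hK, if_pos h]
      exact ⟨hn1, le_rfl⟩
    · exact ⟨(hlarge (by omega)).1, (hlarge (by omega)).2.1⟩
  obtain ⟨ℋ, hℋ1, hℋ2⟩ := hash_family (V := Fin n) K hK1.1 (by rw [Fintype.card_fin]; exact hK1.2)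
  rw [Fintype.card_fin] at hℋ1
  refine ⟨fun s t => Dec ℋ s t, ?_, ?_⟩
  · intro s t
    refine (dec_comp hK1.1 ℋ hℋ1 s t).mono ?_
    by_cases h : n < n₁
    · have hKn : K = n := by rw [hK, if_pos h]
      rw [hKn]
      have h1 : (3 ^ n * (n + 2)) ^ 20 ≤ (3 ^ n₁ * (n₁ + 2)) ^ 20 := by
        apply Nat.pow_le_pow_left
        apply Nat.mul_le_mul _ (by omega)
        exact Nat.pow_le_pow_right (by norm_num) h.le
      have h2 : 1 ≤ n ^ (9 ^ 20 + 20 * (b + 1) + (3 ^ n₁ * (n₁ + 2)) ^ 20) :=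
        Nat.one_le_pow _ _ hn1
      calc (3 ^ n * (n + 2)) ^ 20 ≤ (3 ^ n₁ * (n₁ + 2)) ^ 20 := h1
        _ ≤ (9 ^ 20 + 20 * (b + 1) + (3 ^ n₁ * (n₁ + 2)) ^ 20) * 1 := by omega
        _ ≤ _ := Nat.mul_le_mul_left _ h2
    · push Not at h
      have hn3 : 3 ≤ n := hn₁3.trans h
      have hKe : K = ⌈C * Real.log n⌉₊ := by rw [hK, if_neg (by omega)]
      have hlog : 0 ≤ Real.log n := Real.log_nonneg hnr
      have h1 : (3 : ℝ) ^ K ≤ 3 * (n : ℝ) ^ b := by
        have h2 : (K : ℝ) ≤ C * Real.log n + 1 := by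
          rw [hKe]
          exact (Nat.ceil_lt_add_one (by positivity)).le
        have h3 : (3 : ℝ) ^ K = Real.exp (Real.log 3 * K) := by
          rw [← Real.rpow_natCast, Real.rpow_def_of_pos (by norm_num)]
        have h4 : (n : ℝ) ^ b = Real.exp (Real.log n * b) := by
          rw [← Real.rpow_natCast, Real.rpow_def_of_pos (by linarith)]
        have h5 : (3 : ℝ) = Real.exp (Real.log 3) := (Real.exp_log (by norm_num)).symm
        have hlog3 : 0 < Real.log 3 := Real.log_pos (by norm_num)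
        rw [h3, h4]
        calc Real.exp (Real.log 3 * K) ≤ Real.exp (Real.log 3 + Real.log n * b) := by
              apply Real.exp_le_exp.mpr
              have h6 : C * Real.log 3 ≤ b := Nat.le_ceil _
              have h7 : Real.log 3 * K ≤ Real.log 3 * (C * Real.log n + 1) :=
                mul_le_mul_of_nonneg_left h2 hlog3.le
              have h8 : C * Real.log 3 * Real.log n ≤ b * Real.log n :=
                mul_le_mul_of_nonneg_right h6 hlog
              nlinarith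
          _ = 3 * Real.exp (Real.log n * b) := by
              rw [Real.exp_add, Real.exp_log (by norm_num)]
      have h1' : 3 ^ K ≤ 3 * n ^ b := by exact_mod_cast h1
      calc (3 ^ K * (n + 2)) ^ 20 ≤ (3 * n ^ b * (3 * n)) ^ 20 := by
            apply Nat.pow_le_pow_left
            apply Nat.mul_le_mul h1' (by omega)
        _ = 9 ^ 20 * n ^ (20 * (b + 1)) := by
            have : 3 * n ^ b * (3 * n) = 9 * n ^ (b + 1) := by ring
            rw [this, mul_pow, ← pow_mul]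
            congr 2
            ring
        _ ≤ _ := by
            apply Nat.mul_le_mul (by omega)
            exact Nat.pow_le_pow_right hn1 (by omega)
  · intro p hp0 hpc hp1 D
    have hsub : ∀ (s t : Fin n) (R : Finset (Fin n × Fin n)),
        ¬ (Dec ℋ s t (D ∪ ↑R) ↔ Connected (D ∪ ↑R) s t) →
        (K ≤ (rset fw (D ∪ ↑R) s).card ∧ K ≤ (rset bw (D ∪ ↑R) t).card ∧
          ¬ Rch fw (D ∪ ↑R) s t) := by
      intro s t R hR
      by_contra hcon
      exact hR (dec_right hℋ2 hK1.1 (D ∪ ↑R) s t hcon)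
    by_cases hlt : n < n₁
    · have hKn : n ≤ K := by rw [hK, if_pos hlt]
      rw [pr_false]
      · positivity
      · rintro R ⟨s, t, hR⟩
        exact no_bad hKn _ s t (hsub s t R hR)
    · push Not at hlt
      obtain ⟨_, _, hKγ⟩ := hlarge hlt
      have hn0 : n₀ ≤ Fintype.card (Fin n) := by
        rw [Fintype.card_fin]
        exact (le_max_left _ _).trans hlt
      have hmain := hab (Fin n) hn0
      rw [Fintype.card_fin] at hmain
      have h1 : pr p (fun R : Finset (Fin n × Fin n) =>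
          ∃ s t, ¬ (Dec ℋ s t (D ∪ ↑R) ↔ Connected (D ∪ ↑R) s t)) ≤
          pr p (fun R : Finset (Fin n × Fin n) => ∃ x ∈ (univ : Finset (Fin n × Fin n)),
            (K ≤ (rset fw (D ∪ ↑R) x.1).card ∧ K ≤ (rset bw (D ∪ ↑R) x.2).card ∧
          ¬ Rch fw (D ∪ ↑R) x.1 x.2)) := by
        apply pr_mono hp0 hp1
        rintro R ⟨s, t, hR⟩
        exact ⟨(s, t), mem_univ _, hsub s t R hR⟩
      refine h1.trans ((pr_exists hp0 hp1 univ _).trans ?_)
      have h2 : ∀ x ∈ (univ : Finset (Fin n × Fin n)), pr p (fun R : Finset (Fin n × Fin n) =>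
            (K ≤ (rset fw (D ∪ ↑R) x.1).card ∧ K ≤ (rset bw (D ∪ ↑R) x.2).card ∧
          ¬ Rch fw (D ∪ ↑R) x.1 x.2)) ≤ A * Real.exp (-(κ * K)) :=
        fun x _ => hmain K hKγ p hpc hp1 D x.1 x.2
      refine (sum_le_sum h2).trans ?_
      rw [sum_const, card_univ, Fintype.card_prod, Fintype.card_fin, nsmul_eq_mul]
      have hnpos : (0 : ℝ) < n := by linarith
      have h3 : Real.exp (-(κ * K)) ≤ 1 / (n : ℝ) ^ (k + 3) := by
        have hKe : K = ⌈C * Real.log n⌉₊ := by rw [hK, if_neg (by omega)]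
        have h4 : C * Real.log n ≤ K := by
          rw [hKe]
          exact Nat.le_ceil _
        have h5 : ((k : ℝ) + 3) * Real.log n ≤ κ * K := by
          have h6 : κ * (C * Real.log n) = ((k : ℝ) + 3) * Real.log n := by
            rw [hC]
            field_simp
          rw [← h6]
          exact mul_le_mul_of_nonneg_left h4 hκ.le
        rw [one_div, ← Real.exp_log (by positivity : (0 : ℝ) < (n : ℝ) ^ (k + 3)), ← Real.exp_neg]
        apply Real.exp_le_exp.mpr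
        rw [Real.log_pow]
        push_cast
        linarith
      have hAn : A ≤ n := by
        have h4 : ⌈A⌉₊ ≤ n :=
          (le_trans (le_max_left _ _) (le_trans (le_max_right _ _) (le_max_right _ _))).trans hlt
        exact (Nat.le_ceil _).trans (by exact_mod_cast h4)
      push_cast
      calc (n : ℝ) * n * (A * Real.exp (-(κ * K))) ≤ n * n * (n * (1 / (n : ℝ) ^ (k + 3))) := by
            apply mul_le_mul_of_nonneg_left _ (by positivity)
            exact mul_le_mul hAn h3 (Real.exp_pos _).le hnpos.le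
        _ = 1 / (n : ℝ) ^ k := by
            rw [pow_add]
            field_simp

theorem half_le_one_sub_exp {y : ℝ} (h0 : 0 ≤ y) (h1 : y ≤ 1) : y / 2 ≤ 1 - Real.exp (-y) := by
  have h10 := Real.quadratic_le_exp_of_nonneg h0
  have h11 : Real.exp (-y) * Real.exp y = 1 := by
    rw [← Real.exp_add]; simp
  have h12 : 0 < Real.exp (-y) := Real.exp_pos _
  have h14 : 1 ≤ (1 - y / 2) * (1 + y + y ^ 2 / 2) := by
    have : (1 - y / 2) * (1 + y + y ^ 2 / 2) = 1 + y / 2 - y ^ 3 / 4 := by ring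
    rw [this]
    have h2 : y ^ 3 ≤ y := by
      calc y ^ 3 = y * (y * y) := by ring
        _ ≤ y * 1 := mul_le_mul_of_nonneg_left (by nlinarith) h0
        _ = y := mul_one y
    linarith
  have h15 : 1 ≤ (1 - y / 2) * Real.exp y :=
    h14.trans (mul_le_mul_of_nonneg_left h10 (by linarith))
  have h16 : Real.exp (-y) ≤ 1 - y / 2 := by
    calc Real.exp (-y) = Real.exp (-y) * 1 := (mul_one _).symm
      _ ≤ Real.exp (-y) * ((1 - y / 2) * Real.exp y) := mul_le_mul_of_nonneg_left h15 h12.le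
      _ = (1 - y / 2) * (Real.exp (-y) * Real.exp y) := by ring
      _ = 1 - y / 2 := by rw [h11, mul_one]
  linarith

set_option maxHeartbeats 1000000 in
/-- the window: noise `(1 + o(1)) / n` suffices -/
theorem part_window : ∃ a n₀ : ℕ, ∀ n : ℕ, n₀ ≤ n → ∀ s t : Fin n,
    ∃ F : Set (Fin n × Fin n) → Prop, Comp Set.univ (n ^ a) F ∧ ∀ p : ℝ,
      (1 + 8 * √(Real.log (Real.log n) / Real.log n)) / n ≤ p → p ≤ 1 →
      ∀ D : Set (Fin n × Fin n), pr p (fun R : Finset (Fin n × Fin n) =>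
        ¬ (F (D ∪ ↑R) ↔ Connected (D ∪ ↑R) s t)) ≤ 1 / 3 := by
  -- n large
  obtain ⟨n₀, hn₀⟩ : ∃ n₀ : ℕ, ∀ n : ℕ, n₀ ≤ n → (24 ≤ Real.log n ∧
      Real.log (Real.log n) ≤ 1 / 4 * Real.log n ∧
      128 * Real.log n ^ 2 ≤ n) := by
    have hlog : Filter.Tendsto (fun n : ℕ => Real.log n) Filter.atTop Filter.atTop :=
      Real.tendsto_log_atTop.comp tendsto_natCast_atTop_atTop
    have t1 := hlog.eventually_ge_atTop 24
    have t2 : ∀ᶠ x : ℝ in Filter.atTop, Real.log x ≤ 1 / 4 * x := by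
      have := Real.isLittleO_log_id_atTop.bound (show (0 : ℝ) < 1 / 4 by norm_num)
      filter_upwards [this, Filter.eventually_ge_atTop 1] with x hx hx1
      have h1 : 0 ≤ Real.log x := Real.log_nonneg hx1
      rw [Real.norm_of_nonneg h1] at hx
      simpa [abs_of_nonneg (by linarith : (0 : ℝ) ≤ x)] using hx
    have t3 : ∀ᶠ x : ℝ in Filter.atTop, 128 * Real.log x ^ 2 ≤ x := by
      have := (isLittleO_log_rpow_atTop (show (0 : ℝ) < 1 / 2 by norm_num)).bound
        (show (0 : ℝ) < 1 / 16 by norm_num)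
      filter_upwards [this, Filter.eventually_ge_atTop 1] with x hx hx1
      have h1 : 0 ≤ Real.log x := Real.log_nonneg hx1
      have h2 : 0 ≤ x ^ (1 / 2 : ℝ) := by positivity
      rw [Real.norm_of_nonneg h1, Real.norm_of_nonneg h2] at hx
      have h3 : (x ^ (1 / 2 : ℝ)) ^ 2 = x := by
        rw [← Real.rpow_natCast, ← Real.rpow_mul (by linarith)]
        norm_num
      have h4 := pow_le_pow_left₀ h1 hx 2
      rw [mul_pow, h3] at h4
      nlinarith
    have t2' := hlog.eventually t2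
    have t3' := (tendsto_natCast_atTop_atTop (R := ℝ)).eventually t3
    obtain ⟨n₀, h⟩ := Filter.eventually_atTop.mp (t1.and (t2'.and t3'))
    exact ⟨n₀, fun n hn => ⟨(h n hn).1, (h n hn).2.1, (h n hn).2.2⟩⟩
  refine ⟨100, n₀, ?_⟩
  intro n hn s t
  obtain ⟨h1, h2, h3⟩ := hn₀ n hn
  set x := Real.log n with hx
  have hx0 : 0 < x := by linarith
  have hnpos : (0 : ℝ) < n := by
    have : 0 < 128 * x ^ 2 := by positivity
    linarith
  have hn1 : 1 ≤ n := by
    have : 0 < n := by exact_mod_cast hnpos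
    omega
  have hlx : 1 ≤ Real.log x := by
    rw [Real.le_log_iff_exp_le hx0]
    linarith [Real.exp_one_lt_d9]
  set δ := √(Real.log x / x) with hδ
  have hδsq : δ ^ 2 = Real.log x / x := Real.sq_sqrt (by positivity)
  have hδ0 : 0 < δ := Real.sqrt_pos.mpr (by positivity)
  have hδ1 : δ ≤ 1 / 2 := by
    rw [hδ, Real.sqrt_le_left (by norm_num)]
    rw [div_le_iff₀ hx0]
    linarith
  have hδx : 1 / x ≤ δ ^ 2 := by
    rw [hδsq]
    exact div_le_div_of_nonneg_right hlx hx0.le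
  have hδx' : 1 ≤ δ ^ 2 * x := by
    rw [div_le_iff₀ hx0] at hδx
    exact hδx
  set K := ⌈(δ ^ 2)⁻¹ * Real.log (24 / δ ^ 2)⌉₊ with hK
  have hδ2 : 0 < δ ^ 2 := by positivity
  have hinv : (δ ^ 2)⁻¹ ≤ x := by
    rw [inv_le_comm₀ hδ2 hx0, ← one_div]
    exact hδx
  have hlog24 : Real.log (24 / δ ^ 2) ≤ 2 * Real.log x := by
    have h4 : 24 / δ ^ 2 ≤ x * x := by
      rw [div_eq_mul_inv]
      exact mul_le_mul h1 hinv (by positivity) hx0.le
    calc Real.log (24 / δ ^ 2) ≤ Real.log (x * x) := Real.log_le_log (by positivity) h4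
      _ = 2 * Real.log x := by
          rw [Real.log_mul hx0.ne' hx0.ne']
          ring
  have hK0 : (δ ^ 2)⁻¹ * Real.log (24 / δ ^ 2) ≤ 2 * x := by
    have h5 : (δ ^ 2)⁻¹ * Real.log x = x := by
      rw [hδsq, inv_div]
      field_simp
    calc (δ ^ 2)⁻¹ * Real.log (24 / δ ^ 2) ≤ (δ ^ 2)⁻¹ * (2 * Real.log x) :=
          mul_le_mul_of_nonneg_left hlog24 (by positivity)
      _ = 2 * ((δ ^ 2)⁻¹ * Real.log x) := by ring
      _ = 2 * x := by rw [h5]
  have hlogpos : 0 < Real.log (24 / δ ^ 2) := by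
    apply Real.log_pos
    rw [lt_div_iff₀ hδ2]
    nlinarith
  have hK1 : (K : ℝ) ≤ 2 * x + 1 := by
    have := (Nat.ceil_lt_add_one (show 0 ≤ (δ ^ 2)⁻¹ * Real.log (24 / δ ^ 2) by positivity)).le
    linarith
  have hKpos : 1 ≤ K := by
    rw [Nat.one_le_iff_ne_zero, ← Nat.pos_iff_ne_zero, hK, Nat.ceil_pos]
    positivity
  have hKδ : (K : ℝ) ≤ δ / 4 * n := by
    have h4 : 1 ≤ δ * x := by nlinarith
    have h5 : 128 * x ^ 2 * (δ / 4) ≤ n * (δ / 4) :=
      mul_le_mul_of_nonneg_right h3 (by positivity)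
    nlinarith
  have hKn : K ≤ n := by
    have : (K : ℝ) ≤ n := by nlinarith
    exact_mod_cast this
  obtain ⟨ℋ, hℋ1, hℋ2⟩ := hash_family (V := Fin n) K hKpos (by rw [Fintype.card_fin]; exact hKn)
  rw [Fintype.card_fin] at hℋ1
  refine ⟨Dec ℋ s t, ?_, ?_⟩
  · refine (dec_comp hKpos ℋ hℋ1 s t).mono ?_
    have h3K : (3 : ℝ) ^ K ≤ 3 * (n : ℝ) ^ 3 := by
      have h4 : (3 : ℝ) ^ K = Real.exp (Real.log 3 * K) := by
        rw [← Real.rpow_natCast, Real.rpow_def_of_pos (by norm_num)]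
      have h5 : Real.log 3 ≤ 1.2 := by
        rw [Real.log_le_iff_le_exp (by norm_num)]
        have h6 := Real.quadratic_le_exp_of_nonneg (show (0 : ℝ) ≤ 1.2 by norm_num)
        have h7 : Real.exp 1.2 = Real.exp 0.6 * Real.exp 0.6 := by
          rw [← Real.exp_add]; norm_num
        have h8 := Real.quadratic_le_exp_of_nonneg (show (0 : ℝ) ≤ 0.6 by norm_num)
        have h9 : (1.78 : ℝ) ≤ Real.exp 0.6 := by
          refine le_trans ?_ h8
          norm_num
        rw [h7]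
        nlinarith
      have h6 : (n : ℝ) ^ 3 = Real.exp (3 * x) := by
        have h7 : Real.exp x = n := Real.exp_log hnpos
        rw [← h7, ← Real.exp_nat_mul]
        norm_num
      have hlog3 : 0 ≤ Real.log 3 := Real.log_nonneg (by norm_num)
      rw [h4, h6]
      calc Real.exp (Real.log 3 * K) ≤ Real.exp (Real.log 3 + 3 * x) := by
            apply Real.exp_le_exp.mpr
            have h7 : Real.log 3 * K ≤ Real.log 3 * (2 * x + 1) :=
              mul_le_mul_of_nonneg_left hK1 hlog3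
            nlinarith
        _ = 3 * Real.exp (3 * x) := by rw [Real.exp_add, Real.exp_log (by norm_num)]
    have h3K' : 3 ^ K ≤ 3 * n ^ 3 := by exact_mod_cast h3K
    have hn9 : 9 ≤ n := by
      have : (9 : ℝ) ≤ n := by nlinarith
      exact_mod_cast this
    calc (3 ^ K * (n + 2)) ^ 20 ≤ (3 * n ^ 3 * (3 * n)) ^ 20 := by
          apply Nat.pow_le_pow_left
          apply Nat.mul_le_mul h3K' (by omega)
      _ = 9 ^ 20 * n ^ 80 := by
          have : 3 * n ^ 3 * (3 * n) = 9 * n ^ 4 := by ring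
          rw [this, mul_pow, ← pow_mul]
      _ ≤ n ^ 20 * n ^ 80 := Nat.mul_le_mul_right _ (Nat.pow_le_pow_left hn9 20)
      _ = n ^ 100 := by rw [← pow_add]
  · intro p hp hp1 D
    have hp0 : 0 ≤ p := le_trans (by positivity) hp
    have hsub : ∀ (R : Finset (Fin n × Fin n)),
        ¬ (Dec ℋ s t (D ∪ ↑R) ↔ Connected (D ∪ ↑R) s t) →
        (K ≤ (rset fw (D ∪ ↑R) s).card ∧ K ≤ (rset bw (D ∪ ↑R) t).card ∧
          ¬ Rch fw (D ∪ ↑R) s t) := by
      intro R hR
      by_contra hcon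
      exact hR (dec_right hℋ2 hKpos (D ∪ ↑R) s t hcon)
    refine (pr_mono hp0 hp1 hsub).trans ?_
    have h4 : 16 / δ ^ 2 ≤ n := by
      rw [div_eq_mul_inv]
      nlinarith
    have h5 : 1 + 8 * δ ≤ p * n := by
      rw [div_le_iff₀ hnpos] at hp
      exact hp
    have h6 := above_explicit (V := Fin n) hδ0 hδ1 (by rw [Fintype.card_fin]; exact h4)
      (by rw [Fintype.card_fin]; exact h5) hp1 (K := K) (by rw [Fintype.card_fin]; exact hKδ) D s t
    refine h6.trans ?_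
    rw [Fintype.card_fin]
    have h7 : Real.exp (-(δ ^ 2 * K)) ≤ δ ^ 2 / 24 := by
      have h8 : Real.log (24 / δ ^ 2) ≤ δ ^ 2 * K := by
        have h9 : (δ ^ 2)⁻¹ * Real.log (24 / δ ^ 2) ≤ K := Nat.le_ceil _
        rw [inv_mul_le_iff₀ hδ2] at h9
        exact h9
      calc Real.exp (-(δ ^ 2 * K)) ≤ Real.exp (-Real.log (24 / δ ^ 2)) :=
            Real.exp_le_exp.mpr (by linarith)
        _ = δ ^ 2 / 24 := by
            rw [Real.exp_neg, Real.exp_log (by positivity), inv_div]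
    have h8 : (1 - Real.exp (-δ ^ 2))⁻¹ ≤ 2 / δ ^ 2 := by
      have h9 : δ ^ 2 / 2 ≤ 1 - Real.exp (-δ ^ 2) := by
        have h13 : δ ^ 2 ≤ 1 := by nlinarith
        exact half_le_one_sub_exp hδ2.le h13
      calc (1 - Real.exp (-δ ^ 2))⁻¹ ≤ (δ ^ 2 / 2)⁻¹ := inv_anti₀ (by positivity) h9
        _ = 2 / δ ^ 2 := by rw [inv_div]
    have h9 : (1 - Real.exp (-δ ^ 2))⁻¹ * Real.exp (-(δ ^ 2 * K)) ≤ 1 / 12 := by
      calc (1 - Real.exp (-δ ^ 2))⁻¹ * Real.exp (-(δ ^ 2 * K)) ≤ 2 / δ ^ 2 * (δ ^ 2 / 24) :=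
            mul_le_mul h8 h7 (Real.exp_pos _).le (by positivity)
        _ = 1 / 12 := by
            field_simp
            norm_num
    have h10 : Real.exp (-(δ ^ 4 / 64 * n)) ≤ 1 / 6 := by
      have h11 : 2 ≤ δ ^ 4 / 64 * n := by
        have h12 : 1 ≤ (δ ^ 2 * x) * (δ ^ 2 * x) := one_le_mul_of_one_le_of_one_le hδx' hδx'
        have h13 : δ ^ 4 * (128 * x ^ 2) ≤ δ ^ 4 * n :=
          mul_le_mul_of_nonneg_left h3 (by positivity)
        have h14 : δ ^ 4 * (128 * x ^ 2) = 128 * ((δ ^ 2 * x) * (δ ^ 2 * x)) := by ring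
        have h15 : δ ^ 4 / 64 * n = (δ ^ 4 * n) / 64 := by ring
        rw [h15]
        linarith
      calc Real.exp (-(δ ^ 4 / 64 * n)) ≤ Real.exp (-2) := Real.exp_le_exp.mpr (by linarith)
        _ ≤ 1 / 6 := by
            rw [Real.exp_neg, one_div]
            apply inv_anti₀ (by norm_num)
            have h14 : Real.exp 2 = Real.exp 1 * Real.exp 1 := by rw [← Real.exp_add]; norm_num
            have h15 : (2.7 : ℝ) ≤ Real.exp 1 := by
              have := Real.exp_one_gt_d9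
              linarith
            rw [h14]
            nlinarith
    linarith

end Pool.Agent.L5helper55.NT
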