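import Pool.Agent.L5helper55.NT.Net
import Mathlib

/-!
# Reduction to digraphs with in- and outdegrees at most two
-/

namespace Pool.Agent.L5helper55.NT

open Pool.Agent.L5helper12.SN Finset

/-- every vertex has at most two out-neighbours and at most two in-neighbours -/
def Deg2 {W : Type} (D : Set (W × W)) : Prop :=
  ∀ v : W, {w | (v, w) ∈ D}.ncard ≤ 2 ∧ {w | (w, v) ∈ D}.ncard ≤ 2

/-- the vertices of the gadget digraph -/
abbrev GV (m : ℕ) : Type := Fin m ⊕ (Fin m × Fin m) ⊕ (Fin m × Fin m)

/-- the arcs of the gadget digraph -/
inductive Gad {m : ℕ} (H : Set (Fin m × Fin m)) : GV m → GV m → Prop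
  | a (u i : Fin m) (hi : i.val = 0) : Gad H (.inl u) (.inr (.inl (u, i)))
  | b (u i j : Fin m) (h : i.val + 1 = j.val) : Gad H (.inr (.inl (u, i))) (.inr (.inl (u, j)))
  | c (u v : Fin m) (h : (u, v) ∈ H) : Gad H (.inr (.inl (u, v))) (.inr (.inr (v, u)))
  | d (v i j : Fin m) (h : i.val + 1 = j.val) : Gad H (.inr (.inr (v, i))) (.inr (.inr (v, j)))
  | e (v i : Fin m) (h : i.val + 1 = m) : Gad H (.inr (.inr (v, i))) (.inl v)

/-- the gadget digraph -/
def gad {m : ℕ} (H : Set (Fin m × Fin m)) : Set (GV m × GV m) := {e | Gad H e.1 e.2}

/-- the variable of an arc of the gadget digraph -/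
def gvar {m : ℕ} : GV m × GV m → Option (Fin m × Fin m)
  | (.inr (.inl (u, v)), .inr (.inr (v', u'))) => if v = v' ∧ u = u' then some (u, v) else none
  | _ => none

/-- the constant arcs -/
def gbase (m : ℕ) : Set (GV m × GV m) := gad (∅ : Set (Fin m × Fin m))

theorem gad_eq {m : ℕ} (H : Set (Fin m × Fin m)) :
    gad H = {e | e ∈ gbase m ∨ ∃ x ∈ H, gvar e = some x} := by
  ext ⟨x, y⟩
  constructor
  · intro h
    cases h with
    | a u i hi => exact Or.inl (.a u i hi)
    | b u i j h => exact Or.inl (.b u i j h)
    | c u v h => exact Or.inr ⟨(u, v), h, by simp [gvar]⟩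
    | d v i j h => exact Or.inl (.d v i j h)
    | e v i h => exact Or.inl (.e v i h)
  · rintro (h | ⟨⟨u, v⟩, hx, hv⟩)
    · cases h with
      | a u i hi => exact .a u i hi
      | b u i j h => exact .b u i j h
      | c u v h => exact h.elim
      | d v i j h => exact .d v i j h
      | e v i h => exact .e v i h
    · rcases x with x | ⟨u1, v1⟩ | ⟨v1, u1⟩
      · simp [gvar] at hv
      · rcases y with y | ⟨u2, v2⟩ | ⟨v2, u2⟩
        · simp [gvar] at hv
        · simp [gvar] at hv
        · simp only [gvar] at hv
          split_ifs at hv with hc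
          obtain ⟨rfl, rfl⟩ := hc
          simp only [Option.some.injEq, Prod.mk.injEq] at hv
          obtain ⟨rfl, rfl⟩ := hv
          exact .c _ _ hx
      · simp [gvar] at hv

theorem gad_deg {m : ℕ} (H : Set (Fin m × Fin m)) : Deg2 (gad H) := by
  intro x
  constructor
  · by_contra hcon
    push Not at hcon
    rw [Set.two_lt_ncard_iff (Set.toFinite _)] at hcon
    obtain ⟨p, q, r, hp, hq, hr, h1, h2, h3⟩ := hcon
    simp only [Set.mem_ofPred_eq] at hp hq hr
    cases hp with
    | a u i hi =>
      cases hq with
      | a _ j hj => exact h1 (by rw [Fin.ext (hi.trans hj.symm)])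
    | b u i j h =>
      cases hq with
      | b _ _ k h' => exact h1 (by rw [Fin.ext (h.symm.trans h')])
      | c _ _ h' =>
        cases hr with
        | b _ _ k h'' => exact h2 (by rw [Fin.ext (h.symm.trans h'')])
        | c _ _ h'' => exact h3 rfl
    | c u v h =>
      cases hq with
      | b _ _ k h' =>
        cases hr with
        | b _ _ l h'' => exact h3 (by rw [Fin.ext (h'.symm.trans h'')])
        | c _ _ h'' => exact h2 rfl
      | c _ _ h' => exact h1 rfl
    | d v i j h =>
      cases hq with
      | d _ _ k h' => exact h1 (by rw [Fin.ext (h.symm.trans h')])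
      | e _ _ h' =>
        have := j.2
        omega
    | e v i h =>
      cases hq with
      | d _ _ k h' =>
        have := k.2
        omega
      | e _ _ h' => exact h1 rfl
  · by_contra hcon
    push Not at hcon
    rw [Set.two_lt_ncard_iff (Set.toFinite _)] at hcon
    obtain ⟨p, q, r, hp, hq, hr, h1, h2, h3⟩ := hcon
    simp only [Set.mem_ofPred_eq] at hp hq hr
    cases hp with
    | a u i hi =>
      cases hq with
      | a _ j hj => exact h1 rfl
      | b _ k _ h' => omega
    | b u i j h =>
      cases hq with
      | a _ _ hj => omega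
      | b _ k _ h' => exact h1 (by rw [Fin.ext (Nat.add_right_cancel (h.trans h'.symm))])
    | c u v h =>
      cases hq with
      | c _ _ h' => exact h1 rfl
      | d _ k _ h' =>
        cases hr with
        | c _ _ h'' => exact h2 rfl
        | d _ l _ h'' => exact h3 (by rw [Fin.ext (Nat.add_right_cancel (h'.trans h''.symm))])
    | d v i j h =>
      cases hq with
      | c _ _ h' =>
        cases hr with
        | c _ _ h'' => exact h3 rfl
        | d _ l _ h'' => exact h2 (by rw [Fin.ext (Nat.add_right_cancel (h.trans h''.symm))])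
      | d _ k _ h' => exact h1 (by rw [Fin.ext (Nat.add_right_cancel (h.trans h'.symm))])
    | e v i h =>
      cases hq with
      | e _ k h' => exact h1 (by rw [Fin.ext (Nat.add_right_cancel (h.trans h'.symm))])

/-- the vertex of the original digraph to which a vertex of the gadget digraph belongs -/
def gown {m : ℕ} : GV m → Fin m
  | .inl u => u
  | .inr (.inl (u, _)) => u
  | .inr (.inr (v, _)) => v

theorem gad_connected {m : ℕ} (H : Set (Fin m × Fin m)) (s t : Fin m) :
    Connected (gad H) (.inl s) (.inl t) ↔ Connected H s t := by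
  constructor
  · intro h
    have key : ∀ x, Relation.ReflTransGen (fun u v => (u, v) ∈ gad H) (.inl s) x →
        Relation.ReflTransGen (fun u v => (u, v) ∈ H) s (gown x) := by
      intro x hx
      induction hx with
      | refl => exact Relation.ReflTransGen.refl
      | tail _ h2 ih =>
        cases h2 with
        | a u i hi => exact ih
        | b u i j h => exact ih
        | c u v h => exact Relation.ReflTransGen.tail ih h
        | d v i j h => exact ih
        | e v i h => exact ih
    exact key _ h
  · intro h
    have hout : ∀ (u : Fin m) (k : ℕ) (hk : k < m),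
        Relation.ReflTransGen (fun u v => (u, v) ∈ gad H) (.inl u) (.inr (.inl (u, ⟨k, hk⟩))) := by
      intro u k
      induction k with
      | zero => intro hk; exact Relation.ReflTransGen.single (.a u ⟨0, hk⟩ rfl)
      | succ k ih =>
        intro hk
        exact Relation.ReflTransGen.tail (ih (by omega)) (.b u ⟨k, by omega⟩ ⟨k + 1, hk⟩ rfl)
    have hin : ∀ (v : Fin m) (k : ℕ) (i : Fin m), i.val + 1 + k = m →
        Relation.ReflTransGen (fun u v => (u, v) ∈ gad H) (.inr (.inr (v, i))) (.inl v) := by
      intro v k
      induction k with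
      | zero => intro i hi; exact Relation.ReflTransGen.single (.e v i hi)
      | succ k ih =>
        intro i hi
        refine Relation.ReflTransGen.head (.d v i ⟨i.val + 1, by omega⟩ rfl) (ih _ ?_)
        simp only
        omega
    unfold Connected at *
    induction h with
    | refl => exact Relation.ReflTransGen.refl
    | tail _ h2 ih =>
      rename_i x y _
      refine ih.trans ((hout x y.val y.2).trans ?_)
      refine Relation.ReflTransGen.head (.c x y h2) (hin y (m - 1 - x.val) x ?_)
      have := x.2
      omega

/-- the contacts of the substitution -/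
inductive SubC {V W : Type} (B : Set (W × W)) (τ : W × W → Option (V × V)) (N : Network W) :
    N.Node → N.Node → Label V → Prop
  | free (x y : N.Node) (h : N.contact x y .free) : SubC B τ N x y .free
  | one (x y : N.Node) (e : W × W) (h : N.contact x y (.pos e)) (he : e ∈ B) : SubC B τ N x y .free
  | zero (x y : N.Node) (e : W × W) (h : N.contact x y (.neg e)) (he : e ∉ B)
      (he' : τ e = none) : SubC B τ N x y .free
  | pos (x y : N.Node) (e : W × W) (z : V × V) (h : N.contact x y (.pos e)) (he : τ e = some z) :
      SubC B τ N x y (.pos z)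
  | neg (x y : N.Node) (e : W × W) (z : V × V) (h : N.contact x y (.neg e)) (he : e ∉ B)
      (he' : τ e = some z) : SubC B τ N x y (.neg z)

/-- substitution of variables or constants for the variables -/
theorem comp_subst {V W : Type} (B : Set (W × W)) (τ : W × W → Option (V × V))
    {X : Set (W × W)} {S : ℕ} {F : Set (W × W) → Prop} (h : Comp X S F) :
    Comp {z : V × V | ∃ e ∈ X, τ e = some z} S
      (fun H => F {e | e ∈ B ∨ ∃ z ∈ H, τ e = some z}) := by
  obtain ⟨N, h1, h2, h3⟩ := h
  refine ⟨⟨N.Node, N.fin, N.source, N.target, SubC B τ N⟩, h1, ?_, ?_⟩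
  · intro x y z hc
    cases hc with
    | neg e _ h he he' => exact ⟨e, h2 _ _ _ h, he'⟩
  · intro H
    show _ ↔ F {e | e ∈ B ∨ ∃ z ∈ H, τ e = some z}
    rw [← h3]
    have key : ∀ x y : N.Node, Network.Joined (⟨N.Node, N.fin, N.source, N.target, SubC B τ N⟩ :
        Network V) H Set.univ x y ↔ N.Joined {e | e ∈ B ∨ ∃ z ∈ H, τ e = some z} Set.univ x y := by
      intro x y
      rw [joined_iff, joined_iff]
      constructor
      · rintro ⟨l, hl, hc⟩
        cases hl with
        | free h => exact ⟨.free, h, trivial⟩
        | one e h he => exact ⟨.pos e, h, Or.inl he⟩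
        | zero e h he he' =>
          refine ⟨.neg e, h, ?_⟩
          rintro (hb | ⟨z, _, hz⟩)
          · exact he hb
          · rw [he'] at hz; cases hz
        | pos e z h he => exact ⟨_, h, Or.inr ⟨z, hc, he⟩⟩
        | neg e z h he he' =>
          refine ⟨_, h, ?_⟩
          rintro (hb | ⟨z', hz', hz⟩)
          · exact he hb
          · rw [he'] at hz
            cases hz
            exact hc hz'
      · rintro ⟨l, hl, hc⟩
        cases l with
        | free => exact ⟨.free, .free x y hl, trivial⟩
        | pos e =>
          rcases hc with hb | ⟨z, hz, he⟩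
          · exact ⟨.free, .one x y e hl hb, trivial⟩
          · exact ⟨.pos z, .pos x y e z hl he, hz⟩
        | neg e =>
          have hc1 : e ∉ B := fun h => hc (Or.inl h)
          cases hτ : τ e with
          | none => exact ⟨.free, .zero x y e hl hc1 hτ, trivial⟩
          | some z =>
            refine ⟨.neg z, .neg x y e z hl hc1 hτ, ?_⟩
            intro h
            exact hc (Or.inr ⟨z, h, hτ⟩)
    constructor
    · intro h
      exact eqv_map id (fun x y hxy => (key x y).mp hxy) h
    · intro h
      exact eqv_map id (fun x y hxy => (key x y).mpr hxy) h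

end Pool.Agent.L5helper55.NT
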