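import Pool.Agent.L5helper55.NT.Expl

/-!
# Growth of the exploration and the link between two explorations
-/

namespace Pool.Agent.L5helper55.NT

open Finset

set_option linter.unusedSectionVars false

variable {V : Type} [Fintype V] [DecidableEq V]

open Classical in
/-- the random variable `z ^ (number of discovered vertices)` on the event that the exploration is alive
and has found at most `m` vertices -/
noncomputable def gz (σ : V × V ≃ V × V) (D : Set (V × V)) (s : V) (z : ℝ) (m k : ℕ)
    (R : Finset (V × V)) : ℝ :=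
  if (xpl σ (D ∪ ↑R) s k).1.card = k ∧ (xpl σ (D ∪ ↑R) s k).2.card ≤ m then
    z ^ (xpl σ (D ∪ ↑R) s k).2.card else 0

theorem gz_nonneg (σ : V × V ≃ V × V) (D : Set (V × V)) (s : V) {z : ℝ} (hz : 0 ≤ z) (m k : ℕ)
    (R : Finset (V × V)) : 0 ≤ gz σ D s z m k R := by
  unfold gz
  split_ifs
  · positivity
  · exact le_rfl

theorem grow_step (σ : V × V ≃ V × V) (D : Set (V × V)) (s : V) {p z : ℝ} (hp0 : 0 ≤ p)
    (hp1 : p ≤ 1) (hz0 : 0 ≤ z) (hz1 : z ≤ 1) (m k : ℕ) :
    ex p (gz σ D s z m (k + 1)) ≤ (1 - p + p * z) ^ (Fintype.card V - m) * ex p (gz σ D s z m k) := by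
  classical
  have hb0 : 0 ≤ 1 - p + p * z := by nlinarith
  have hb1 : 1 - p + p * z ≤ 1 := by nlinarith
  rw [ex_split p (fun R : Finset (V × V) => xpl σ (D ∪ ↑R) s k) (gz σ D s z m (k + 1)),
    ex_split p (fun R : Finset (V × V) => xpl σ (D ∪ ↑R) s k) (gz σ D s z m k), mul_sum]
  apply sum_le_sum
  intro x _
  have hR : 0 ≤ (1 - p + p * z) ^ (Fintype.card V - m) *
      ex p (fun R : Finset (V × V) => (if xpl σ (D ∪ ↑R) s k = x then 1 else 0) *
        gz σ D s z m k R) := by
    apply mul_nonneg (by positivity)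
    apply ex_nonneg hp0 hp1
    intro R
    apply mul_nonneg
    · split_ifs <;> norm_num
    · exact gz_nonneg σ D s hz0 m k R
  -- the trivial cases
  have triv : (∀ R : Finset (V × V), xpl σ (D ∪ ↑R) s k = x → gz σ D s z m (k + 1) R = 0) →
      ex p (fun R : Finset (V × V) => (if xpl σ (D ∪ ↑R) s k = x then 1 else 0) *
        gz σ D s z m (k + 1) R) ≤ (1 - p + p * z) ^ (Fintype.card V - m) *
      ex p (fun R : Finset (V × V) => (if xpl σ (D ∪ ↑R) s k = x then 1 else 0) *
        gz σ D s z m k R) := by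
    intro h
    refine le_trans (le_of_eq ?_) hR
    unfold ex
    apply sum_eq_zero
    intro R _
    by_cases hx : xpl σ (D ∪ ↑R) s k = x
    · have := h R hx
      simp [this]
    · simp [hx]
  by_cases hk : x.1.card = k
  swap
  · apply triv
    intro R hx
    unfold gz
    rw [if_neg]
    rintro ⟨h1, _⟩
    have h2 := (xpl_inv σ (D ∪ ↑R) s k).2.2.2.2.1
    rw [hx] at h2
    rw [xpl_succ, hx] at h1
    by_cases hn : (x.2 \ x.1).Nonempty
    · rw [stp_pos σ _ x hn] at h1
      have := card_insert_le hn.choose x.1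
      simp only at h1
      omega
    · rw [stp_neg σ _ x hn] at h1
      omega
  by_cases hn : (x.2 \ x.1).Nonempty
  swap
  · apply triv
    intro R hx
    unfold gz
    rw [if_neg]
    rintro ⟨h1, _⟩
    rw [xpl_succ, hx, stp_neg σ _ x hn] at h1
    omega
  by_cases hm : x.2.card ≤ m
  swap
  · apply triv
    intro R hx
    unfold gz
    rw [if_neg]
    rintro ⟨_, h1⟩
    rw [xpl_succ, hx] at h1
    have := card_le_card (stp_snd_mono σ (D ∪ ↑R) x)
    omega
  -- the main case
  have hv := hn.choose_spec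
  have hstp : ∀ G : Set (V × V), stp σ G x = (insert hn.choose x.1, x.2 ∪ out σ G hn.choose) :=
    fun G => stp_pos σ G x hn
  generalize hn.choose = v at hv hstp
  rw [mem_sdiff] at hv
  let T : Finset (V × V) := (univ \ x.2).image (fun w => σ (v, w))
  have hinj : Function.Injective (fun w : V => σ (v, w)) := by
    intro a b h
    have := σ.injective h
    exact (Prod.mk.inj this).2
  have hT : T.card = Fintype.card V - x.2.card := by
    rw [card_image_of_injective _ hinj, card_univ_sdiff]
  have hTcard : Fintype.card V - m ≤ T.card := by rw [hT]; omega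
  have h1 : ex p (fun R : Finset (V × V) => (if xpl σ (D ∪ ↑R) s k = x then 1 else 0) *
        gz σ D s z m (k + 1) R) ≤
      ex p (fun R : Finset (V × V) => (z ^ x.2.card * if xpl σ (D ∪ ↑R) s k = x then 1 else 0) *
        z ^ (R ∩ T).card) := by
    apply ex_mono hp0 hp1
    intro R
    by_cases hx : xpl σ (D ∪ ↑R) s k = x
    · simp only [hx, if_true, one_mul, mul_one]
      unfold gz
      split_ifs with hc
      · rw [← pow_add]
        apply pow_le_pow_of_le_one hz0 hz1
        rw [xpl_succ, hx, hstp]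
        simp only
        have hcard : (R ∩ T).card ≤ (out σ (D ∪ ↑R) v \ x.2).card := by
          have hsub : R ∩ T ⊆ (out σ (D ∪ ↑R) v \ x.2).image (fun w => σ (v, w)) := by
            intro e he
            simp only [T, mem_inter, mem_image, mem_sdiff, mem_univ, true_and] at he
            obtain ⟨he1, w, hw1, hw2⟩ := he
            rw [mem_image]
            refine ⟨w, ?_, hw2⟩
            rw [mem_sdiff, mem_out]
            refine ⟨Or.inr ?_, hw1⟩
            rw [hw2]
            exact he1
          exact (card_le_card hsub).trans card_image_le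
        have h2 : (x.2 ∪ out σ (D ∪ ↑R) v).card = x.2.card + (out σ (D ∪ ↑R) v \ x.2).card := by
          rw [← union_sdiff_self_eq_union, card_union_of_disjoint disjoint_sdiff]
        rw [h2]
        omega
      · positivity
    · simp [hx]
  have h2 : ex p (fun R : Finset (V × V) =>
        (z ^ x.2.card * if xpl σ (D ∪ ↑R) s k = x then 1 else 0) * z ^ (R ∩ T).card) =
      ex p (fun R : Finset (V × V) => z ^ x.2.card * if xpl σ (D ∪ ↑R) s k = x then 1 else 0) *
        (1 - p + p * z) ^ T.card := by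
    rw [ex_mul p T]
    · rw [moment]
    · intro R R' hRR
      have key : ∀ R R' : Finset (V × V), R \ T = R' \ T → xpl σ (D ∪ ↑R) s k = x →
          xpl σ (D ∪ ↑R') s k = x := by
        intro R R' hRR hx
        rw [← hx]
        apply xpl_congr
        intro u hu w
        rw [hx] at hu
        have hne : σ (u, w) ∉ T := by
          intro he
          simp only [T, mem_image] at he
          obtain ⟨w', _, hw'⟩ := he
          have := σ.injective hw'
          rw [Prod.mk.injEq] at this
          exact hv.2 (this.1 ▸ hu)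
        have h3 : σ (u, w) ∈ R ↔ σ (u, w) ∈ R' := by
          have := congrArg (fun A => σ (u, w) ∈ A) hRR
          simpa [hne] using this
        simp only [Set.mem_union, mem_coe, h3]
      have hiff : xpl σ (D ∪ ↑R) s k = x ↔ xpl σ (D ∪ ↑R') s k = x :=
        ⟨key R R' hRR, key R' R hRR.symm⟩
      simp only [hiff]
    · intro R R' hRR
      simp only [hRR]
  have h3 : ex p (fun R : Finset (V × V) => (if xpl σ (D ∪ ↑R) s k = x then 1 else 0) *
        gz σ D s z m k R) =
      ex p (fun R : Finset (V × V) => z ^ x.2.card *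
        if xpl σ (D ∪ ↑R) s k = x then 1 else 0) := by
    congr 1
    funext R
    by_cases hx : xpl σ (D ∪ ↑R) s k = x
    · simp only [hx, if_true, one_mul, mul_one]
      unfold gz
      rw [if_pos]
      · rw [hx]
      · rw [hx]; exact ⟨hk, hm⟩
    · simp [hx]
  rw [h3]
  refine h1.trans ?_
  rw [h2, mul_comm]
  apply mul_le_mul_of_nonneg_right
  · exact pow_le_pow_of_le_one hb0 hb1 hTcard
  · apply ex_nonneg hp0 hp1
    intro R
    apply mul_nonneg (by positivity)
    split_ifs <;> norm_num

theorem grow (σ : V × V ≃ V × V) (D : Set (V × V)) (s : V) {p z : ℝ} (hp0 : 0 ≤ p)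
    (hp1 : p ≤ 1) (hz0 : 0 ≤ z) (hz1 : z ≤ 1) (m k : ℕ) :
    ex p (gz σ D s z m k) ≤ ((1 - p + p * z) ^ (Fintype.card V - m)) ^ k := by
  have hb0 : 0 ≤ 1 - p + p * z := by nlinarith
  induction k with
  | zero =>
    rw [pow_zero, ← ex_one (ι := V × V) p]
    apply ex_mono hp0 hp1
    intro R
    unfold gz
    split_ifs
    · exact pow_le_one₀ hz0 hz1
    · norm_num
  | succ k ih =>
    refine (grow_step σ D s hp0 hp1 hz0 hz1 m k).trans ?_
    rw [pow_succ, mul_comm]
    exact mul_le_mul_of_nonneg_right ih (by positivity)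

/-- the exploration finds only `m` vertices in `k` steps -/
theorem grow_pr (σ : V × V ≃ V × V) (D : Set (V × V)) (s : V) {p z : ℝ} (hp0 : 0 ≤ p)
    (hp1 : p ≤ 1) (hz0 : 0 < z) (hz1 : z ≤ 1) (m k : ℕ) :
    pr p (fun R : Finset (V × V) => (xpl σ (D ∪ ↑R) s k).1.card = k ∧
      (xpl σ (D ∪ ↑R) s k).2.card ≤ m) ≤
      (z ^ m)⁻¹ * ((1 - p + p * z) ^ (Fintype.card V - m)) ^ k := by
  classical
  have h1 : pr p (fun R : Finset (V × V) => (xpl σ (D ∪ ↑R) s k).1.card = k ∧
      (xpl σ (D ∪ ↑R) s k).2.card ≤ m) ≤ ex p (fun R => (z ^ m)⁻¹ * gz σ D s z m k R) := by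
    apply pr_le_ex hp0 hp1
    · intro R
      exact mul_nonneg (by positivity) (gz_nonneg σ D s hz0.le m k R)
    · rintro R ⟨h1, h2⟩
      unfold gz
      rw [if_pos ⟨h1, h2⟩]
      have h3 : z ^ m ≤ z ^ (xpl σ (D ∪ ↑R) s k).2.card := pow_le_pow_of_le_one hz0.le hz1 h2
      have h4 : 0 < z ^ m := by positivity
      calc (1 : ℝ) = (z ^ m)⁻¹ * z ^ m := by field_simp
        _ ≤ _ := mul_le_mul_of_nonneg_left h3 (by positivity)
  refine h1.trans ?_
  rw [ex_const_mul]
  exact mul_le_mul_of_nonneg_left (grow σ D s hp0 hp1 hz0.le hz1 m k) (by positivity)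

/-- forward orientation -/
abbrev fw : V × V ≃ V × V := Equiv.refl _

/-- backward orientation -/
abbrev bw : V × V ≃ V × V := Equiv.prodComm V V

theorem link (D : Set (V × V)) (s t : V) {p : ℝ} (hp0 : 0 ≤ p) (hp1 : p ≤ 1) (k a : ℕ) :
    pr p (fun R : Finset (V × V) =>
      a ≤ ((xpl fw (D ∪ ↑R) s k).2 \ (xpl fw (D ∪ ↑R) s k).1).card ∧
      a ≤ ((xpl bw (D ∪ ↑R) t k).2 \ (xpl bw (D ∪ ↑R) t k).1).card ∧
      ¬ Rch fw (D ∪ ↑R) s t) ≤ (1 - p) ^ (a * a) := by
  classical
  rw [pr_def, ex_split p (fun R : Finset (V × V) => (xpl fw (D ∪ ↑R) s k, xpl bw (D ∪ ↑R) t k))]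
  have hone : ∑ x : (Finset V × Finset V) × (Finset V × Finset V),
      ex p (fun R : Finset (V × V) =>
        (if (xpl fw (D ∪ ↑R) s k, xpl bw (D ∪ ↑R) t k) = x then (1 : ℝ) else 0) * 1) = 1 := by
    rw [← ex_split p (fun R : Finset (V × V) => (xpl fw (D ∪ ↑R) s k, xpl bw (D ∪ ↑R) t k))
      (fun _ => 1), ex_one]
  have hfin : (1 - p) ^ (a * a) = ∑ x : (Finset V × Finset V) × (Finset V × Finset V),
      (1 - p) ^ (a * a) * ex p (fun R : Finset (V × V) =>
        (if (xpl fw (D ∪ ↑R) s k, xpl bw (D ∪ ↑R) t k) = x then (1 : ℝ) else 0)) := by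
    simp only [mul_one] at hone
    rw [← mul_sum, hone, mul_one]
  rw [hfin]
  apply sum_le_sum
  rintro ⟨x, y⟩ _
  have hind : 0 ≤ ex p (fun R : Finset (V × V) =>
        (if (xpl fw (D ∪ ↑R) s k, xpl bw (D ∪ ↑R) t k) = (x, y) then (1 : ℝ) else 0)) := by
    apply ex_nonneg hp0 hp1
    intro R
    split_ifs <;> norm_num
  by_cases hxy : a ≤ (x.2 \ x.1).card ∧ a ≤ (y.2 \ y.1).card
  swap
  · refine le_trans (le_of_eq ?_) (mul_nonneg (pow_nonneg (by linarith) _) hind)
    unfold ex
    apply sum_eq_zero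
    intro R _
    by_cases h : (xpl fw (D ∪ ↑R) s k, xpl bw (D ∪ ↑R) t k) = (x, y)
    · rw [Prod.mk.injEq] at h
      have h' : ¬ (a ≤ (x.2 \ x.1).card ∧ a ≤ (y.2 \ y.1).card ∧ ¬ Rch fw (D ∪ ↑R) s t) :=
        fun hc => hxy ⟨hc.1, hc.2.1⟩
      simp only [h.1, h.2, h', if_false, mul_zero]
    · simp only [h, if_false, zero_mul, mul_zero]
  let T : Finset (V × V) := (x.2 \ x.1) ×ˢ (y.2 \ y.1)
  have h1 : ex p (fun R : Finset (V × V) =>
      (if (xpl fw (D ∪ ↑R) s k, xpl bw (D ∪ ↑R) t k) = (x, y) then (1 : ℝ) else 0) *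
      if a ≤ ((xpl fw (D ∪ ↑R) s k).2 \ (xpl fw (D ∪ ↑R) s k).1).card ∧
      a ≤ ((xpl bw (D ∪ ↑R) t k).2 \ (xpl bw (D ∪ ↑R) t k).1).card ∧
      ¬ Rch fw (D ∪ ↑R) s t then 1 else 0) ≤
      ex p (fun R : Finset (V × V) =>
      (if (xpl fw (D ∪ ↑R) s k, xpl bw (D ∪ ↑R) t k) = (x, y) then (1 : ℝ) else 0) *
      (0 : ℝ) ^ (R ∩ T).card) := by
    apply ex_mono hp0 hp1
    intro R
    by_cases h : (xpl fw (D ∪ ↑R) s k, xpl bw (D ∪ ↑R) t k) = (x, y)
    · simp only [h, if_true, one_mul]
      split_ifs with hc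
      · have he : R ∩ T = ∅ := by
          rw [eq_empty_iff_forall_notMem]
          rintro ⟨u, w⟩ he
          simp only [T, mem_inter, mem_product, mem_sdiff] at he
          rw [Prod.mk.injEq] at h
          apply hc.2.2
          have hu : Rch fw (D ∪ ↑R) s u := by
            apply (xpl_inv fw (D ∪ ↑R) s k).2.2.1
            rw [h.1]
            exact he.2.1.1
          have hw : Rch bw (D ∪ ↑R) t w := by
            apply (xpl_inv bw (D ∪ ↑R) t k).2.2.1
            rw [h.2]
            exact he.2.2.1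
          have huw : Rch fw (D ∪ ↑R) u w :=
            Relation.ReflTransGen.single (show ((u, w) : V × V) ∈ (D ∪ ↑R : Set (V × V)) from
              Or.inr he.1)
          have hwt : Rch fw (D ∪ ↑R) w t := by
            have := Relation.reflTransGen_swap.mpr hw
            exact this
          exact (hu.trans huw).trans hwt
        rw [he]
        simp
      · exact pow_nonneg le_rfl _
    · simp [h]
  refine h1.trans ?_
  rw [ex_mul p T, moment]
  · rw [mul_zero, add_zero, mul_comm]
    apply mul_le_mul_of_nonneg_right _ hind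
    apply pow_le_pow_of_le_one (by linarith) (by linarith)
    rw [card_product]
    exact Nat.mul_le_mul hxy.1 hxy.2
  · intro R R' hRR
    have key : ∀ R R' : Finset (V × V), R \ T = R' \ T →
        (xpl fw (D ∪ ↑R) s k, xpl bw (D ∪ ↑R) t k) = (x, y) →
        (xpl fw (D ∪ ↑R') s k, xpl bw (D ∪ ↑R') t k) = (x, y) := by
      intro R R' hRR h
      rw [Prod.mk.injEq] at h ⊢
      have hT : ∀ e, e ∉ T → (e ∈ R ↔ e ∈ R') := by
        intro e he
        have := congrArg (fun A => e ∈ A) hRR
        simpa [he] using this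
      constructor
      · rw [← h.1]
        apply xpl_congr
        intro u hu w
        rw [h.1] at hu
        have hne : ((u, w) : V × V) ∉ T := by
          simp only [T, mem_product, mem_sdiff, not_and]
          intro h'
          exact absurd hu h'.2
        have := hT _ hne
        simp only [Equiv.refl_apply, Set.mem_union, mem_coe, this]
      · rw [← h.2]
        apply xpl_congr
        intro u hu w
        rw [h.2] at hu
        have hne : ((w, u) : V × V) ∉ T := by
          simp only [T, mem_product, mem_sdiff, not_and]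
          intro _ _ h'
          exact h' hu
        have := hT _ hne
        simp only [Equiv.prodComm_apply, Prod.swap_prod_mk, Set.mem_union, mem_coe, this]
    have hiff := (⟨key R R' hRR, key R' R hRR.symm⟩ : _ ↔ _)
    simp only [hiff]
  · intro R R' hRR
    simp only [hRR]

end Pool.Agent.L5helper55.NT
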