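import Mathlib

/-!
# Perfect hash families of simply exponential size
-/

namespace Pool.Agent.L5helper55.NT

open Finset

/-- greedy covering -/
theorem greedy {A B : Type} [DecidableEq A] [Fintype B] [DecidableEq B] (good : A → B → Prop)
    [∀ a, DecidablePred (good a)] {ρ : ℝ} (hρ1 : ρ ≤ 1) (𝒜 : Finset A)
    (h : ∀ a ∈ 𝒜, ρ * Fintype.card B ≤ ((univ : Finset B).filter (good a)).card)
    (hB : 0 < Fintype.card B) (T : ℕ) :
    ∃ ℬ : Finset B, ℬ.card ≤ T ∧
      ((𝒜.filter (fun a => ∀ b ∈ ℬ, ¬ good a b)).card : ℝ) ≤ (1 - ρ) ^ T * 𝒜.card := by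
  induction T with
  | zero => exact ⟨∅, by simp, by simp⟩
  | succ T ih =>
    obtain ⟨ℬ, h1, h2⟩ := ih
    set U := 𝒜.filter (fun a => ∀ b ∈ ℬ, ¬ good a b) with hU
    -- some `b` covers many elements of `U`
    have hex : ∃ b : B, ρ * U.card ≤ (U.filter (fun a => good a b)).card := by
      by_contra hcon
      push Not at hcon
      have hsum : ∑ b : B, ((U.filter (fun a => good a b)).card : ℝ) =
          ∑ a ∈ U, (((univ : Finset B).filter (good a)).card : ℝ) := by
        have := sum_card_bipartiteAbove_eq_sum_card_bipartiteBelow (s := U) (t := (univ : Finset B))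
          (r := good)
        unfold bipartiteAbove bipartiteBelow at this
        exact_mod_cast this.symm
      have h3 : ∑ b : B, ((U.filter (fun a => good a b)).card : ℝ) < ∑ _b : B, ρ * U.card := by
        apply sum_lt_sum_of_nonempty
        · rw [← card_pos, card_univ]; exact hB
        · intro b _
          exact hcon b
      rw [hsum, sum_const, card_univ, nsmul_eq_mul] at h3
      have h4 : ∑ a ∈ U, ρ * (Fintype.card B : ℝ) ≤
          ∑ a ∈ U, (((univ : Finset B).filter (good a)).card : ℝ) := by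
        apply sum_le_sum
        intro a ha
        exact h a (mem_filter.mp ha).1
      rw [sum_const, nsmul_eq_mul] at h4
      nlinarith
    obtain ⟨b, hb⟩ := hex
    refine ⟨insert b ℬ, (card_insert_le _ _).trans (by omega), ?_⟩
    have h3 : 𝒜.filter (fun a => ∀ b' ∈ insert b ℬ, ¬ good a b') = U.filter (fun a => ¬ good a b) := by
      ext a
      simp only [hU, mem_filter, mem_insert, forall_eq_or_imp]
      tauto
    rw [h3]
    have h4 := card_filter_add_card_filter_not (s := U) (fun a => good a b)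
    have h5 : ((U.filter (fun a => good a b)).card : ℝ) + (U.filter (fun a => ¬ good a b)).card =
        U.card := by exact_mod_cast h4
    rw [pow_succ]
    have h6 : 0 ≤ 1 - ρ := by linarith
    nlinarith

theorem three_pow (m : ℕ) : (1 / 3 : ℝ) ^ m * (m : ℝ) ^ m ≤ m.factorial := by
  have h1 := Real.pow_div_factorial_le_exp (m : ℝ) (by positivity) m
  have h2 : Real.exp (m : ℝ) ≤ 3 ^ m := by
    have h3 : Real.exp 1 ≤ 3 := by
      have := Real.exp_one_lt_d9
      linarith
    calc Real.exp (m : ℝ) = Real.exp 1 ^ m := by rw [← Real.exp_nat_mul]; simp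
      _ ≤ 3 ^ m := pow_le_pow_left₀ (Real.exp_pos _).le h3 m
  have h3 : (0 : ℝ) < m.factorial := by exact_mod_cast Nat.factorial_pos m
  have h4 : (m : ℝ) ^ m ≤ 3 ^ m * m.factorial := by
    rw [div_le_iff₀ h3] at h1
    nlinarith
  rw [one_div, inv_pow]
  have h5 : (0 : ℝ) < 3 ^ m := by positivity
  rw [inv_mul_le_iff₀ h5]
  exact h4

open Classical in
theorem inj_count {V : Type} [Fintype V] (m : ℕ) (Z : Finset V) (hZ : Z.card = m) :
    (1 / 3 : ℝ) ^ m * Fintype.card (V → Fin m) ≤
      ((univ : Finset (V → Fin m)).filter (fun h => Set.InjOn h ↑Z)).card := by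
  have hcard : Fintype.card {v // v ∈ Z} = m := by rw [Fintype.card_coe, hZ]
  have hequiv : Nonempty ({v // v ∈ Z} ≃ Fin m) := ⟨Fintype.equivFinOfCardEq hcard⟩
  obtain ⟨e0⟩ := hequiv
  let Φ : ({v // v ∈ Z} ≃ Fin m) × ({v // v ∉ Z} → Fin m) → (V → Fin m) :=
    fun x v => if h : v ∈ Z then x.1 ⟨v, h⟩ else x.2 ⟨v, h⟩
  have hΦ : Function.Injective Φ := by
    rintro ⟨e, g⟩ ⟨e', g'⟩ h
    have h1 : e = e' := by
      ext ⟨v, hv⟩
      have := congrFun h v
      simp only [Φ, hv, dif_pos] at this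
      rw [this]
    have h2 : g = g' := by
      ext ⟨v, hv⟩
      have := congrFun h v
      simp only [Φ, hv, dif_neg, not_false_eq_true] at this
      rw [this]
    rw [h1, h2]
  have h1 : (univ.image Φ) ⊆ (univ : Finset (V → Fin m)).filter (fun h => Set.InjOn h ↑Z) := by
    intro h hh
    rw [mem_image] at hh
    obtain ⟨⟨e, g⟩, _, rfl⟩ := hh
    simp only [mem_filter, mem_univ, true_and]
    intro a ha b hb hab
    rw [mem_coe] at ha hb
    simp only [Φ, ha, hb, dif_pos] at hab
    have := e.injective hab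
    exact congrArg Subtype.val this
  have h2 := card_le_card h1
  rw [card_image_of_injective _ hΦ, card_univ, Fintype.card_prod, Fintype.card_equiv e0, hcard,
    Fintype.card_fun, Fintype.card_fin] at h2
  have h3 : Fintype.card {v // v ∉ Z} = Fintype.card V - m := by
    rw [Fintype.card_subtype_compl, Fintype.card_coe, hZ]
  rw [h3] at h2
  have h4 : m ≤ Fintype.card V := by
    rw [← hZ]
    exact card_le_univ Z
  rw [Fintype.card_fun, Fintype.card_fin]
  have h5 : ((m ^ Fintype.card V : ℕ) : ℝ) = (m : ℝ) ^ m * (m : ℝ) ^ (Fintype.card V - m) := by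
    rw [← pow_add]
    push_cast
    congr 1
    omega
  rw [h5, ← mul_assoc]
  calc (1 / 3 : ℝ) ^ m * (m : ℝ) ^ m * (m : ℝ) ^ (Fintype.card V - m) ≤
        m.factorial * (m : ℝ) ^ (Fintype.card V - m) :=
        mul_le_mul_of_nonneg_right (three_pow m) (by positivity)
    _ ≤ _ := by exact_mod_cast h2

/-- there are few functions to `Fin m` such that each set of at most `m` elements is mapped injectively
by one of them -/
theorem hash_family {V : Type} [Fintype V] (m : ℕ) (hm : 1 ≤ m) (hmV : m ≤ Fintype.card V) :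
    ∃ ℋ : Finset (V → Fin m), ℋ.card ≤ 3 ^ m * m * Fintype.card V + 1 ∧
      ∀ Z : Finset V, Z.card ≤ m → ∃ h ∈ ℋ, Set.InjOn h (↑Z : Set V) := by
  classical
  set n := Fintype.card V with hn
  have hn1 : 1 ≤ n := hm.trans hmV
  have hB : 0 < Fintype.card (V → Fin m) := by
    rw [Fintype.card_fun, Fintype.card_fin]
    positivity
  obtain ⟨ℋ, h1, h2⟩ := greedy (A := Finset V) (B := V → Fin m)
    (fun (Z : Finset V) h => Set.InjOn h (↑Z : Set V)) (ρ := (1 / 3) ^ m)
    (pow_le_one₀ (by norm_num) (by norm_num)) (powersetCard m univ)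
    (fun Z hZ => inj_count m Z (mem_powersetCard.mp hZ).2) hB (3 ^ m * m * n + 1)
  refine ⟨ℋ, h1, ?_⟩
  have h3 : (((powersetCard m (univ : Finset V)).filter
      (fun Z : Finset V => ∀ h ∈ ℋ, ¬ Set.InjOn h (↑Z : Set V))).card : ℝ) < 1 := by
    refine lt_of_le_of_lt h2 ?_
    rw [card_powersetCard, card_univ, ← hn]
    have h4 : ((n.choose m : ℕ) : ℝ) ≤ (n : ℝ) ^ m := by exact_mod_cast Nat.choose_le_pow _ _
    have h5 : (1 - (1 / 3 : ℝ) ^ m) ^ (3 ^ m * m * n + 1) ≤
        Real.exp (-((1 / 3 : ℝ) ^ m * (3 ^ m * m * n + 1 : ℕ))) := by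
      have h6 : 0 ≤ 1 - (1 / 3 : ℝ) ^ m := by
        have : (1 / 3 : ℝ) ^ m ≤ 1 := pow_le_one₀ (by norm_num) (by norm_num)
        linarith
      calc (1 - (1 / 3 : ℝ) ^ m) ^ (3 ^ m * m * n + 1) ≤
            (Real.exp (-(1 / 3 : ℝ) ^ m)) ^ (3 ^ m * m * n + 1) :=
            pow_le_pow_left₀ h6 (by linarith [Real.add_one_le_exp (-(1 / 3 : ℝ) ^ m)]) _
        _ = _ := by
            rw [← Real.exp_nat_mul]
            congr 1
            ring
    have h7 : (m : ℝ) * n < (1 / 3 : ℝ) ^ m * (3 ^ m * m * n + 1 : ℕ) := by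
      have h8 : (1 / 3 : ℝ) ^ m * 3 ^ m = 1 := by rw [← mul_pow]; norm_num
      have h9 : (0 : ℝ) < (1 / 3 : ℝ) ^ m := by positivity
      push_cast
      have : (1 / 3 : ℝ) ^ m * (3 ^ m * m * n + 1) =
          ((1 / 3 : ℝ) ^ m * 3 ^ m) * (m * n) + (1 / 3 : ℝ) ^ m := by ring
      rw [this, h8]
      linarith
    have h10 : (n : ℝ) ^ m ≤ Real.exp (m * n) := by
      have h11 : (n : ℝ) ≤ Real.exp n := by
        have := Real.add_one_le_exp (n : ℝ)
        linarith
      calc (n : ℝ) ^ m ≤ (Real.exp n) ^ m := pow_le_pow_left₀ (by positivity) h11 m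
        _ = _ := by rw [← Real.exp_nat_mul]
    calc (1 - (1 / 3 : ℝ) ^ m) ^ (3 ^ m * m * n + 1) * (n.choose m : ℝ) ≤
          Real.exp (-((1 / 3 : ℝ) ^ m * (3 ^ m * m * n + 1 : ℕ))) * Real.exp (m * n) := by
          apply mul_le_mul h5 (h4.trans h10) (by positivity) (Real.exp_pos _).le
      _ = Real.exp (-((1 / 3 : ℝ) ^ m * (3 ^ m * m * n + 1 : ℕ)) + m * n) := by
          rw [Real.exp_add]
      _ < 1 := by
          rw [Real.exp_lt_one_iff]
          linarith
  have h4 : ((powersetCard m (univ : Finset V)).filter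
      (fun Z : Finset V => ∀ h ∈ ℋ, ¬ Set.InjOn h (↑Z : Set V))).card = 0 := by
    have : ((powersetCard m (univ : Finset V)).filter
      (fun Z : Finset V => ∀ h ∈ ℋ, ¬ Set.InjOn h (↑Z : Set V))).card < 1 := by exact_mod_cast h3
    omega
  rw [card_eq_zero] at h4
  intro Z hZ
  obtain ⟨Z', hZ1, hZ2⟩ := exists_superset_card_eq hZ hmV
  by_contra hcon
  push Not at hcon
  have : Z' ∈ (powersetCard m (univ : Finset V)).filter
      (fun Z : Finset V => ∀ h ∈ ℋ, ¬ Set.InjOn h (↑Z : Set V)) := by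
    rw [mem_filter, mem_powersetCard]
    refine ⟨⟨subset_univ _, hZ2⟩, ?_⟩
    intro h hh hinj
    exact hcon h hh (hinj.mono (by exact_mod_cast hZ1))
  rw [h4] at this
  exact absurd this (notMem_empty _)

end Pool.Agent.L5helper55.NT
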