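import Pool.Agent.L5helper55.NT.Crit
import Pool.Agent.L5helper55.NT.Amp
import Pool.Agent.L5helper55.NT.AAN
import Pool.Agent.L5helper55.NT.Gadget

/-!
# Below and at the threshold the noise does not help
-/

namespace Pool.Agent.L5helper55.NT

open Pool.Agent.L5helper12.SN Finset

theorem connected_img {V W : Type} {f : V → W} (hf : Function.Injective f) (H : Set (V × V))
    (s t : V) : Connected (img f H) (f s) (f t) ↔ Connected H s t := by
  constructor
  · intro h
    have key : ∀ x, Relation.ReflTransGen (fun u v => (u, v) ∈ img f H) (f s) x →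
        ∃ y, x = f y ∧ Relation.ReflTransGen (fun u v => (u, v) ∈ H) s y := by
      intro x hx
      induction hx with
      | refl => exact ⟨s, rfl, Relation.ReflTransGen.refl⟩
      | tail h1 h2 ih =>
        obtain ⟨y, rfl, hy⟩ := ih
        obtain ⟨⟨u, v⟩, huv, he⟩ := h2
        rw [Prod.mk.injEq] at he
        have hyu : y = u := hf he.1
        subst hyu
        exact ⟨v, he.2, hy.tail huv⟩
    obtain ⟨y, hy, h1⟩ := key _ h
    have : t = y := hf hy
    rw [this]
    exact h1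
  · intro h
    unfold Connected at *
    have := Relation.ReflTransGen.lift (r := fun u v => (u, v) ∈ H)
      (p := fun u v => (u, v) ∈ img f H) f (fun a b hab => ⟨(a, b), hab, rfl⟩) _ _ h
    exact this

/-- Derandomisation, general form. `Γ H` is a digraph on the vertex set `W` with arcs inside `U` only,
which is connected from `s'` to `t'` if and only if `H` is connected from `s` to `t`; the noise does not
connect vertices of `U`. A network which decides the noisy digraphs `Γ H` with probability `2 / 3` gives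
a network which decides `H`. -/
theorem derand {V W : Type} [Fintype V] [Fintype W] [DecidableEq W] {p : ℝ} (hp0 : 0 ≤ p)
    (hp1 : p ≤ 1) (U : Finset W) (Γ : Set (V × V) → Set (W × W)) (X' : Set (V × V)) (s t : V)
    (s' t' : W) (hs' : s' ∈ U) (ht' : t' ∈ U) (hU : ∀ H, ∀ e ∈ Γ H, e.1 ∈ U ∧ e.2 ∈ U)
    (hΓ : ∀ H, Connected (Γ H) s' t' ↔ Connected H s t)
    (hshort : pr p (fun R : Finset (W × W) => ∃ u ∈ U, ∃ w ∈ U, u ≠ w ∧
      Relation.ReflTransGen (fun a b => (a, b) ∈ R) u w) ≤ 1 / 12) (N : Network W)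
    (hcomp : ∀ R : Finset (W × W), Comp X' N.size (fun H => N.Accepts (Γ H ∪ ↑R)))
    (hN : ∀ H, pr p (fun R : Finset (W × W) =>
      ¬ (N.Accepts (Γ H ∪ ↑R) ↔ Connected (Γ H ∪ ↑R) s' t')) ≤ 1 / 3)
    {m : ℕ} (hm : Fintype.card V = m) (hm1 : 1 ≤ m) :
    Comp X' (9 ^ 5 * 16 * m ^ 8 * N.size) (fun H => Connected H s t) := by
  classical
  have hS : 1 ≤ N.size := by
    let _ := N.fin
    exact Fintype.card_pos_iff.mpr ⟨N.source⟩
  apply Amp.derandomize hS _ hm hm1
  refine ⟨Finset (W × W), inferInstance, wt p, fun R H => N.Accepts (Γ H ∪ ↑R), ?_, ?_, hcomp, ?_⟩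
  · exact fun R => wt_nonneg hp0 hp1 R
  · have := ex_one (ι := W × W) p
    unfold ex at this
    simpa using this
  · intro H
    have h1 : ∑ R : Finset (W × W), wt p R *
        (if (N.Accepts (Γ H ∪ ↑R) ↔ Connected H s t) then (0 : ℝ) else 1) =
        pr p (fun R : Finset (W × W) => ¬ (N.Accepts (Γ H ∪ ↑R) ↔ Connected H s t)) := by
      rw [pr_def]
      unfold ex
      apply sum_congr rfl
      intro R _
      by_cases h : (N.Accepts (Γ H ∪ ↑R) ↔ Connected H s t) <;> simp [h]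
    rw [h1]
    have h2 : pr p (fun R : Finset (W × W) => ¬ (N.Accepts (Γ H ∪ ↑R) ↔ Connected H s t)) ≤
        pr p (fun R : Finset (W × W) =>
          ¬ (N.Accepts (Γ H ∪ ↑R) ↔ Connected (Γ H ∪ ↑R) s' t') ∨
          ∃ u ∈ U, ∃ w ∈ U, u ≠ w ∧ Relation.ReflTransGen (fun a b => (a, b) ∈ R) u w) := by
      apply pr_mono hp0 hp1
      intro R hR
      by_contra hcon
      rw [not_or, not_not] at hcon
      obtain ⟨hcon1, hcon2⟩ := hcon
      apply hR
      rw [hcon1]
      constructor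
      · intro h
        rw [← hΓ H]
        apply no_shortcut (↑U : Set W) (Γ H) R _ _ (mem_coe.mpr hs') (mem_coe.mpr ht') h
        · intro e he
          exact hU H e he
        · intro u hu w hw huw h'
          exact hcon2 ⟨u, by exact_mod_cast hu, w, by exact_mod_cast hw, huw, h'⟩
      · intro h
        rw [← hΓ H] at h
        unfold Connected at *
        exact Relation.ReflTransGen.mono (fun a b hab => Or.inl hab) _ _ h
    have h3 := pr_or hp0 hp1 (fun R : Finset (W × W) =>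
        ¬ (N.Accepts (Γ H ∪ ↑R) ↔ Connected (Γ H ∪ ↑R) s' t'))
      (fun R : Finset (W × W) => ∃ u ∈ U, ∃ w ∈ U, u ≠ w ∧
            Relation.ReflTransGen (fun a b => (a, b) ∈ R) u w)
    have h4 := hN H
    linarith

/-- numerical consequence for the number of variables which are not negated -/
theorem count_bound : ∃ C : ℝ, 0 < C ∧ ∀ (m S : ℕ) (s t : Fin m), s ≠ t → 1 ≤ S →
    ∀ X : Set (Fin m × Fin m), Comp X (9 ^ 5 * 16 * m ^ 8 * S) (fun H => Connected H s t) →
    ({e : Fin m × Fin m | e ∉ X}.ncard : ℝ) ≤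
      m * Real.exp (C * (1 + √(Real.log (m * S)))) := by
  obtain ⟨C, hC, hmain⟩ := almost_all_negated
  refine ⟨5 * C, by positivity, ?_⟩
  intro m S s t hst hS X hcomp
  obtain ⟨N', h1, h2, h3⟩ := hcomp
  have h4 := hmain m s t hst N' h3
  have hm1 : 1 ≤ m := by
    have := s.2
    omega
  have hS' : 1 ≤ N'.size := by
    let _ := N'.fin
    exact Fintype.card_pos_iff.mpr ⟨N'.source⟩
  have hmr : (1 : ℝ) ≤ m := by exact_mod_cast hm1
  have hSr : (1 : ℝ) ≤ S := by exact_mod_cast hS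
  have hSr' : (1 : ℝ) ≤ N'.size := by exact_mod_cast hS'
  have h5 : {e : Fin m × Fin m | e ∉ X}.ncard ≤ {e : Fin m × Fin m | e ∉ N'.negated}.ncard := by
    apply Set.ncard_le_ncard _ (Set.toFinite _)
    intro e he
    simp only [Set.mem_ofPred_eq] at he ⊢
    rintro ⟨x, y, hxy⟩
    exact he (h2 x y e hxy)
  have h5' : ({e : Fin m × Fin m | e ∉ X}.ncard : ℝ) ≤
      ({e : Fin m × Fin m | e ∉ N'.negated}.ncard : ℝ) := by exact_mod_cast h5
  refine h5'.trans (h4.trans ?_)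
  apply mul_le_mul_of_nonneg_left _ (by positivity)
  apply Real.exp_le_exp.mpr
  have h6 : Real.log N'.size ≤ 16 + 9 * Real.log (m * S) := by
    have h7 : (N'.size : ℝ) ≤ 9 ^ 5 * 16 * (m : ℝ) ^ 8 * S := by exact_mod_cast h1
    have h8 : Real.log N'.size ≤ Real.log (9 ^ 5 * 16 * (m : ℝ) ^ 8 * S) :=
      Real.log_le_log (by linarith) h7
    have h9 : Real.log (9 ^ 5 * 16 * (m : ℝ) ^ 8 * S) =
        Real.log (9 ^ 5 * 16) + 8 * Real.log m + Real.log S := by
      rw [Real.log_mul (by positivity) (by positivity), Real.log_mul (by positivity) (by positivity),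
        Real.log_pow]
      push_cast
      ring
    have h10 : Real.log (9 ^ 5 * 16) ≤ 16 := by
      rw [Real.log_le_iff_le_exp (by norm_num)]
      have h11 : (2.7 : ℝ) ≤ Real.exp 1 := by
        have := Real.exp_one_gt_d9
        linarith
      have h12 : Real.exp 16 = Real.exp 1 ^ 16 := by
        rw [← Real.exp_nat_mul]; norm_num
      rw [h12]
      calc (9 ^ 5 * 16 : ℝ) ≤ 2.7 ^ 16 := by norm_num
        _ ≤ _ := pow_le_pow_left₀ (by norm_num) h11 16
    have h13 : Real.log (m * S) = Real.log m + Real.log S :=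
      Real.log_mul (by positivity) (by positivity)
    have h14 : 0 ≤ Real.log m := Real.log_nonneg hmr
    have h15 : 0 ≤ Real.log S := Real.log_nonneg hSr
    rw [h13]
    linarith
  have h7 : √(Real.log N'.size) ≤ 4 + 3 * √(Real.log (m * S)) := by
    have h8 : 0 ≤ Real.log (m * S) := by
      apply Real.log_nonneg
      nlinarith
    have h9 : 0 ≤ √(Real.log (m * S)) := Real.sqrt_nonneg _
    rw [Real.sqrt_le_left (by positivity)]
    have h10 := Real.sq_sqrt h8
    nlinarith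
  have h8 : 0 ≤ √(Real.log (m * S)) := Real.sqrt_nonneg _
  nlinarith

/-- Part 5: networks for noisy digraphs negate almost all variables. -/
theorem negated_below : ∃ C : ℝ, 0 < C ∧ ∀ (m n : ℕ) (p : ℝ), 0 ≤ p → p ≤ 1 →
    ∀ (f : Fin m ↪ Fin n) (s t : Fin m), s ≠ t →
    pr p (fun R : Finset (Fin n × Fin n) => ∃ u w : Fin m, u ≠ w ∧
      Connected (↑R : Set (Fin n × Fin n)) (f u) (f w)) ≤ 1 / 12 →
    ∀ N : Network (Fin n), (∀ H : Set (Fin m × Fin m),
      pr p (fun R : Finset (Fin n × Fin n) =>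
        ¬ (N.Accepts (img f H ∪ ↑R) ↔ Connected (img f H ∪ ↑R) (f s) (f t))) ≤ 1 / 3) →
    ({e : Fin m × Fin m | (f e.1, f e.2) ∉ N.negated}.ncard : ℝ) ≤
      m * Real.exp (C * (1 + √(Real.log (m * N.size)))) := by
  classical
  obtain ⟨C, hC, hcount⟩ := count_bound
  refine ⟨C, hC, ?_⟩
  intro m n p hp0 hp1 f s t hst hshort N hN
  have hm1 : 1 ≤ m := by
    have := s.2
    omega
  have hS : 1 ≤ N.size := by
    let _ := N.fin
    exact Fintype.card_pos_iff.mpr ⟨N.source⟩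
  have h1 := derand hp0 hp1 (univ.image f) (img f) {e | (f e.1, f e.2) ∈ N.negated} s t (f s) (f t)
    (by simp) (by simp) (by
      rintro H e ⟨x, _, rfl⟩
      simp) (fun H => connected_img f.injective H s t) (by
      refine le_trans (pr_mono hp0 hp1 ?_) hshort
      rintro R ⟨u, hu, w, hw, huw, h⟩
      rw [mem_image] at hu hw
      obtain ⟨u', _, rfl⟩ := hu
      obtain ⟨w', _, rfl⟩ := hw
      exact ⟨u', w', fun h' => huw (by rw [h']), by exact_mod_cast h⟩) N (by
      intro R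
      refine comp_restrict f.injective ↑R (F := fun G => N.Accepts G) ?_
      exact ⟨N, le_rfl, fun x y e h => ⟨x, y, h⟩, fun G => Iff.rfl⟩) hN (Fintype.card_fin m) hm1
  exact hcount m N.size s t hst hS _ h1

/-- images have the same degrees -/
theorem img_deg {V W : Type} [Finite V] [Finite W] {f : V → W} (hf : Function.Injective f)
    {H : Set (V × V)} (h : Deg2 H) : Deg2 (img f H) := by
  intro v
  by_cases hv : ∃ x, f x = v
  · obtain ⟨x, rfl⟩ := hv
    constructor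
    · have h1 : {w | (f x, w) ∈ img f H} ⊆ f '' {y | (x, y) ∈ H} := by
        rintro w ⟨⟨a, b⟩, hab, he⟩
        rw [Prod.mk.injEq] at he
        have : x = a := hf he.1
        subst this
        exact ⟨b, hab, he.2.symm⟩
      refine (Set.ncard_le_ncard h1 (Set.toFinite _)).trans ?_
      exact (Set.ncard_image_le (Set.toFinite _)).trans (h x).1
    · have h1 : {w | (w, f x) ∈ img f H} ⊆ f '' {y | (y, x) ∈ H} := by
        rintro w ⟨⟨a, b⟩, hab, he⟩
        rw [Prod.mk.injEq] at he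
        have : x = b := hf he.2
        subst this
        exact ⟨a, hab, he.1.symm⟩
      refine (Set.ncard_le_ncard h1 (Set.toFinite _)).trans ?_
      exact (Set.ncard_image_le (Set.toFinite _)).trans (h x).2
  · push Not at hv
    constructor
    · have h1 : {w | (v, w) ∈ img f H} = ∅ := by
        ext w
        simp only [Set.mem_ofPred_eq, Set.mem_empty_iff_false, iff_false]
        rintro ⟨⟨a, b⟩, _, he⟩
        rw [Prod.mk.injEq] at he
        exact hv a he.1.symm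
      rw [h1]
      simp
    · have h1 : {w | (w, v) ∈ img f H} = ∅ := by
        ext w
        simp only [Set.mem_ofPred_eq, Set.mem_empty_iff_false, iff_false]
        rintro ⟨⟨a, b⟩, _, he⟩
        rw [Prod.mk.injEq] at he
        exact hv b he.2.symm
      rw [h1]
      simp

/-- derandomisation for digraphs of degree at most two -/
theorem derand_deg {m n : ℕ} {p : ℝ} (hp0 : 0 ≤ p) (hp1 : p ≤ 1) (ψ : GV m ↪ Fin n) (s t : Fin m)
    (hshort : pr p (fun R : Finset (Fin n × Fin n) => ∃ u ∈ univ.image ψ, ∃ w ∈ univ.image ψ, u ≠ w ∧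
      Relation.ReflTransGen (fun a b => (a, b) ∈ R) u w) ≤ 1 / 12) (N : Network (Fin n))
    (hN : ∀ D : Set (Fin n × Fin n), Deg2 D → pr p (fun R : Finset (Fin n × Fin n) =>
      ¬ (N.Accepts (D ∪ ↑R) ↔ Connected (D ∪ ↑R) (ψ (.inl s)) (ψ (.inl t)))) ≤ 1 / 3) :
    Comp {z : Fin m × Fin m | ∃ e ∈ {e : GV m × GV m | (ψ e.1, ψ e.2) ∈ N.negated}, gvar e = some z}
      (9 ^ 5 * 16 * m ^ 8 * N.size) (fun H => Connected H s t) := by
  have hm1 : 1 ≤ m := by
    have := s.2
    omega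
  refine derand hp0 hp1 (univ.image ψ) (fun H => img ψ (gad H)) _ s t (ψ (.inl s)) (ψ (.inl t))
    (by simp) (by simp) ?_ ?_ hshort N ?_ ?_ (Fintype.card_fin m) hm1
  · rintro H e ⟨x, _, rfl⟩
    simp
  · intro H
    rw [connected_img ψ.injective, gad_connected]
  · intro R
    have h1 := comp_restrict ψ.injective (↑R : Set (Fin n × Fin n)) (X := N.negated) (S := N.size)
      (F := fun G => N.Accepts G) ⟨N, le_rfl, fun x y e h => ⟨x, y, h⟩, fun G => Iff.rfl⟩
    have h2 := comp_subst (gbase m) gvar h1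
    refine h2.congr ?_
    intro H
    show N.Accepts (img ψ {e | e ∈ gbase m ∨ ∃ z ∈ H, gvar e = some z} ∪ ↑R) ↔ _
    rw [← gad_eq H]
  · intro H
    exact hN _ (img_deg ψ.injective (gad_deg H))

/-- two given vertices belong to a copy of a given finite set -/
theorem exists_emb {A : Type} [Fintype A] {a b : A} (hab : a ≠ b) {n : ℕ}
    (hn : Fintype.card A ≤ n) {s t : Fin n} (hst : s ≠ t) : ∃ f : A ↪ Fin n, f a = s ∧ f b = t := by
  classical
  let e : A ↪ Fin n := (Fintype.equivFin A).toEmbedding.trans (Fin.castLEEmb hn)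
  have hne : e a ≠ e b := fun h => hab (e.injective h)
  obtain ⟨B, hB⟩ : ∃ B, B = Equiv.swap (e a) s (e b) := ⟨_, rfl⟩
  have hBs : B ≠ s := by
    intro h
    have h1 : Equiv.swap (e a) s (e b) = Equiv.swap (e a) s (e a) := by
      rw [← hB, h, Equiv.swap_apply_left]
    exact hne ((Equiv.swap (e a) s).injective h1).symm
  refine ⟨e.trans ((Equiv.swap (e a) s).trans (Equiv.swap B t)).toEmbedding, ?_, ?_⟩
  · simp only [Function.Embedding.trans_apply, Equiv.coe_toEmbedding, Equiv.trans_apply]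
    rw [Equiv.swap_apply_left, Equiv.swap_apply_of_ne_of_ne hBs.symm hst]
  · simp only [Function.Embedding.trans_apply, Equiv.coe_toEmbedding, Equiv.trans_apply]
    rw [← hB, Equiv.swap_apply_left]

theorem card_GV (m : ℕ) : Fintype.card (GV m) = m + (m * m + m * m) := by
  simp [GV]

/-- the noise does not connect `m + 2 m ^ 2` vertices if `1728 m ^ 4 ≤ n ^ min(δ, 1/2)` -/
theorem short_crit {m n : ℕ} {δ p : ℝ} (hδ : 0 < δ) (hp0 : 0 ≤ p)
    (hp : p * n ≤ 1 + (n : ℝ) ^ (-δ)) (hn : 4 ≤ n)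
    (hm : 1 ≤ m) (hmn : 1728 * (m : ℝ) ^ 4 ≤ (n : ℝ) ^ (min δ (1 / 2))) (ψ : GV m ↪ Fin n) :
    pr p (fun R : Finset (Fin n × Fin n) => ∃ u ∈ univ.image ψ, ∃ w ∈ univ.image ψ, u ≠ w ∧
      Relation.ReflTransGen (fun a b => (a, b) ∈ R) u w) ≤ 1 / 12 := by
  have hnr : (4 : ℝ) ≤ n := by exact_mod_cast hn
  have hnpos : (0 : ℝ) < n := by linarith
  set δ' := min δ (1 / 2) with hδ'
  have hδ'0 : 0 < δ' := lt_min hδ (by norm_num)
  have hε1 : (n : ℝ) ^ (-δ) ≤ 1 := Real.rpow_le_one_of_one_le_of_nonpos (by linarith) (by linarith)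
  have h1 := crit (V := Fin n) hp0 (by positivity : 0 ≤ (n : ℝ) ^ (-δ)) hε1
    (by rw [Fintype.card_fin]; exact hn) (by rw [Fintype.card_fin]; exact hp) (univ.image ψ)
  refine h1.trans ?_
  rw [card_image_of_injective _ ψ.injective, card_univ, card_GV, Fintype.card_fin]
  have h2 : (n : ℝ) ^ (-δ) ≤ (n : ℝ) ^ (-δ') := by
    apply Real.rpow_le_rpow_of_exponent_le (by linarith)
    have := min_le_left δ (1 / 2)
    linarith
  have h3 : 1 / √(n : ℝ) ≤ (n : ℝ) ^ (-δ') := by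
    rw [Real.sqrt_eq_rpow, one_div, ← Real.rpow_neg hnpos.le]
    apply Real.rpow_le_rpow_of_exponent_le (by linarith)
    have := min_le_right δ (1 / 2)
    linarith
  have h4 : 4 * (n : ℝ) ^ (-δ) + 12 / √(n : ℝ) ≤ 16 * (n : ℝ) ^ (-δ') := by
    have : 12 / √(n : ℝ) = 12 * (1 / √(n : ℝ)) := by ring
    linarith
  have h5 : ((m + (m * m + m * m) : ℕ) : ℝ) ≤ 3 * (m : ℝ) ^ 2 := by
    have hmr : (1 : ℝ) ≤ m := by exact_mod_cast hm
    push_cast
    nlinarith
  have h6 : (0 : ℝ) < (n : ℝ) ^ (-δ') := by positivity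
  have h7 : (n : ℝ) ^ δ' * (n : ℝ) ^ (-δ') = 1 := by
    rw [← Real.rpow_add hnpos]
    simp
  calc ((m + (m * m + m * m) : ℕ) : ℝ) ^ 2 * (4 * (n : ℝ) ^ (-δ) + 12 / √(n : ℝ)) ≤
        (3 * (m : ℝ) ^ 2) ^ 2 * (16 * (n : ℝ) ^ (-δ')) := by
        apply mul_le_mul (pow_le_pow_left₀ (by positivity) h5 2) h4 (by positivity) (by positivity)
    _ = 1 / 12 * (1728 * (m : ℝ) ^ 4 * (n : ℝ) ^ (-δ')) := by ring
    _ ≤ 1 / 12 * ((n : ℝ) ^ δ' * (n : ℝ) ^ (-δ')) := by
        apply mul_le_mul_of_nonneg_left _ (by norm_num)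
        exact mul_le_mul_of_nonneg_right hmn h6.le
    _ = 1 / 12 := by rw [h7, mul_one]

/-- Part 3: at and below the threshold noisy reachability is as hard as reachability. -/
theorem equiv_below {δ : ℝ} (hδ : 0 < δ) (p : ℕ → ℝ) (hp0 : ∀ n, 0 ≤ p n) (hp1 : ∀ n, p n ≤ 1)
    (hp : ∀ n, p n * n ≤ 1 + (n : ℝ) ^ (-δ)) :
    (∃ a : ℕ, ∀ (n : ℕ) (s t : Fin n), ∃ N : Network (Fin n), N.size ≤ a * n ^ a ∧
      ∀ D : Set (Fin n × Fin n), Deg2 D → pr (p n) (fun R : Finset (Fin n × Fin n) =>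
        ¬ (N.Accepts (D ∪ ↑R) ↔ Connected (D ∪ ↑R) s t)) ≤ 1 / 3) ↔
    (∃ a : ℕ, ∀ (n : ℕ) (s t : Fin n), ∃ N : Network (Fin n), N.size ≤ a * n ^ a ∧
      N.Decides s t) := by
  classical
  constructor
  · rintro ⟨a, ha⟩
    set δ' := min δ (1 / 2) with hδ'
    have hδ'0 : 0 < δ' := lt_min hδ (by norm_num)
    set L := ⌈4 / δ'⌉₊ with hL
    have hL8 : 8 ≤ L := by
      have h1 : (8 : ℝ) ≤ 4 / δ' := by
        rw [le_div_iff₀ hδ'0]
        have := min_le_right δ (1 / 2)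
        linarith
      have h2 : (4 / δ' : ℝ) ≤ L := Nat.le_ceil _
      have : (8 : ℝ) ≤ L := h1.trans h2
      exact_mod_cast this
    refine ⟨9 ^ 5 * 16 * (a * 7 ^ (L * a)) + (8 + L * a), ?_⟩
    intro m s t
    have hm1 : 1 ≤ m := by
      have := s.2
      omega
    set n := (7 * m) ^ L with hn
    have hbig : (7 * m) ^ 8 ≤ n := Nat.pow_le_pow_right (by omega) hL8
    have hn1 : 7 * m ^ 2 ≤ n := by
      calc 7 * m ^ 2 ≤ (7 * m) ^ 2 := by
            rw [mul_pow]
            nlinarith [Nat.one_le_pow 2 m hm1]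
        _ ≤ (7 * m) ^ 8 := Nat.pow_le_pow_right (by omega) (by norm_num)
        _ ≤ n := hbig
    have hn4 : 4 ≤ n := by
      have : 1 ≤ m ^ 2 := Nat.one_le_pow _ _ hm1
      omega
    have hcard : Fintype.card (GV m) ≤ n := by
      rw [card_GV]
      nlinarith
    have hmn : 1728 * (m : ℝ) ^ 4 ≤ (n : ℝ) ^ δ' := by
      have h7m : (1 : ℝ) ≤ 7 * m := by
        have : (1 : ℝ) ≤ m := by exact_mod_cast hm1
        linarith
      have h1 : (n : ℝ) ^ δ' = (7 * (m : ℝ)) ^ ((L : ℝ) * δ') := by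
        rw [hn]
        push_cast
        rw [← Real.rpow_natCast, ← Real.rpow_mul (by linarith)]
      have h2 : (4 : ℝ) ≤ L * δ' := by
        have h3 : (4 / δ' : ℝ) ≤ L := Nat.le_ceil _
        rw [div_le_iff₀ hδ'0] at h3
        exact h3
      rw [h1]
      calc 1728 * (m : ℝ) ^ 4 ≤ (7 * (m : ℝ)) ^ 4 := by
            rw [mul_pow]
            have : 0 ≤ (m : ℝ) ^ 4 := by positivity
            nlinarith
        _ = (7 * (m : ℝ)) ^ (4 : ℝ) := by
            rw [← Real.rpow_natCast]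
            norm_num
        _ ≤ _ := Real.rpow_le_rpow_of_exponent_le h7m h2
    let ψ : GV m ↪ Fin n := (Fintype.equivFin (GV m)).toEmbedding.trans (Fin.castLEEmb hcard)
    obtain ⟨N, hN1, hN2⟩ := ha n (ψ (.inl s)) (ψ (.inl t))
    have h1 := derand_deg (hp0 n) (hp1 n) ψ s t
      (short_crit hδ (hp0 n) (hp n) hn4 hm1 hmn ψ) N hN2
    obtain ⟨N', h2, _, h3⟩ := h1
    refine ⟨N', h2.trans ?_, h3⟩
    calc 9 ^ 5 * 16 * m ^ 8 * N.size ≤ 9 ^ 5 * 16 * m ^ 8 * (a * n ^ a) :=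
          Nat.mul_le_mul_left _ hN1
      _ = 9 ^ 5 * 16 * (a * 7 ^ (L * a)) * m ^ (8 + L * a) := by
          rw [hn, ← pow_mul, mul_pow, pow_add]
          ring
      _ ≤ _ := by
          apply Nat.mul_le_mul (by omega)
          exact Nat.pow_le_pow_right hm1 (by omega)
  · rintro ⟨a, ha⟩
    refine ⟨a, ?_⟩
    intro n s t
    obtain ⟨N, hN1, hN2⟩ := ha n s t
    refine ⟨N, hN1, ?_⟩
    intro D _
    have : pr (p n) (fun R : Finset (Fin n × Fin n) =>
        ¬ (N.Accepts (D ∪ ↑R) ↔ Connected (D ∪ ↑R) s t)) = 0 := by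
      rw [pr_def]
      unfold ex
      apply sum_eq_zero
      intro R _
      have : ¬ ¬ (N.Accepts (D ∪ ↑R) ↔ Connected (D ∪ ↑R) s t) := by
        rw [not_not]
        exact hN2 _
      simp [this]
    rw [this]
    norm_num

/-- Part 4: monotone networks at and below the threshold. -/
theorem mono_below {δ : ℝ} (hδ : 0 < δ) : ∃ η : ℝ, 0 < η ∧ ∃ n₀ : ℕ, ∀ n ≥ n₀, ∀ p : ℝ, 0 ≤ p →
    p * n ≤ 1 + (n : ℝ) ^ (-δ) → ∀ s t : Fin n, s ≠ t → ∀ N : Network (Fin n), N.negated = ∅ →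
      (∀ D : Set (Fin n × Fin n), Deg2 D → pr p (fun R : Finset (Fin n × Fin n) =>
        ¬ (N.Accepts (D ∪ ↑R) ↔ Connected (D ∪ ↑R) s t)) ≤ 1 / 3) →
      (n : ℝ) ^ (η * Real.log n) ≤ N.size := by
  classical
  obtain ⟨C, hC, hcount⟩ := count_bound
  set δ' := min δ (1 / 2) with hδ'
  have hδ'0 : 0 < δ' := lt_min hδ (by norm_num)
  have hδ'1 : δ' ≤ 1 / 2 := min_le_right _ _
  refine ⟨δ' ^ 2 / (512 * (C ^ 2 + 1)), by positivity, ?_⟩
  -- n large
  obtain ⟨n₀, hn₀⟩ : ∃ n₀ : ℕ, ∀ n : ℕ, n₀ ≤ n →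
      ((n : ℝ) ^ (δ' / 8) + 1 ≤ (n : ℝ) ^ (δ' / 4) / 7 ∧ 2 ≤ (n : ℝ) ^ (δ' / 8) ∧
      2 * C + 8 * C ^ 2 ≤ δ' / 8 * Real.log n ∧ 4 ≤ n) := by
    have h1 : Filter.Tendsto (fun n : ℕ => (n : ℝ) ^ (δ' / 8)) Filter.atTop Filter.atTop :=
      (tendsto_rpow_atTop (by positivity)).comp tendsto_natCast_atTop_atTop
    have t1 := h1.eventually_ge_atTop 14
    have t3 : ∀ᶠ n : ℕ in Filter.atTop, 2 * C + 8 * C ^ 2 ≤ δ' / 8 * Real.log n := by
      have h1 : Filter.Tendsto (fun n : ℕ => Real.log n) Filter.atTop Filter.atTop :=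
        Real.tendsto_log_atTop.comp tendsto_natCast_atTop_atTop
      filter_upwards [h1.eventually_ge_atTop ((2 * C + 8 * C ^ 2) / (δ' / 8))] with n hn
      rw [div_le_iff₀ (by positivity)] at hn
      linarith
    obtain ⟨n₀, h⟩ := Filter.eventually_atTop.mp
      (t1.and (t3.and (Filter.eventually_ge_atTop 4)))
    refine ⟨n₀, fun n hn => ?_⟩
    obtain ⟨g1, g2, g3⟩ := h n hn
    have hnpos : (0 : ℝ) < n := by
      have : 0 < n := by omega
      exact_mod_cast this
    have h5 : (n : ℝ) ^ (δ' / 4) = (n : ℝ) ^ (δ' / 8) * (n : ℝ) ^ (δ' / 8) := by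
      rw [← Real.rpow_add hnpos]
      congr 1
      ring
    refine ⟨?_, by linarith, g2, g3⟩
    rw [h5, le_div_iff₀ (by norm_num)]
    nlinarith
  refine ⟨n₀, ?_⟩
  intro n hn p hp0 hp s t hst N hneg hN
  obtain ⟨h1, h2, h3, h4⟩ := hn₀ n hn
  have hnr : (4 : ℝ) ≤ n := by exact_mod_cast h4
  have hnpos : (0 : ℝ) < n := by linarith
  have hp1 : p ≤ 1 := by
    have hε1 : (n : ℝ) ^ (-δ) ≤ 1 := Real.rpow_le_one_of_one_le_of_nonpos (by linarith) (by linarith)
    have : p * 4 ≤ p * n := mul_le_mul_of_nonneg_left hnr hp0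
    linarith
  set m := ⌊(n : ℝ) ^ (δ' / 4) / 7⌋₊ with hm
  have hm1 : (m : ℝ) ≤ (n : ℝ) ^ (δ' / 4) / 7 := Nat.floor_le (by positivity)
  have hm2 : (n : ℝ) ^ (δ' / 8) ≤ m := by
    have := Nat.lt_floor_add_one ((n : ℝ) ^ (δ' / 4) / 7)
    rw [← hm] at this
    linarith
  have hm3 : 2 ≤ m := by
    have : (2 : ℝ) ≤ m := h2.trans hm2
    exact_mod_cast this
  have hmr : (2 : ℝ) ≤ m := by exact_mod_cast hm3
  have hpow4 : ((n : ℝ) ^ (δ' / 4)) ^ 4 = (n : ℝ) ^ δ' := by
    rw [← Real.rpow_natCast, ← Real.rpow_mul hnpos.le]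
    congr 1
    push_cast
    ring
  have hm4 : 1728 * (m : ℝ) ^ 4 ≤ (n : ℝ) ^ δ' := by
    have h5 := pow_le_pow_left₀ (by positivity) hm1 4
    rw [div_pow, hpow4] at h5
    have h6 : (0 : ℝ) ≤ (n : ℝ) ^ δ' := by positivity
    have h7 : (m : ℝ) ^ 4 * 7 ^ 4 ≤ (n : ℝ) ^ δ' := by
      rw [le_div_iff₀ (by positivity)] at h5
      exact h5
    have h8 : 0 ≤ (m : ℝ) ^ 4 := by positivity
    nlinarith
  have hcard : Fintype.card (GV m) ≤ n := by
    rw [card_GV]
    have h5 : (n : ℝ) ^ δ' ≤ n := by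
      calc (n : ℝ) ^ δ' ≤ (n : ℝ) ^ (1 : ℝ) :=
            Real.rpow_le_rpow_of_exponent_le (by linarith) (by linarith)
        _ = n := Real.rpow_one _
    have h6 : 3 * (m : ℝ) ^ 2 ≤ n := by
      have h7 : (m : ℝ) ^ 2 ≤ (m : ℝ) ^ 4 := pow_le_pow_right₀ (by linarith) (by norm_num)
      have h8 : 0 ≤ (m : ℝ) ^ 4 := by positivity
      linarith
    have h7 : 3 * m ^ 2 ≤ n := by exact_mod_cast h6
    nlinarith
  have h01 : (⟨0, by omega⟩ : Fin m) ≠ ⟨1, by omega⟩ := by
    intro h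
    simp at h
  have h01' : (.inl ⟨0, by omega⟩ : GV m) ≠ .inl ⟨1, by omega⟩ := by
    intro h
    exact h01 (Sum.inl_injective h)
  obtain ⟨ψ, hψ0, hψ1⟩ := exists_emb h01' hcard hst
  have h5 := derand_deg hp0 hp1 ψ ⟨0, by omega⟩ ⟨1, by omega⟩
    (short_crit hδ hp0 hp h4 (by omega) hm4 ψ) N (by rw [hψ0, hψ1]; exact hN)
  have hS : 1 ≤ N.size := by
    let _ := N.fin
    exact Fintype.card_pos_iff.mpr ⟨N.source⟩
  have h6 := hcount m N.size _ _ h01 hS _ h5
  have h7 : {e : Fin m × Fin m | e ∉ {z : Fin m × Fin m |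
      ∃ e ∈ {e : GV m × GV m | (ψ e.1, ψ e.2) ∈ N.negated}, gvar e = some z}} = Set.univ := by
    rw [hneg]
    ext e
    simp
  rw [h7, Set.ncard_univ, Nat.card_eq_fintype_card, Fintype.card_prod, Fintype.card_fin] at h6
  push_cast at h6
  have hmpos : (0 : ℝ) < m := by linarith
  have hSr : (1 : ℝ) ≤ N.size := by exact_mod_cast hS
  have h7 : (m : ℝ) ≤ Real.exp (C * (1 + √(Real.log (m * N.size)))) :=
    le_of_mul_le_mul_left h6 hmpos
  have h8 : Real.log m ≤ C * (1 + √(Real.log (m * N.size))) := by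
    rw [Real.log_le_iff_le_exp hmpos]
    exact h7
  have h9 : δ' / 8 * Real.log n ≤ Real.log m := by
    have := Real.log_le_log (by positivity) hm2
    rwa [Real.log_rpow hnpos] at this
  have hlog : 0 ≤ Real.log (m * N.size) := by
    apply Real.log_nonneg
    nlinarith
  have h10 : Real.log (m * N.size) = Real.log m + Real.log N.size :=
    Real.log_mul (by positivity) (by positivity)
  set x := √(Real.log (m * N.size)) with hx
  have hx0 : 0 ≤ x := Real.sqrt_nonneg _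
  have hxx : x ^ 2 = Real.log (m * N.size) := Real.sq_sqrt hlog
  -- log m ≤ 2 C x
  have h11 : Real.log m ≤ 2 * (C * x) := by linarith [mul_pos hC hC]
  have h13' : 0 ≤ Real.log m := Real.log_nonneg (by linarith)
  have h12 : Real.log m ^ 2 ≤ 4 * C ^ 2 * (Real.log m + Real.log N.size) := by
    calc Real.log m ^ 2 ≤ (2 * (C * x)) ^ 2 := pow_le_pow_left₀ h13' h11 2
      _ = 4 * C ^ 2 * x ^ 2 := by ring
      _ = _ := by rw [hxx, h10]
  have h13 : Real.log m ^ 2 ≤ 8 * C ^ 2 * Real.log N.size := by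
    have h14 : 8 * C ^ 2 ≤ Real.log m := by linarith
    nlinarith
  have hlogn : 0 ≤ Real.log n := Real.log_nonneg (by linarith)
  have hlogS : 0 ≤ Real.log N.size := Real.log_nonneg hSr
  have h14 : δ' ^ 2 * Real.log n ^ 2 ≤ 512 * C ^ 2 * Real.log N.size := by
    have h15 : (δ' / 8 * Real.log n) ^ 2 ≤ Real.log m ^ 2 := pow_le_pow_left₀ (by positivity) h9 2
    have h16 : (δ' / 8 * Real.log n) ^ 2 = δ' ^ 2 * Real.log n ^ 2 / 64 := by ring
    rw [h16] at h15
    linarith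
  have h15 : δ' ^ 2 / (512 * (C ^ 2 + 1)) * Real.log n * Real.log n ≤ Real.log N.size := by
    have h16 : δ' ^ 2 / (512 * (C ^ 2 + 1)) * Real.log n * Real.log n =
        δ' ^ 2 * Real.log n ^ 2 / (512 * (C ^ 2 + 1)) := by ring
    rw [h16, div_le_iff₀ (by positivity)]
    linarith
  rw [Real.rpow_def_of_pos hnpos]
  calc Real.exp (Real.log n * (δ' ^ 2 / (512 * (C ^ 2 + 1)) * Real.log n)) ≤
        Real.exp (Real.log N.size) := Real.exp_le_exp.mpr (by linarith)
    _ = N.size := Real.exp_log (by linarith)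

end Pool.Agent.L5helper55.NT
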