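import Mathlib

/-!
# Random subsets of a finite set: independence of disjoint coordinates
-/

namespace Pool.Agent.L5helper55.NT

open Finset

set_option linter.unusedSectionVars false

variable {ι : Type} [Fintype ι] [DecidableEq ι]

/-- the probability of the outcome `R` if each element is chosen independently with probability `p` -/
noncomputable def wt (p : ℝ) (R : Finset ι) : ℝ := ∏ e, if e ∈ R then p else 1 - p

/-- expectation -/
noncomputable def ex (p : ℝ) (F : Finset ι → ℝ) : ℝ := ∑ R, wt p R * F R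

theorem wt_nonneg {p : ℝ} (h0 : 0 ≤ p) (h1 : p ≤ 1) (R : Finset ι) : 0 ≤ wt p R := by
  unfold wt
  apply prod_nonneg
  intro e _
  split_ifs <;> linarith

/-- expectation of a product of functions of the single coordinates -/
theorem ex_prod (p : ℝ) (a b : ι → ℝ) :
    ex p (fun R => ∏ e, if e ∈ R then a e else b e) = ∏ e, (p * a e + (1 - p) * b e) := by
  rw [Finset.prod_add]
  unfold ex wt
  rw [powerset_univ]
  apply sum_congr rfl
  intro R _
  rw [← prod_mul_distrib, ← Finset.prod_mul_prod_compl R]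
  congr 1
  · apply prod_congr rfl
    intro e he
    simp [he]
  · rw [compl_eq_univ_sdiff]
    apply prod_congr rfl
    intro e he
    have he' : e ∉ R := (mem_sdiff.mp he).2
    simp [he']

theorem moment (p z : ℝ) (T : Finset ι) :
    ex p (fun R => z ^ (R ∩ T).card) = (1 - p + p * z) ^ T.card := by
  have h1 : (fun R : Finset ι => z ^ (R ∩ T).card) =
      fun R => ∏ e, if e ∈ R then (if e ∈ T then z else 1) else 1 := by
    funext R
    rw [← prod_const, ← prod_filter, prod_ite_mem]
    congr 1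
    ext e
    simp [mem_inter, and_comm]
  rw [h1, ex_prod]
  rw [← prod_const]
  rw [← Finset.prod_mul_prod_compl T]
  have h2 : ∏ i ∈ Tᶜ, (p * (if i ∈ T then z else 1) + (1 - p) * 1) = 1 := by
    apply prod_eq_one
    intro e he
    have : e ∉ T := by simpa using he
    simp [this]
  rw [h2, mul_one]
  apply prod_congr rfl
  intro e he
  simp only [he, if_true]
  ring

theorem ex_one (p : ℝ) : ex p (fun _ : Finset ι => (1 : ℝ)) = 1 := by
  have := moment (ι := ι) p 1 ∅
  simpa using this

theorem ex_mono {p : ℝ} (h0 : 0 ≤ p) (h1 : p ≤ 1) {F G : Finset ι → ℝ} (h : ∀ R, F R ≤ G R) :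
    ex p F ≤ ex p G := by
  unfold ex
  exact sum_le_sum fun R _ => mul_le_mul_of_nonneg_left (h R) (wt_nonneg h0 h1 R)

theorem ex_nonneg {p : ℝ} (h0 : 0 ≤ p) (h1 : p ≤ 1) {F : Finset ι → ℝ} (h : ∀ R, 0 ≤ F R) :
    0 ≤ ex p F := sum_nonneg fun R _ => mul_nonneg (wt_nonneg h0 h1 R) (h R)

theorem ex_sum {κ : Type} (p : ℝ) (s : Finset κ) (F : κ → Finset ι → ℝ) :
    ex p (fun R => ∑ k ∈ s, F k R) = ∑ k ∈ s, ex p (F k) := by
  unfold ex
  rw [sum_comm]
  apply sum_congr rfl
  intro R _
  rw [mul_sum]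

theorem ex_const_mul (p c : ℝ) (F : Finset ι → ℝ) : ex p (fun R => c * F R) = c * ex p F := by
  unfold ex
  rw [mul_sum]
  apply sum_congr rfl
  intro R _
  ring

/-- exchange of the coordinates in `S` -/
def swp (S : Finset ι) (x : Finset ι × Finset ι) : Finset ι × Finset ι :=
  ((x.1 \ S) ∪ (x.2 ∩ S), (x.2 \ S) ∪ (x.1 ∩ S))

theorem swp_swp (S : Finset ι) (x : Finset ι × Finset ι) : swp S (swp S x) = x := by
  unfold swp
  ext e <;> simp only [mem_union, mem_sdiff, mem_inter] <;> tauto

theorem wt_swp (p : ℝ) (S : Finset ι) (x : Finset ι × Finset ι) :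
    wt p (swp S x).1 * wt p (swp S x).2 = wt p x.1 * wt p x.2 := by
  unfold wt
  rw [← prod_mul_distrib, ← prod_mul_distrib]
  apply prod_congr rfl
  intro e _
  unfold swp
  by_cases hS : e ∈ S <;> by_cases h1 : e ∈ x.1 <;> by_cases h2 : e ∈ x.2 <;>
    simp [hS, h1, h2, mul_comm]

/-- independence of disjoint sets of coordinates -/
theorem ex_mul (p : ℝ) (S : Finset ι) (F G : Finset ι → ℝ)
    (hF : ∀ R R', R \ S = R' \ S → F R = F R') (hG : ∀ R R', R ∩ S = R' ∩ S → G R = G R') :
    ex p (fun R => F R * G R) = ex p F * ex p G := by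
  have h1 : ex p F * ex p G = ∑ x : Finset ι × Finset ι, wt p x.1 * wt p x.2 * (F x.1 * G x.2) := by
    unfold ex
    rw [sum_mul_sum, ← univ_product_univ, sum_product]
    apply sum_congr rfl
    intro a _
    apply sum_congr rfl
    intro b _
    ring
  have h2 : ex p (fun R => F R * G R) =
      ∑ x : Finset ι × Finset ι, wt p x.1 * wt p x.2 * (F x.1 * G x.1) := by
    rw [← univ_product_univ, sum_product]
    have h3 := ex_one (ι := ι) p
    unfold ex at h3 ⊢
    apply sum_congr rfl
    intro a _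
    have : ∑ y : Finset ι, wt p a * wt p y * (F a * G a) =
        wt p a * (F a * G a) * ∑ y : Finset ι, wt p y * 1 := by
      rw [mul_sum]
      apply sum_congr rfl
      intro y _
      ring
    rw [this]
    simp only [mul_one] at h3 ⊢
    rw [h3, mul_one]
  rw [h1, h2]
  apply sum_bij (fun x _ => swp S x)
  · intro a _
    exact mem_univ _
  · intro a _ b _ h
    rw [← swp_swp S a, h, swp_swp]
  · intro b _
    exact ⟨swp S b, mem_univ _, swp_swp S b⟩
  · intro x _
    rw [wt_swp]
    congr 1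
    rw [hF x.1 (swp S x).1, hG x.1 (swp S x).2]
    · unfold swp
      ext e
      simp only [mem_union, mem_sdiff, mem_inter]
      tauto
    · unfold swp
      ext e
      simp only [mem_union, mem_sdiff, mem_inter]
      tauto

/-- probability of an event -/
noncomputable def pr (p : ℝ) (A : Finset ι → Prop) : ℝ :=
  by classical exact ex p (fun R => if A R then 1 else 0)

theorem pr_def (p : ℝ) (A : Finset ι → Prop) [DecidablePred A] :
    pr p A = ex p (fun R => if A R then 1 else 0) := by
  unfold pr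
  congr 1
  funext R
  congr

theorem pr_nonneg {p : ℝ} (h0 : 0 ≤ p) (h1 : p ≤ 1) (A : Finset ι → Prop) : 0 ≤ pr p A := by
  classical
  rw [pr_def]
  apply ex_nonneg h0 h1
  intro R
  split_ifs <;> norm_num

theorem pr_mono {p : ℝ} (h0 : 0 ≤ p) (h1 : p ≤ 1) {A B : Finset ι → Prop} (h : ∀ R, A R → B R) :
    pr p A ≤ pr p B := by
  classical
  rw [pr_def, pr_def]
  apply ex_mono h0 h1
  intro R
  by_cases hA : A R
  · simp [hA, h R hA]
  · simp only [hA, if_false]
    split_ifs <;> norm_num

theorem pr_le_one {p : ℝ} (h0 : 0 ≤ p) (h1 : p ≤ 1) (A : Finset ι → Prop) : pr p A ≤ 1 := by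
  classical
  have h2 : pr p A ≤ ex p (fun _ : Finset ι => (1 : ℝ)) := by
    rw [pr_def]
    apply ex_mono h0 h1
    intro R
    split_ifs <;> norm_num
  rwa [ex_one] at h2

theorem pr_le_ex {p : ℝ} (h0 : 0 ≤ p) (h1 : p ≤ 1) (A : Finset ι → Prop) (F : Finset ι → ℝ)
    (hF : ∀ R, 0 ≤ F R) (h : ∀ R, A R → 1 ≤ F R) : pr p A ≤ ex p F := by
  classical
  rw [pr_def]
  apply ex_mono h0 h1
  intro R
  split_ifs with hA
  · exact h R hA
  · exact hF R

theorem pr_or {p : ℝ} (h0 : 0 ≤ p) (h1 : p ≤ 1) (A B : Finset ι → Prop) :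
    pr p (fun R => A R ∨ B R) ≤ pr p A + pr p B := by
  classical
  rw [pr_def, pr_def, pr_def]
  unfold ex
  rw [← sum_add_distrib]
  apply sum_le_sum
  intro R _
  rw [← mul_add]
  apply mul_le_mul_of_nonneg_left _ (wt_nonneg h0 h1 R)
  by_cases hA : A R <;> by_cases hB : B R <;> simp [hA, hB]

theorem pr_exists {κ : Type} {p : ℝ} (h0 : 0 ≤ p) (h1 : p ≤ 1) (s : Finset κ)
    (A : κ → Finset ι → Prop) : pr p (fun R => ∃ k ∈ s, A k R) ≤ ∑ k ∈ s, pr p (A k) := by
  classical
  have h2 : ∑ k ∈ s, pr p (A k) = ex p (fun R => ∑ k ∈ s, if A k R then (1 : ℝ) else 0) := by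
    rw [ex_sum]
    apply sum_congr rfl
    intro k _
    rw [pr_def]
  rw [h2]
  apply pr_le_ex h0 h1
  · intro R
    apply sum_nonneg
    intro k _
    split_ifs <;> norm_num
  · rintro R ⟨k, hk, hA⟩
    have := single_le_sum (f := fun k => if A k R then (1 : ℝ) else 0)
      (fun i _ => by split_ifs <;> norm_num) hk
    simpa [hA] using this

/-- splitting of an expectation according to the value of `X` -/
theorem ex_split {κ : Type} [Fintype κ] [DecidableEq κ] (p : ℝ) (X : Finset ι → κ)
    (F : Finset ι → ℝ) : ex p F = ∑ x : κ, ex p (fun R => (if X R = x then 1 else 0) * F R) := by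
  rw [← ex_sum]
  congr 1
  funext R
  rw [← sum_mul]
  simp

end Pool.Agent.L5helper55.NT
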