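import Pool.Agent.L5helper55.NT.Above
import Pool.Agent.L5helper55.NT.Dnf
import Pool.Agent.L5helper55.NT.Det
import Pool.Agent.L5helper55.NT.Hash

/-!
# Deterministic search among logarithmically many vertices
-/

namespace Pool.Agent.L5helper55.NT

open Pool.Agent.L5helper12.SN Finset

set_option linter.unusedSectionVars false

variable {V : Type} [Fintype V] [DecidableEq V]

open Classical in
/-- the next vertex of the walk: an out-neighbour whose hash value is still available -/
noncomputable def nxt {m : ℕ} (σ : V × V ≃ V × V) (h : V → Fin m) (v : V) (M : Finset (Fin m))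
    (G : Set (V × V)) : Option V :=
  (univ : Finset V).toList.foldr (fun w q => if σ (v, w) ∈ G ∧ h w ∈ M then some w else q) none

theorem nxt_some {m : ℕ} {σ : V × V ≃ V × V} {h : V → Fin m} {v w : V} {M : Finset (Fin m)}
    {G : Set (V × V)} (hw : nxt σ h v M G = some w) : σ (v, w) ∈ G ∧ h w ∈ M := by
  classical
  unfold nxt at hw
  generalize (univ : Finset V).toList = l at hw
  induction l with
  | nil => simp at hw
  | cons x l ih =>
    rw [List.foldr_cons] at hw
    split_ifs at hw with hc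
    · cases hw; exact hc
    · exact ih hw

theorem nxt_unique {m : ℕ} {σ : V × V ≃ V × V} {h : V → Fin m} {v w : V} {M : Finset (Fin m)}
    {G : Set (V × V)} (h1 : σ (v, w) ∈ G) (h2 : h w ∈ M)
    (h3 : ∀ x, σ (v, x) ∈ G → h x ∈ M → x = w) : nxt σ h v M G = some w := by
  classical
  have key : ∀ l : List V, w ∈ l →
      l.foldr (fun w q => if σ (v, w) ∈ G ∧ h w ∈ M then some w else q) none = some w := by
    intro l
    induction l with
    | nil => intro hw; exact absurd hw List.not_mem_nil
    | cons x l ih =>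
      intro hw
      rw [List.foldr_cons]
      split_ifs with hc
      · rw [h3 x hc.1 hc.2]
      · rcases List.mem_cons.mp hw with rfl | hw
        · exact absurd ⟨h1, h2⟩ hc
        · exact ih hw
  unfold nxt
  apply key
  simp

theorem nxt_empty {m : ℕ} (σ : V × V ≃ V × V) (h : V → Fin m) (v : V) (G : Set (V × V)) :
    nxt σ h v ∅ G = none := by
  cases hx : nxt σ h v ∅ G with
  | none => rfl
  | some w => exact absurd (nxt_some hx).2 (notMem_empty _)

theorem det_nxt {m : ℕ} (σ : V × V ≃ V × V) (h : V → Fin m) (v : V) (M : Finset (Fin m)) :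
    Det (Fintype.card V * (Fintype.card V + 1)) (nxt σ h v M) := by
  classical
  have := det_foldr (V := V) (univ : Finset V).toList
    (fun w (q : Option V) G => if σ (v, w) ∈ G ∧ h w ∈ M then some w else q) 1 (by
      intro w q
      by_cases hM : h w ∈ M
      · refine ((det_query (σ (v, w))).map (fun b : Bool => bif b then some w else q)).congr ?_
        intro G
        by_cases hG : σ (v, w) ∈ G <;> simp [hG, hM]
      · refine ((det_pure q).mono (Nat.zero_le 1)).congr ?_
        intro G
        simp [hM]) none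
  refine (this.mono (le_of_eq ?_)).congr ?_
  · rw [length_toList, card_univ, Fintype.card_option, mul_one]
  · intro G
    rfl

/-- one step of the walk -/
noncomputable def wst {m : ℕ} (σ : V × V ≃ V × V) (h : V → Fin m) (x : V × Finset (Fin m))
    (G : Set (V × V)) : V × Finset (Fin m) :=
  match nxt σ h x.1 x.2 G with
  | some w => (w, x.2.erase (h w))
  | none => x

/-- the walk -/
noncomputable def wlk {m : ℕ} (σ : V × V ≃ V × V) (h : V → Fin m) (G : Set (V × V)) (k : ℕ)
    (x : V × Finset (Fin m)) : V × Finset (Fin m) := (fun q => wst σ h q G)^[k] x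

theorem det_wlk {m : ℕ} (σ : V × V ≃ V × V) (h : V → Fin m) (k : ℕ) (x : V × Finset (Fin m)) :
    Det (k * (Fintype.card V * 2 ^ m * (Fintype.card V * (Fintype.card V + 1))))
      (fun G => wlk σ h G k x) := by
  have := det_iterate (V := V) (wst σ h) (Fintype.card V * (Fintype.card V + 1)) (by
    intro q
    refine ((det_nxt σ h q.1 q.2).map (fun o : Option V => match o with
      | some w => (w, q.2.erase (h w))
      | none => q)).congr ?_
    intro G
    rfl) x k
  rw [Fintype.card_prod, Fintype.card_finset, Fintype.card_fin] at this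
  exact this

theorem wlk_sound {m : ℕ} (σ : V × V ≃ V × V) (h : V → Fin m) (G : Set (V × V)) (k : ℕ)
    (x : V × Finset (Fin m)) : Rch σ G x.1 (wlk σ h G k x).1 := by
  induction k with
  | zero => exact Relation.ReflTransGen.refl
  | succ k ih =>
    unfold wlk at *
    rw [Function.iterate_succ_apply']
    generalize (fun q => wst σ h q G)^[k] x = y at ih
    unfold wst
    cases hy : nxt σ h y.1 y.2 G with
    | none => exact ih
    | some w => exact Relation.ReflTransGen.tail ih (nxt_some hy).1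

theorem wlk_succ {m : ℕ} (σ : V × V ≃ V × V) (h : V → Fin m) (G : Set (V × V)) (k : ℕ)
    (x : V × Finset (Fin m)) : wlk σ h G (k + 1) x = wlk σ h G k (wst σ h x G) := rfl

theorem wlk_empty {m : ℕ} (σ : V × V ≃ V × V) (h : V → Fin m) (G : Set (V × V)) (k : ℕ) (t : V) :
    wlk σ h G k (t, ∅) = (t, ∅) := by
  induction k with
  | zero => rfl
  | succ k ih =>
    rw [wlk_succ]
    have : wst σ h (t, ∅) G = (t, ∅) := by
      unfold wst
      simp only [nxt_empty]
    rw [this, ih]

/-- a path from `s` to `t` all of whose vertices with the exception of `t` belong to `P` -/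
def Pt (σ : V × V ≃ V × V) (G : Set (V × V)) (P : Finset V) (s t : V) : Prop :=
  Relation.ReflTransGen (fun x y => x ∈ P ∧ σ (x, y) ∈ G) s t

/-- paths of bounded length -/
def Rs (σ : V × V ≃ V × V) (G : Set (V × V)) (P : Finset V) (t : V) : ℕ → V → Prop
  | 0, x => x = t
  | j + 1, x => Rs σ G P t j x ∨ (x ∈ P ∧ ∃ y, σ (x, y) ∈ G ∧ Rs σ G P t j y)

theorem Rs.mono {σ : V × V ≃ V × V} {G : Set (V × V)} {P : Finset V} {t : V} {i j : ℕ}
    (hij : i ≤ j) {x : V} (h : Rs σ G P t i x) : Rs σ G P t j x := by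
  induction j, hij using Nat.le_induction with
  | base => exact h
  | succ j _ ih => exact Or.inl ih

theorem Pt.rs {σ : V × V ≃ V × V} {G : Set (V × V)} {P : Finset V} {s t : V}
    (h : Pt σ G P s t) : ∃ j, Rs σ G P t j s := by
  unfold Pt at h
  induction h using Relation.ReflTransGen.head_induction_on with
  | refl => exact ⟨0, rfl⟩
  | head h1 _ ih =>
    obtain ⟨j, hj⟩ := ih
    exact ⟨j + 1, Or.inr ⟨h1.1, _, h1.2, hj⟩⟩

theorem walk_finds {m : ℕ} {σ : V × V ≃ V × V} {h : V → Fin m} {G : Set (V × V)} {P Z : Finset V}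
    {t : V} (hinj : Set.InjOn h (↑Z : Set V)) (hPZ : ∀ v ∈ P, ∀ w, σ (v, w) ∈ G → w ∈ Z) (j : ℕ) :
    ∀ x, Rs σ G P t j x → (∀ i < j, ¬ Rs σ G P t i x) →
      ∃ Y : Finset V, Y ⊆ Z ∧ Y.card = j ∧ (∀ y ∈ Y, ∃ i < j, Rs σ G P t i y) ∧
        ∀ k, j ≤ k → wlk σ h G k (x, Y.image h) = (t, ∅) := by
  induction j with
  | zero =>
    intro x hx _
    refine ⟨∅, empty_subset _, rfl, by simp, ?_⟩
    intro k _
    have : x = t := hx
    subst this
    rw [image_empty, wlk_empty]
  | succ j ih =>
    intro x hx hmin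
    rcases hx with hx | ⟨hxP, y, hxy, hy⟩
    · exact absurd hx (hmin j (by omega))
    have hmin' : ∀ i < j, ¬ Rs σ G P t i y := by
      intro i hi hc
      exact hmin (i + 1) (by omega) (Or.inr ⟨hxP, y, hxy, hc⟩)
    obtain ⟨Y, h1, h2, h3, h4⟩ := ih y hy hmin'
    have hyZ : y ∈ Z := hPZ x hxP y hxy
    have hyY : y ∉ Y := by
      intro hc
      obtain ⟨i, hi, hc⟩ := h3 y hc
      exact hmin' i hi hc
    refine ⟨insert y Y, ?_, ?_, ?_, ?_⟩
    · intro z hz
      rcases mem_insert.mp hz with rfl | hz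
      · exact hyZ
      · exact h1 hz
    · rw [card_insert_of_notMem hyY, h2]
    · intro z hz
      rcases mem_insert.mp hz with rfl | hz
      · exact ⟨j, by omega, hy⟩
      · obtain ⟨i, hi, hc⟩ := h3 z hz
        exact ⟨i, by omega, hc⟩
    · intro k hk
      obtain ⟨k, rfl⟩ : ∃ k', k = k' + 1 := ⟨k - 1, by omega⟩
      rw [wlk_succ]
      have hn : nxt σ h x ((insert y Y).image h) G = some y := by
        apply nxt_unique hxy (mem_image_of_mem _ (mem_insert_self _ _))
        intro w hw hwM
        obtain ⟨z, hz, hzw⟩ := mem_image.mp hwM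
        have hwZ : w ∈ Z := hPZ x hxP w hw
        have hzZ : z ∈ Z := by
          rcases mem_insert.mp hz with rfl | hz
          · exact hyZ
          · exact h1 hz
        have hzw' : z = w := hinj (mem_coe.mpr hzZ) (mem_coe.mpr hwZ) hzw
        subst hzw'
        rcases mem_insert.mp hz with rfl | hz
        · rfl
        · exfalso
          obtain ⟨i, hi, hc⟩ := h3 z hz
          exact hmin (i + 1) (by omega) (Or.inr ⟨hxP, z, hw, hc⟩)
      have hs : wst σ h (x, (insert y Y).image h) G = (y, Y.image h) := by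
        unfold wst
        simp only [hn]
        congr 1
        rw [image_insert, erase_insert]
        intro hc
        obtain ⟨z, hz, hzy⟩ := mem_image.mp hc
        have : z = y := hinj (mem_coe.mpr (h1 hz)) (mem_coe.mpr hyZ) hzy
        subst this
        exact hyY hz
      rw [hs]
      exact h4 k (by omega)

/-- `t` is found from `s` by one of the walks -/
def Fnd {m : ℕ} (σ : V × V ≃ V × V) (ℋ : Finset (V → Fin m)) (s t : V) (G : Set (V × V)) : Prop :=
  ∃ h : {h // h ∈ ℋ}, ∃ M : Finset (Fin m), (wlk σ h.1 G m (s, M)).1 = t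

theorem Fnd.sound {m : ℕ} {σ : V × V ≃ V × V} {ℋ : Finset (V → Fin m)} {s t : V}
    {G : Set (V × V)} (h : Fnd σ ℋ s t G) : Rch σ G s t := by
  obtain ⟨h, M, h1⟩ := h
  have := wlk_sound σ h.1 G m (s, M)
  rw [h1] at this
  exact this

theorem fnd_of_pt {m : ℕ} {σ : V × V ≃ V × V} {ℋ : Finset (V → Fin m)}
    (hℋ : ∀ Z : Finset V, Z.card ≤ m → ∃ h ∈ ℋ, Set.InjOn h (↑Z : Set V)) {P Z : Finset V}
    {s t : V} {G : Set (V × V)} (hPZ : ∀ v ∈ P, ∀ w, σ (v, w) ∈ G → w ∈ Z) (hZ : Z.card ≤ m)
    (h : Pt σ G P s t) : Fnd σ ℋ s t G := by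
  classical
  obtain ⟨g, hg, hinj⟩ := hℋ Z hZ
  have hex := h.rs
  obtain ⟨Y, h1, h2, _, h4⟩ := walk_finds hinj hPZ (Nat.find hex) s (Nat.find_spec hex)
    (fun i hi => Nat.find_min hex hi)
  refine ⟨⟨g, hg⟩, Y.image g, ?_⟩
  rw [h4 m]
  rw [← h2]
  exact (card_le_card h1).trans hZ

/-- many vertices can be reached from `s` -/
def Big {m : ℕ} (σ : V × V ≃ V × V) (ℋ : Finset (V → Fin m)) (K : ℕ) (s : V)
    (G : Set (V × V)) : Prop :=
  ∃ u : V, Fnd σ ℋ s u G ∧ K ≤ {w | Fnd σ ℋ s w G ∨ σ (u, w) ∈ G}.ncard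

theorem xpl_pt (σ : V × V ≃ V × V) (G : Set (V × V)) (s : V) (k : ℕ) :
    ∀ t ∈ (xpl σ G s k).2, Pt σ G (xpl σ G s k).1 s t := by
  induction k with
  | zero =>
    intro t ht
    simp only [xpl, mem_singleton] at ht
    subst ht
    exact Relation.ReflTransGen.refl
  | succ k ih =>
    intro t ht
    have hmono : ∀ u, Pt σ G (xpl σ G s k).1 s u → Pt σ G (xpl σ G s (k + 1)).1 s u := by
      intro u hu
      unfold Pt at *
      exact Relation.ReflTransGen.mono
        (fun x y hxy => ⟨xpl_fst_mono σ G s (Nat.le_succ k) hxy.1, hxy.2⟩) _ _ hu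
    by_cases hn : ((xpl σ G s k).2 \ (xpl σ G s k).1).Nonempty
    · have hst := stp_pos σ G _ hn
      rw [xpl_succ] at ht hmono ⊢
      have hv := hn.choose_spec
      generalize hn.choose = v at *
      rw [mem_sdiff] at hv
      rw [hst] at ht hmono ⊢
      simp only [mem_union, mem_out] at ht
      rcases ht with ht | ht
      · exact hmono t (ih t ht)
      · have h1 := hmono v (ih v hv.1)
        exact Relation.ReflTransGen.tail h1 ⟨mem_insert_self _ _, ht⟩
    · have hst := stp_neg σ G _ hn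
      rw [xpl_succ, hst] at ht ⊢
      exact ih t ht

theorem big_iff {m : ℕ} {σ : V × V ≃ V × V} {ℋ : Finset (V → Fin m)}
    (hℋ : ∀ Z : Finset V, Z.card ≤ m → ∃ h ∈ ℋ, Set.InjOn h (↑Z : Set V)) (hm : 1 ≤ m) (s : V)
    (G : Set (V × V)) : Big σ ℋ m s G ↔ m ≤ (rset σ G s).card := by
  classical
  constructor
  · rintro ⟨u, h1, h2⟩
    refine h2.trans ?_
    rw [← Set.ncard_coe_finset (rset σ G s)]
    apply Set.ncard_le_ncard _ (Set.toFinite _)
    rintro w (hw | hw)
    · rw [mem_coe, mem_rset]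
      exact hw.sound
    · rw [mem_coe, mem_rset]
      exact Relation.ReflTransGen.tail h1.sound hw
  · intro hK
    have hex : ∃ k, m ≤ (xpl σ G s k).2.card := by
      refine ⟨m, ?_⟩
      have h1 := xpl_alive σ G s m hK
      have h2 := card_le_card (xpl_inv σ G s m).1
      omega
    have hspec := Nat.find_spec hex
    rcases Nat.eq_zero_or_pos (Nat.find hex) with h0 | hpos
    · -- m = 1
      rw [h0] at hspec
      simp only [xpl, card_singleton] at hspec
      have hs : Fnd σ ℋ s s G := by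
        apply fnd_of_pt hℋ (P := ∅) (Z := {s})
        · intro v hv; exact absurd hv (notMem_empty _)
        · simpa using hm
        · exact Relation.ReflTransGen.refl
      refine ⟨s, hs, ?_⟩
      refine hspec.trans ?_
      rw [Nat.one_le_iff_ne_zero, Ne, Set.ncard_eq_zero (Set.toFinite _)]
      intro hc
      have : s ∈ {w | Fnd σ ℋ s w G ∨ σ (s, w) ∈ G} := Or.inl hs
      rw [hc] at this
      exact this
    · obtain ⟨j, hj⟩ : ∃ j, Nat.find hex = j + 1 := ⟨Nat.find hex - 1, by omega⟩
      have hlt : (xpl σ G s j).2.card < m := by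
        have := Nat.find_min hex (m := j) (by omega)
        omega
      rw [hj] at hspec
      have hn : ((xpl σ G s j).2 \ (xpl σ G s j).1).Nonempty := by
        by_contra hn
        rw [xpl_succ, stp_neg σ G _ hn] at hspec
        omega
      have hst := stp_pos σ G _ hn
      have hv := hn.choose_spec
      rw [xpl_succ] at hspec
      generalize hn.choose = v at *
      rw [mem_sdiff] at hv
      rw [hst] at hspec
      simp only at hspec
      have hf : ∀ w ∈ (xpl σ G s j).2, Fnd σ ℋ s w G := by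
        intro w hw
        exact fnd_of_pt hℋ (P := (xpl σ G s j).1) (Z := (xpl σ G s j).2)
          (xpl_inv σ G s j).2.2.2.1 hlt.le (xpl_pt σ G s j w hw)
      refine ⟨v, hf v hv.1, hspec.trans ?_⟩
      rw [← Set.ncard_coe_finset]
      apply Set.ncard_le_ncard _ (Set.toFinite _)
      intro w hw
      rw [mem_coe, mem_union, mem_out] at hw
      rcases hw with hw | hw
      · exact Or.inl (hf w hw)
      · exact Or.inr hw

theorem fnd_iff {m : ℕ} {σ : V × V ≃ V × V} {ℋ : Finset (V → Fin m)}
    (hℋ : ∀ Z : Finset V, Z.card ≤ m → ∃ h ∈ ℋ, Set.InjOn h (↑Z : Set V)) {s t : V}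
    {G : Set (V × V)} (hs : (rset σ G s).card ≤ m) : Fnd σ ℋ s t G ↔ Rch σ G s t := by
  constructor
  · exact Fnd.sound
  · intro h
    apply fnd_of_pt hℋ (P := rset σ G s) (Z := rset σ G s) _ hs
    · -- the path stays in the reachable set
      have key : ∀ x, Rch σ G s x → Pt σ G (rset σ G s) s x := by
        intro x hx
        induction hx with
        | refl => exact Relation.ReflTransGen.refl
        | tail h1 h2 ih => exact Relation.ReflTransGen.tail ih ⟨(mem_rset σ G s _).mpr h1, h2⟩
      exact key t h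
    · intro v hv w hw
      rw [mem_rset] at hv ⊢
      exact Relation.ReflTransGen.tail hv hw

/-- the decision procedure -/
def Dec {m : ℕ} (ℋ : Finset (V → Fin m)) (s t : V) (G : Set (V × V)) : Prop :=
  (Fnd fw ℋ s t G ∨ Fnd bw ℋ t s G) ∨ (Big fw ℋ m s G ∧ Big bw ℋ m t G)

theorem dec_right {m : ℕ} {ℋ : Finset (V → Fin m)}
    (hℋ : ∀ Z : Finset V, Z.card ≤ m → ∃ h ∈ ℋ, Set.InjOn h (↑Z : Set V)) (hm : 1 ≤ m)
    (G : Set (V × V)) (s t : V)
    (h : ¬ (m ≤ (rset fw G s).card ∧ m ≤ (rset bw G t).card ∧ ¬ Rch fw G s t)) :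
    Dec ℋ s t G ↔ Rch fw G s t := by
  unfold Dec
  rw [big_iff hℋ hm, big_iff hℋ hm]
  constructor
  · rintro ((h1 | h1) | ⟨h1, h2⟩)
    · exact h1.sound
    · exact rch_bw.mp h1.sound
    · by_contra hc
      exact h ⟨h1, h2, hc⟩
  · intro h1
    by_cases h2 : m ≤ (rset fw G s).card
    · by_cases h3 : m ≤ (rset bw G t).card
      · exact Or.inr ⟨h2, h3⟩
      · exact Or.inl (Or.inr ((fnd_iff hℋ (by omega)).mpr (rch_bw.mpr h1)))
    · exact Or.inl (Or.inl ((fnd_iff hℋ (by omega)).mpr h1))

theorem det_fnd {m : ℕ} (σ : V × V ≃ V × V) (ℋ : Finset (V → Fin m)) (s t : V) :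
    DetP (ℋ.card * (2 * (2 ^ m * (2 * (m * (Fintype.card V * 2 ^ m *
      (Fintype.card V * (Fintype.card V + 1)))))))) (Fnd σ ℋ s t) := by
  classical
  have h1 : ∀ (h : {h // h ∈ ℋ}) (M : Finset (Fin m)), DetP (m * (Fintype.card V * 2 ^ m *
      (Fintype.card V * (Fintype.card V + 1)))) (fun G => (wlk σ h.1 G m (s, M)).1 = t) := by
    intro h M
    unfold DetP
    refine ((det_wlk σ h.1 m (s, M)).map (fun x => decide (x.1 = t))).congr ?_
    intro G
    congr
  have h2 := fun h : {h // h ∈ ℋ} => DetP.exists (h1 h)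
  have h3 := DetP.exists h2
  rw [Fintype.card_coe, Fintype.card_finset, Fintype.card_fin] at h3
  exact h3

theorem det_big {m : ℕ} (σ : V × V ≃ V × V) (ℋ : Finset (V → Fin m)) (K : ℕ) (s : V) {S : ℕ}
    (hS : ∀ t, DetP S (Fnd σ ℋ s t)) :
    DetP (Fintype.card V * (2 * (S + Fintype.card V * ((K + 1) * (S + 1))))) (Big σ ℋ K s) := by
  classical
  have h1 : ∀ u w : V, DetP (S + 1) (fun G => Fnd σ ℋ s w G ∨ σ (u, w) ∈ G) := by
    intro u w
    refine (hS w).or ?_
    unfold DetP
    refine (det_query (σ (u, w))).congr ?_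
    intro G
    congr
  have h2 := fun u : V => DetP.count (h1 u) K
  have h3 := fun u : V => (hS u).and (h2 u)
  exact DetP.exists h3

end Pool.Agent.L5helper55.NT
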